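import Pool.Agent.Helper874.TT.Top

/-! Data attached to a function with essential positive and negative parts. -/

namespace Pool.Agent.Helper874.TT

open Set Topology Metric

/-- primitive and lexicographically positive -/
def Pos (m n : ℤ) : Prop := Int.gcd m n = 1 ∧ (0 < m ∨ (m = 0 ∧ 0 < n))

theorem pos_exists {a b : ℤ} (h : a ≠ 0 ∨ b ≠ 0) : ∃ m n : ℤ, Pos m n ∧ m * a + n * b = 0 := by
  have hg : 0 < Int.gcd a b := Int.gcd_pos_iff.2 h
  obtain ⟨g, hgd⟩ : ∃ g : ℤ, g = Int.gcd a b := ⟨_, rfl⟩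
  have hg0 : g ≠ 0 := by rw [hgd]; exact_mod_cast hg.ne'
  obtain ⟨a', ha⟩ : g ∣ a := by rw [hgd]; exact Int.gcd_dvd_left ..
  obtain ⟨b', hb⟩ : g ∣ b := by rw [hgd]; exact Int.gcd_dvd_right ..
  have hcop : Int.gcd a' b' = 1 := by
    have h1 := Int.gcd_div_gcd_div_gcd hg
    rw [← hgd] at h1
    have e1 : a / g = a' := by
      conv_lhs => rw [ha]
      exact Int.mul_ediv_cancel_left _ hg0
    have e2 : b / g = b' := by
      conv_lhs => rw [hb]
      exact Int.mul_ediv_cancel_left _ hg0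
    rw [e1, e2] at h1
    exact h1
  have key : ∀ m n : ℤ, m * a' + n * b' = 0 → m * a + n * b = 0 := by
    intro m n hmn
    rw [ha, hb]
    have : m * (g * a') + n * (g * b') = g * (m * a' + n * b') := by ring
    rw [this, hmn, mul_zero]
  rcases lt_trichotomy b' 0 with hb' | hb' | hb'
  · refine ⟨-b', a', ⟨?_, Or.inl (by omega)⟩, key _ _ (by ring)⟩
    rw [Int.neg_gcd, Int.gcd_comm]; exact hcop
  · subst hb'
    rcases lt_or_ge 0 a' with h0 | h0
    · refine ⟨0, a', ⟨?_, Or.inr ⟨rfl, h0⟩⟩, key _ _ (by ring)⟩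
      rw [Int.gcd_comm]; exact hcop
    · have hne : a' ≠ 0 := by
        rintro rfl
        simp at hcop
      refine ⟨0, -a', ⟨?_, Or.inr ⟨rfl, by omega⟩⟩, key _ _ (by ring)⟩
      rw [Int.gcd_comm, Int.neg_gcd]; exact hcop
  · refine ⟨b', -a', ⟨?_, Or.inl hb'⟩, key _ _ (by ring)⟩
    rw [Int.gcd_neg, Int.gcd_comm]; exact hcop

theorem pos_multiple {a b m n m' n' : ℤ} (h : a ≠ 0 ∨ b ≠ 0) (hp : Pos m n)
    (h1 : m * a + n * b = 0) (h2 : m' * a + n' * b = 0) : ∃ τ : ℤ, m' = τ * m ∧ n' = τ * n := by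
  have hdet : m * n' - n * m' = 0 := by
    have e1 : a * (m * n' - n * m') = 0 := by linear_combination n' * h1 - n * h2
    have e2 : b * (m * n' - n * m') = 0 := by linear_combination m * h2 - m' * h1
    rcases h with h | h
    · exact (mul_eq_zero.1 e1).resolve_left h
    · exact (mul_eq_zero.1 e2).resolve_left h
  have hcop : IsCoprime m n := Int.isCoprime_iff_gcd_eq_one.2 hp.1
  obtain ⟨u, v, huv⟩ := hcop
  refine ⟨u * m' + v * n', ?_, ?_⟩
  · linear_combination (-m') * huv - v * hdet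
  · linear_combination (-n') * huv + u * hdet

theorem pos_unique {a b m n m' n' : ℤ} (h : a ≠ 0 ∨ b ≠ 0) (hp : Pos m n) (hp' : Pos m' n')
    (h1 : m * a + n * b = 0) (h2 : m' * a + n' * b = 0) : m = m' ∧ n = n' := by
  obtain ⟨τ, e1, e2⟩ := pos_multiple h hp h1 h2
  obtain ⟨τ', e3, e4⟩ := pos_multiple h hp' h2 h1
  have hne : m ≠ 0 ∨ n ≠ 0 := by
    rcases hp.2 with h | h
    · exact Or.inl h.ne'
    · exact Or.inr h.2.ne'
  have hττ : τ' * τ = 1 := by
    rcases hne with h | h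
    · have : m * (τ' * τ - 1) = 0 := by
        have : m = τ' * (τ * m) := by rw [← e1]; exact e3
        linear_combination -this
      have := (mul_eq_zero.1 this).resolve_left h
      linarith
    · have : n * (τ' * τ - 1) = 0 := by
        have : n = τ' * (τ * n) := by rw [← e2]; exact e4
        linear_combination -this
      have := (mul_eq_zero.1 this).resolve_left h
      linarith
  have hτ : τ = 1 ∨ τ = -1 := Int.isUnit_iff.1 (IsUnit.of_mul_eq_one_right _ hττ)
  rcases hτ with rfl | rfl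
  · exact ⟨by linarith, by linarith⟩
  · exfalso
    rcases hp.2 with h | h <;> rcases hp'.2 with h' | h' <;> omega

theorem par_kill {a b c d m n : ℤ} (h : c ≠ 0 ∨ d ≠ 0) (hdet : a * d - b * c = 0)
    (h1 : m * c + n * d = 0) : m * a + n * b = 0 := by
  rcases h with h | h
  · have : c * (m * a + n * b) = 0 := by linear_combination a * h1 - n * hdet
    exact (mul_eq_zero.1 this).resolve_left h
  · have : d * (m * a + n * b) = 0 := by linear_combination b * h1 + m * hdet
    exact (mul_eq_zero.1 this).resolve_left h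

theorem Lam.mono {W W' : Set T} {a b : ℤ} (h : Lam W a b) (hs : W ⊆ W') : Lam W' a b := by
  obtain ⟨z, hz⟩ := h
  exact ⟨z, hz.mono (preimage_mono hs)⟩

theorem Ess.mono {W W' : Set T} (h : Ess W) (hs : W ⊆ W') : Ess W' := by
  obtain ⟨a, b, h0, h1⟩ := h
  exact ⟨a, b, h0, h1.mono hs⟩

theorem lam_univ (a b : ℤ) : Lam univ a b := by
  refine ⟨0, ?_⟩
  rw [preimage_univ, joinedIn_univ]
  exact PathConnectedSpace.joined _ _

/-- a loop in `{0 < ρ}` stays in `{ε ≤ ρ}` -/
theorem lam_shrink {ρ : C(T, ℝ)} {a b : ℤ} (h : Lam {x | 0 < ρ x} a b) :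
    ∃ ε > 0, Lam {x | ε ≤ ρ x} a b := by
  obtain ⟨z, hz⟩ := h
  have hc : Continuous (fun t => ρ (pr (hz.somePath t))) :=
    ρ.continuous.comp (continuous_pr.comp hz.somePath.continuous)
  obtain ⟨t₀, -, ht₀⟩ := isCompact_univ.exists_isMinOn ⟨0, mem_univ _⟩ hc.continuousOn
  refine ⟨ρ (pr (hz.somePath t₀)), hz.somePath_mem t₀, z, ⟨hz.somePath, fun t => ?_⟩⟩
  exact ht₀ (mem_univ t)

/-- superlevel sets connected: strict version -/
theorem precon_strict {ρ : T → ℝ} (h : ∀ c : ℝ, IsPreconnected {x | c ≤ ρ x}) (c : ℝ) :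
    IsPreconnected {x | c < ρ x} := by
  apply isPreconnected_of_forall_pair
  intro x hx y hy
  refine ⟨{w | min (ρ x) (ρ y) ≤ ρ w}, ?_, min_le_left (ρ x) (ρ y), min_le_right (ρ x) (ρ y), h _⟩
  intro w hw
  exact lt_of_lt_of_le (lt_min (show c < ρ x from hx) (show c < ρ y from hy)) hw.out

/-- integer valued continuous functions on preconnected sets are constant -/
theorem int_const {P : Set T} (hP : IsPreconnected P) {g : T → ℝ} (hg : ContinuousOn g P)
    (hint : ∀ x ∈ P, ∃ k : ℤ, g x = k) {x y : T} (hx : x ∈ P) (hy : y ∈ P) : g x = g y := by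
  have h1 : IsPreconnected (g '' P) := hP.image g hg
  have h2 : (g '' P).Subsingleton := by
    have h3 : IsPreconnected (g '' P) := h1
    have h4 : (g '' P) ⊆ range ((↑) : ℤ → ℝ) := by
      rintro _ ⟨x, hx, rfl⟩
      obtain ⟨k, hk⟩ := hint x hx
      exact ⟨k, hk.symm⟩
    have h5 : IsTotallyDisconnected (range ((↑) : ℤ → ℝ)) := by
      have : (range ((↑) : ℤ → ℝ)).Countable := countable_range _
      exact this.isTotallyDisconnected
    exact h5 _ h4 h3
  exact h2 ⟨x, hx, rfl⟩ ⟨y, hy, rfl⟩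

/-- data for a function -/
structure Dat (ρ : C(T, ℝ)) (m n : ℤ) (lP lQ : C(T, ℝ)) (k : ℤ) : Prop where
  pos : Pos m n
  liftP : Lift m n {x | 0 ≤ ρ x} lP
  liftQ : Lift m n {x | ρ x ≤ 0} lQ
  diff : ∀ x, ρ x = 0 → lP x - lQ x = k ∨ lP x - lQ x = k + 1

theorem Dat.nonconst {ρ : C(T, ℝ)} {m n : ℤ} {lP lQ : C(T, ℝ)} {k : ℤ}
    (h : Dat ρ m n lP lQ k) (c : ℝ) (hc : ∀ x, ρ x = 0 → lP x - lQ x = c)
    (hint : ∃ j : ℤ, c = j) : False := by
  classical
  obtain ⟨j, rfl⟩ := hint
  have hcont : Continuous (fun x => if 0 ≤ ρ x then lP x else lQ x + j) := by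
    refine Continuous.if_le lP.continuous (lQ.continuous.add continuous_const) continuous_const
      ρ.continuous ?_
    intro x hx
    have := hc x hx.symm
    linarith
  have hl : Lift m n univ ⟨_, hcont⟩ := by
    intro z _
    by_cases hz : 0 ≤ ρ (pr z)
    · obtain ⟨i, hi⟩ := h.liftP z hz
      refine ⟨i, ?_⟩
      simp only [ContinuousMap.coe_mk, if_pos hz]
      exact hi
    · obtain ⟨i, hi⟩ := h.liftQ z (not_le.1 hz).le
      refine ⟨i + j, ?_⟩
      simp only [ContinuousMap.coe_mk, if_neg hz]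
      rw [hi]; push_cast; ring
  have h1 := lift_loop hl (lam_univ 1 0)
  have h2 := lift_loop hl (lam_univ 0 1)
  simp only [mul_one, mul_zero, add_zero, zero_add] at h1 h2
  rcases h.pos.2 with h | h
  · omega
  · omega

end Pool.Agent.Helper874.TT
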