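import Pool.Agent.Helper874.TT.Defs

namespace Pool.Agent.Helper874.TT

open Set Topology Metric




theorem LogOn.mono' {X : Type*} [TopologicalSpace X] {u : X → ℂ} {K L : Set X} (h : LogOn u K)
    (hL : L ⊆ K) : LogOn u L := by
  obtain ⟨g, hg, he⟩ := h
  exact ⟨g, hg.mono hL, fun x hx => he x (hL hx)⟩

theorem log_empty (u : ℂ → ℂ) : LogOn u (∅ : Set ℂ) :=
  ⟨fun _ => 0, continuousOn_empty _, fun x hx => absurd hx (notMem_empty x)⟩

theorem log_small {K : Set ℂ} (hK : IsCompact K) {u : ℂ → ℂ} (hu : ContinuousOn u K)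
    (h0 : ∀ z ∈ K, u z ≠ 0) :
    ∃ δ > 0, ∀ K' ⊆ K, (∀ z ∈ K', ∀ w ∈ K', dist z w < δ) → LogOn u K' := by
  rcases K.eq_empty_or_nonempty with rfl | hne
  · refine ⟨1, one_pos, fun K' hK' _ => ?_⟩
    rw [subset_empty_iff.1 hK']
    exact log_empty u
  · obtain ⟨z0, hz0, hmin⟩ := hK.exists_isMinOn hne hu.norm
    have hm : 0 < ‖u z0‖ := norm_pos_iff.2 (h0 z0 hz0)
    have huc := hK.uniformContinuousOn_of_continuous hu
    rw [Metric.uniformContinuousOn_iff] at huc
    obtain ⟨δ, hδ, hd⟩ := huc ‖u z0‖ hm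
    refine ⟨δ, hδ, fun K' hK' hsm => ?_⟩
    rcases K'.eq_empty_or_nonempty with rfl | ⟨c, hc⟩
    · exact log_empty u
    · have hcK := hK' hc
      have hc0 := h0 c hcK
      have hsl : ∀ z ∈ K', u z / u c ∈ Complex.slitPlane := by
        intro z hz
        have h1 : ‖u z / u c - 1‖ < 1 := by
          rw [div_sub_one hc0, norm_div, div_lt_one (norm_pos_iff.2 hc0), ← dist_eq_norm]
          exact (hd z (hK' hz) c hcK (hsm z hz c hc)).trans_le (hmin hcK)
        have := Complex.mem_slitPlane_of_norm_lt_one h1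
        simpa using this
      refine ⟨fun z => Complex.log (u c) + Complex.log (u z / u c), ?_, ?_⟩
      · exact continuousOn_const.add (ContinuousOn.clog ((hu.mono hK').div_const _) hsl)
      · intro z hz
        rw [Complex.exp_add, Complex.exp_log hc0,
          Complex.exp_log (div_ne_zero (h0 z (hK' hz)) hc0)]
        field_simp

theorem log_near {K : Set ℂ} {q q' : ℂ} (h : ∀ z ∈ K, ‖q' - q‖ < ‖z - q‖)
    (hl : LogOn (fun z => z - q) K) : LogOn (fun z => z - q') K := by
  obtain ⟨g, hg, he⟩ := hl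
  have hne : ∀ z ∈ K, z - q ≠ 0 := fun z hz h0 => by
    have := h z hz
    rw [h0, norm_zero] at this
    exact absurd this (not_lt.2 (norm_nonneg _))
  have hsl : ∀ z ∈ K, 1 + (q - q') / (z - q) ∈ Complex.slitPlane := by
    intro z hz
    apply Complex.mem_slitPlane_of_norm_lt_one
    rw [norm_div, div_lt_one (norm_pos_iff.2 (hne z hz)), norm_sub_rev]
    exact h z hz
  refine ⟨fun z => g z + Complex.log (1 + (q - q') / (z - q)), ?_, ?_⟩
  · apply hg.add
    apply ContinuousOn.clog _ hsl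
    apply continuousOn_const.add
    exact continuousOn_const.div (by fun_prop) hne
  · intro z hz
    rw [Complex.exp_add, he z hz, Complex.exp_log (Complex.slitPlane_ne_zero (hsl z hz))]
    have := hne z hz
    field_simp
    ring

theorem log_far {K : Set ℂ} {q : ℂ} (h : ∀ z ∈ K, ‖z‖ < ‖q‖) : LogOn (fun z => z - q) K := by
  rcases K.eq_empty_or_nonempty with rfl | ⟨c, hc⟩
  · exact log_empty _
  have hq : q ≠ 0 := by
    rintro rfl
    have := h c hc
    rw [norm_zero] at this
    exact absurd this (not_lt.2 (norm_nonneg _))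
  have hsl : ∀ z ∈ K, 1 + -(z / q) ∈ Complex.slitPlane := by
    intro z hz
    apply Complex.mem_slitPlane_of_norm_lt_one
    rw [norm_neg, norm_div, div_lt_one (norm_pos_iff.2 hq)]
    exact h z hz
  refine ⟨fun z => Complex.log (-q) + Complex.log (1 + -(z / q)), ?_, ?_⟩
  · exact continuousOn_const.add (ContinuousOn.clog (by fun_prop) hsl)
  · intro z hz
    rw [Complex.exp_add, Complex.exp_log (neg_ne_zero.2 hq),
      Complex.exp_log (Complex.slitPlane_ne_zero (hsl z hz))]
    field_simp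
    ring

theorem log_sub {K : Set ℂ} (hK : IsCompact K) (hNS : NS K) {p : ℂ} (hp : p ∉ K) :
    LogOn (fun z => z - p) K := by
  rcases K.eq_empty_or_nonempty with rfl | hne
  · exact log_empty _
  obtain ⟨M, hM⟩ := hK.isBounded.exists_norm_le
  obtain ⟨D, hD, hDK, hpD, q, hqD, hq⟩ := hNS p hp M
  by_contra hcon
  have key : ∀ q ∉ K, ∃ ε > 0, ∀ q', dist q' q < ε → q' ∉ K ∧
      (LogOn (fun z => z - q) K ↔ LogOn (fun z => z - q') K) := by
    intro q hq
    have hpos : 0 < infDist q K := (hK.isClosed.notMem_iff_infDist_pos hne).1 hq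
    refine ⟨infDist q K / 2, half_pos hpos, fun q' hq' => ?_⟩
    have h1 : ∀ z ∈ K, ‖q' - q‖ < ‖z - q‖ ∧ ‖q - q'‖ < ‖z - q'‖ := by
      intro z hz
      have h2 : infDist q K ≤ dist q z := infDist_le_dist_of_mem hz
      have h3 : dist q z ≤ dist q q' + dist q' z := dist_triangle _ _ _
      rw [dist_comm q q'] at h3
      rw [← dist_eq_norm, ← dist_eq_norm, ← dist_eq_norm, ← dist_eq_norm, dist_comm z q,
        dist_comm z q', dist_comm q q']
      constructor <;> linarith
    refine ⟨fun hq'K => ?_, fun h => log_near (fun z hz => (h1 z hz).1) h,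
      fun h => log_near (fun z hz => (h1 z hz).2) h⟩
    have := (h1 q' hq'K).2
    rw [sub_self, norm_zero] at this
    exact absurd this (not_lt.2 (norm_nonneg _))
  have hO1 : IsOpen {q | q ∉ K ∧ LogOn (fun z => z - q) K} := by
    rw [Metric.isOpen_iff]
    rintro q ⟨hq, hl⟩
    obtain ⟨ε, hε, h⟩ := key q hq
    exact ⟨ε, hε, fun q' hq' => ⟨(h q' hq').1, (h q' hq').2.1 hl⟩⟩
  have hO2 : IsOpen {q | q ∉ K ∧ ¬ LogOn (fun z => z - q) K} := by
    rw [Metric.isOpen_iff]
    rintro q ⟨hq, hl⟩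
    obtain ⟨ε, hε, h⟩ := key q hq
    exact ⟨ε, hε, fun q' hq' => ⟨(h q' hq').1, fun h' => hl ((h q' hq').2.2 h')⟩⟩
  have := hD _ _ hO1 hO2 (fun x hx => by
    by_cases hl : LogOn (fun z => z - x) K
    · exact Or.inl ⟨hDK hx, hl⟩
    · exact Or.inr ⟨hDK hx, hl⟩) ⟨q, hqD, hDK hqD, log_far (fun z hz => (hM z hz).trans_lt hq)⟩
    ⟨p, hpD, hp, hcon⟩
  obtain ⟨x, -, ⟨-, h1⟩, -, h2⟩ := this
  exact h2 h1

/-- branch on the right half plane -/
theorem log_right {t : ℝ} {p : ℂ} (hp : p.re = t) {B : Set ℂ} (hB : ∀ z ∈ B, t ≤ z.re)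
    (hpB : p ∉ B) : ContinuousOn (fun z => Complex.log (z - p)) B ∧
    ∀ z ∈ B, Complex.exp (Complex.log (z - p)) = z - p := by
  have hsl : ∀ z ∈ B, z - p ∈ Complex.slitPlane := by
    intro z hz
    rw [Complex.mem_slitPlane_iff]
    by_contra hcon
    push Not at hcon
    obtain ⟨h1, h2⟩ := hcon
    apply hpB
    have : z = p := by
      apply Complex.ext
      · rw [Complex.sub_re] at h1
        have := hB z hz
        linarith
      · rw [Complex.sub_im] at h2
        linarith
    rwa [← this]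
  exact ⟨ContinuousOn.clog (by fun_prop) hsl, fun z hz =>
    Complex.exp_log (Complex.slitPlane_ne_zero (hsl z hz))⟩

theorem log_left {t : ℝ} {p : ℂ} (hp : p.re = t) {A : Set ℂ} (hA : ∀ z ∈ A, z.re ≤ t)
    (hpA : p ∉ A) : ContinuousOn (fun z => Complex.log (-(z - p)) + Real.pi * Complex.I) A ∧
    ∀ z ∈ A, Complex.exp (Complex.log (-(z - p)) + Real.pi * Complex.I) = z - p := by
  have hsl : ∀ z ∈ A, -(z - p) ∈ Complex.slitPlane := by
    intro z hz
    rw [Complex.mem_slitPlane_iff]
    by_contra hcon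
    push Not at hcon
    obtain ⟨h1, h2⟩ := hcon
    apply hpA
    have : z = p := by
      apply Complex.ext
      · rw [Complex.neg_re, Complex.sub_re] at h1
        have := hA z hz
        linarith
      · rw [Complex.neg_im, Complex.sub_im] at h2
        linarith
    rwa [← this]
  refine ⟨(ContinuousOn.clog (by fun_prop) hsl).add continuousOn_const, fun z hz => ?_⟩
  rw [Complex.exp_add, Complex.exp_log (Complex.slitPlane_ne_zero (hsl z hz)),
    Complex.exp_pi_mul_I]
  ring

theorem log_diff {z p : ℂ} (h : z.re = p.re) (hne : z.im ≠ p.im) :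
    (Complex.log (-(z - p)) + Real.pi * Complex.I) - Complex.log (z - p) =
      ((if z.im < p.im then 1 else 0 : ℤ) : ℂ) * (2 * Real.pi * Complex.I) := by
  rcases lt_or_gt_of_ne hne with h1 | h1
  · rw [if_pos h1]
    have e1 : Complex.arg (z - p) = -(Real.pi / 2) :=
      Complex.arg_eq_neg_pi_div_two_iff.2 ⟨by rw [Complex.sub_re, h, sub_self],
        by rw [Complex.sub_im]; linarith⟩
    have e2 : Complex.arg (-(z - p)) = Real.pi / 2 :=
      Complex.arg_eq_pi_div_two_iff.2 ⟨by rw [Complex.neg_re, Complex.sub_re, h, sub_self, neg_zero],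
        by rw [Complex.neg_im, Complex.sub_im]; linarith⟩
    rw [Complex.log, Complex.log, e1, e2, norm_neg]
    push_cast
    ring
  · rw [if_neg (not_lt.2 h1.le)]
    have e1 : Complex.arg (z - p) = Real.pi / 2 :=
      Complex.arg_eq_pi_div_two_iff.2 ⟨by rw [Complex.sub_re, h, sub_self],
        by rw [Complex.sub_im]; linarith⟩
    have e2 : Complex.arg (-(z - p)) = -(Real.pi / 2) :=
      Complex.arg_eq_neg_pi_div_two_iff.2 ⟨by
        rw [Complex.neg_re, Complex.sub_re, h, sub_self, neg_zero],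
        by rw [Complex.neg_im, Complex.sub_im]; linarith⟩
    rw [Complex.log, Complex.log, e1, e2, norm_neg]
    push_cast
    ring

/-- induction over integer valued locally constant functions on a compact subset of the line -/
theorem step_induction {Z : Set ℝ} (hZ : IsCompact Z) (G : (ℝ → ℤ) → Prop)
    (h1 : ∀ d : ℝ → ℤ, ∀ c : ℤ, (∀ y ∈ Z, d y = c) → G d)
    (h2 : ∀ d : ℝ → ℤ, ∀ s ∉ Z, ∀ n : ℤ, G (fun y => d y + n * (if y < s then 1 else 0)) → G d)
    (d : ℝ → ℤ) (η : ℝ) (hη : 0 < η)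
    (hd : ∀ y ∈ Z, ∀ y' ∈ Z, |y - y'| < η → d y = d y') : G d := by
  obtain ⟨M, hM⟩ := hZ.isBounded.exists_norm_le
  have claim : ∀ N : ℕ, ∀ a : ℝ, M < a + N * (η / 2) → ∀ d : ℝ → ℤ,
      (∀ y ∈ Z, ∀ y' ∈ Z, a - η / 2 ≤ y → a - η / 2 ≤ y' → |y - y'| < η → d y = d y') →
      (∃ c, ∀ y ∈ Z, y < a → d y = c) → G d := by
    intro N
    induction N with
    | zero =>
      intro a ha d _ ⟨c, hc⟩
      apply h1 d c
      intro y hy
      apply hc y hy
      have := hM y hy
      rw [Real.norm_eq_abs] at this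
      have := le_abs_self y
      simp at ha
      linarith
    | succ N ih =>
      intro a ha d hsc ⟨c, hc⟩
      have ha' : M < (a + η / 2) + N * (η / 2) := by
        push_cast at ha
        linarith
      by_cases hE : ∃ y1 ∈ Z, a ≤ y1 ∧ y1 < a + η / 2
      · obtain ⟨y1, hy1, hy1a, hy1b⟩ := hE
        have hc' : ∀ y ∈ Z, a ≤ y → y < a + η / 2 → d y = d y1 := by
          intro y hy hya hyb
          apply hsc y hy y1 hy1 (by linarith) (by linarith)
          rw [abs_lt]
          constructor <;> linarith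
        by_cases hF : ∃ y0 ∈ Z, a - η / 2 ≤ y0 ∧ y0 < a
        · obtain ⟨y0, hy0, hy0a, hy0b⟩ := hF
          have hcc : c = d y1 := by
            rw [← hc y0 hy0 hy0b]
            apply hsc y0 hy0 y1 hy1 (by linarith) (by linarith)
            rw [abs_lt]
            constructor <;> linarith
          apply ih (a + η / 2) ha' d
          · intro y hy y' hy' h3 h4 h5
            exact hsc y hy y' hy' (by linarith) (by linarith) h5
          · refine ⟨c, fun y hy hya => ?_⟩
            by_cases h3 : y < a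
            · exact hc y hy h3
            · rw [hcc]
              exact hc' y hy (not_lt.1 h3) hya
        · push Not at hF
          have hs : a - η / 4 ∉ Z := fun hh => by
            have := hF _ hh (by linarith)
            linarith
          apply h2 d (a - η / 4) hs (d y1 - c)
          have hlo : ∀ y ∈ Z, y < a → y < a - η / 4 := by
            intro y hy hya
            by_contra hcon
            push Not at hcon
            have := hF y hy (by linarith)
            linarith
          apply ih (a + η / 2) ha'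
          · intro y hy y' hy' h3 h4 h5
            rw [if_neg (by push Not; linarith), if_neg (by push Not; linarith)]
            rw [hsc y hy y' hy' (by linarith) (by linarith) h5]
          · refine ⟨d y1, fun y hy hya => ?_⟩
            by_cases h3 : y < a
            · rw [if_pos (hlo y hy h3), hc y hy h3]
              ring
            · rw [if_neg (by push Not at h3 ⊢; linarith), hc' y hy (not_lt.1 h3) hya]
              ring
      · push Not at hE
        apply ih (a + η / 2) ha' d
        · intro y hy y' hy' h3 h4 h5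
          exact hsc y hy y' hy' (by linarith) (by linarith) h5
        · refine ⟨c, fun y hy hya => ?_⟩
          apply hc y hy
          by_contra h3
          have := hE y hy (not_lt.1 h3)
          linarith
  obtain ⟨N, hN⟩ := exists_nat_gt ((M - (-M)) / (η / 2))
  apply claim N (-M)
  · rw [div_lt_iff₀ (by linarith)] at hN
    linarith
  · intro y hy y' hy' _ _ h5
    exact hd y hy y' hy' h5
  · refine ⟨0, fun y hy hya => ?_⟩
    exfalso
    have := hM y hy
    rw [Real.norm_eq_abs] at this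
    have := neg_abs_le y
    linarith

theorem glueV {K : Set ℂ} (hK : IsCompact K) (hNS : NS K) {u : ℂ → ℂ} (t : ℝ)
    (hA : LogOn u (K ∩ {z | z.re ≤ t})) (hB : LogOn u (K ∩ {z | t ≤ z.re})) : LogOn u K := by
  have hAc : IsCompact (K ∩ {z : ℂ | z.re ≤ t}) :=
    hK.inter_right (isClosed_le Complex.continuous_re continuous_const)
  have hBc : IsCompact (K ∩ {z : ℂ | t ≤ z.re}) :=
    hK.inter_right (isClosed_le continuous_const Complex.continuous_re)
  have hZc : IsCompact (K ∩ {z : ℂ | z.re = t}) :=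
    hK.inter_right (isClosed_eq Complex.continuous_re continuous_const)
  set Z : Set ℝ := Complex.im '' (K ∩ {z : ℂ | z.re = t}) with hZdef
  have hZ : IsCompact Z := hZc.image Complex.continuous_im
  have hpi : (2 * Real.pi * Complex.I : ℂ) ≠ 0 := Complex.two_pi_I_ne_zero
  obtain ⟨gA, hgA, heA⟩ := hA
  obtain ⟨gB, hgB, heB⟩ := hB
  have hex : ∀ z ∈ K ∩ {z : ℂ | z.re = t}, ∃ n : ℤ, gA z - gB z = n * (2 * Real.pi * Complex.I) := by
    rintro z ⟨hz, hzt⟩
    rw [← Complex.exp_eq_one_iff, Complex.exp_sub, heA z ⟨hz, le_of_eq hzt⟩,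
      heB z ⟨hz, ge_of_eq hzt⟩]
    apply div_self
    rw [← heA z ⟨hz, le_of_eq hzt⟩]
    exact Complex.exp_ne_zero _
  choose! n hn using hex
  have huc := hZc.uniformContinuousOn_of_continuous
    ((hgA.mono (fun z hz => ⟨hz.1, le_of_eq hz.2⟩)).sub
      (hgB.mono (fun z hz => ⟨hz.1, ge_of_eq hz.2⟩)))
  rw [Metric.uniformContinuousOn_iff] at huc
  obtain ⟨η, hη, hη2⟩ := huc 1 one_pos
  have main := step_induction hZ (fun d => ∀ (u gA gB : ℂ → ℂ),
    ContinuousOn gA (K ∩ {z : ℂ | z.re ≤ t}) → (∀ z ∈ K ∩ {z : ℂ | z.re ≤ t},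
      Complex.exp (gA z) = u z) → ContinuousOn gB (K ∩ {z : ℂ | t ≤ z.re}) →
      (∀ z ∈ K ∩ {z : ℂ | t ≤ z.re}, Complex.exp (gB z) = u z) →
      (∀ z ∈ K, z.re = t → gA z - gB z = (d z.im : ℂ) * (2 * Real.pi * Complex.I)) → LogOn u K)
    ?_ ?_ (fun y => n ⟨t, y⟩) η hη ?_
  · apply main u gA gB hgA heA hgB heB
    intro z hz hzt
    have : (⟨t, z.im⟩ : ℂ) = z := by
      apply Complex.ext
      · exact hzt.symm
      · rfl
    rw [this]
    exact hn z ⟨hz, hzt⟩
  · -- constants
    intro d c hdc u gA gB hgA heA hgB heB hd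
    have hd' : ∀ z ∈ K, z.re = t → gA z = gB z + (c : ℂ) * (2 * Real.pi * Complex.I) := by
      intro z hz hzt
      have h3 := hd z hz hzt
      rw [hdc z.im ⟨z, ⟨hz, hzt⟩, rfl⟩] at h3
      rw [← h3]
      ring
    refine ⟨fun z => if z.re ≤ t then gA z else gB z + (c : ℂ) * (2 * Real.pi * Complex.I), ?_, ?_⟩
    · have hKu : K = (K ∩ {z : ℂ | z.re ≤ t}) ∪ (K ∩ {z : ℂ | t ≤ z.re}) := by
        ext z
        constructor
        · intro hz
          rcases le_total z.re t with h | h
          · exact Or.inl ⟨hz, h⟩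
          · exact Or.inr ⟨hz, h⟩
        · rintro (h | h)
          · exact h.1
          · exact h.1
      have c1 : ContinuousOn (fun z : ℂ => if z.re ≤ t then gA z else
          gB z + (c : ℂ) * (2 * Real.pi * Complex.I)) (K ∩ {z : ℂ | z.re ≤ t}) := by
        apply hgA.congr
        intro z hz
        exact if_pos hz.2
      have c2 : ContinuousOn (fun z : ℂ => if z.re ≤ t then gA z else
          gB z + (c : ℂ) * (2 * Real.pi * Complex.I)) (K ∩ {z : ℂ | t ≤ z.re}) := by
        apply (hgB.add (continuousOn_const (c := (c : ℂ) * (2 * Real.pi * Complex.I)))).congr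
        intro z hz
        by_cases h : z.re ≤ t
        · have h' : z.re = t := le_antisymm h hz.2
          simp only [if_pos h]
          exact hd' z hz.1 h'
        · simp only [if_neg h]
          rfl
      rw [hKu]
      exact c1.union_of_isClosed c2 hAc.isClosed hBc.isClosed
    · intro z hz
      by_cases h : z.re ≤ t
      · simp only [if_pos h]
        exact heA z ⟨hz, h⟩
      · simp only [if_neg h]
        rw [Complex.exp_add, Complex.exp_int_mul_two_pi_mul_I, mul_one]
        exact heB z ⟨hz, (not_le.1 h).le⟩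
  · -- steps
    intro d s hs m hG u gA gB hgA heA hgB heB hd
    have hp : (⟨t, s⟩ : ℂ) ∉ K := fun h => hs ⟨⟨t, s⟩, ⟨h, rfl⟩, rfl⟩
    set p : ℂ := ⟨t, s⟩ with hpdef
    have hpt : p.re = t := rfl
    obtain ⟨cR, eR⟩ := log_right hpt (B := K ∩ {z : ℂ | t ≤ z.re}) (fun z hz => hz.2)
      (fun h => hp h.1)
    obtain ⟨cL, eL⟩ := log_left hpt (A := K ∩ {z : ℂ | z.re ≤ t}) (fun z hz => hz.2)
      (fun h => hp h.1)
    have := hG (fun z => u z * (z - p) ^ m)
      (fun z => gA z + m * (Complex.log (-(z - p)) + Real.pi * Complex.I))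
      (fun z => gB z + m * Complex.log (z - p))
      (hgA.add (continuousOn_const.mul cL)) ?_
      (hgB.add (continuousOn_const.mul cR)) ?_ ?_
    · obtain ⟨g, hg, he⟩ := this
      obtain ⟨g', hg', he'⟩ := log_sub hK hNS hp
      refine ⟨fun z => g z - m * g' z, hg.sub (continuousOn_const.mul hg'), fun z hz => ?_⟩
      rw [Complex.exp_sub, he z hz, Complex.exp_int_mul, he' z hz]
      have hzp : z - p ≠ 0 := fun h0 => hp (by rwa [← sub_eq_zero.1 h0])
      rw [mul_div_assoc, div_self (zpow_ne_zero _ hzp), mul_one]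
    · intro z hz
      show Complex.exp (gA z + m * (Complex.log (-(z - p)) + Real.pi * Complex.I)) =
        u z * (z - p) ^ m
      rw [Complex.exp_add, heA z hz, Complex.exp_int_mul, eL z hz]
    · intro z hz
      show Complex.exp (gB z + m * Complex.log (z - p)) = u z * (z - p) ^ m
      rw [Complex.exp_add, heB z hz, Complex.exp_int_mul, eR z hz]
    · intro z hz hzt
      have h3 := hd z hz hzt
      have h4 := log_diff (z := z) (p := p) (by rw [hzt]) (fun h => hp (by
        have : z = p := Complex.ext hzt h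
        rwa [← this]))
      have h5 : p.im = s := rfl
      rw [h5] at h4
      push_cast
      push_cast at h4
      linear_combination h3 + (m : ℂ) * h4
  · -- scale
    rintro y ⟨z, hz, rfl⟩ y' ⟨z', hz', rfl⟩ hyy
    have e1 : (⟨t, z.im⟩ : ℂ) = z := Complex.ext hz.2.symm rfl
    have e2 : (⟨t, z'.im⟩ : ℂ) = z' := Complex.ext hz'.2.symm rfl
    show n ⟨t, z.im⟩ = n ⟨t, z'.im⟩
    rw [e1, e2]
    have h3 : dist z z' < η := by
      rw [Complex.dist_eq_re_im, hz.2, hz'.2, sub_self, zero_pow two_ne_zero, zero_add,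
        Real.sqrt_sq_eq_abs]
      exact hyy
    have h4 := hη2 z hz z' hz' h3
    simp only [Pi.sub_apply] at h4
    rw [hn z hz, hn z' hz', dist_eq_norm, ← sub_mul, norm_mul] at h4
    have h5 : ‖(2 * Real.pi * Complex.I : ℂ)‖ = 2 * Real.pi := by
      rw [norm_mul, Complex.norm_I, mul_one, norm_mul, Complex.norm_real, Real.norm_eq_abs,
        abs_of_pos Real.pi_pos]
      norm_num
    rw [h5] at h4
    by_contra hne
    have h6 : (1 : ℝ) ≤ ‖((n z : ℂ) - (n z' : ℂ))‖ := by
      rw [← Int.cast_sub, Complex.norm_intCast, ← Int.cast_abs]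
      exact_mod_cast Int.one_le_abs (sub_ne_zero.2 hne)
    have := Real.pi_gt_three
    nlinarith

theorem ns_cutR {K : Set ℂ} (hNS : NS K) (t : ℝ) : NS (K ∩ {z | z.re ≤ t}) := by
  intro p hp R
  by_cases h : p.re ≤ t
  · obtain ⟨D, h1, h2, h3, h4⟩ := hNS p (fun hh => hp ⟨hh, h⟩) R
    exact ⟨D, h1, fun x hx hh => h2 hx hh.1, h3, h4⟩
  · refine ⟨{z | t < z.re}, (convex_halfSpace_re_gt t).isPreconnected, ?_, not_le.1 h,
      ((|t| + |R| + 1 : ℝ) : ℂ), ?_, ?_⟩
    · intro z hz hh
      have h1 := hh.2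
      simp only [mem_setOf_eq] at h1 hz
      linarith
    · show t < ((|t| + |R| + 1 : ℝ) : ℂ).re
      rw [Complex.ofReal_re]
      have := le_abs_self t
      have := abs_nonneg R
      linarith
    · rw [Complex.norm_real, Real.norm_eq_abs, abs_of_pos (by positivity)]
      have := le_abs_self R
      have := abs_nonneg t
      linarith

theorem ns_cutL {K : Set ℂ} (hNS : NS K) (t : ℝ) : NS (K ∩ {z | t ≤ z.re}) := by
  intro p hp R
  by_cases h : t ≤ p.re
  · obtain ⟨D, h1, h2, h3, h4⟩ := hNS p (fun hh => hp ⟨hh, h⟩) R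
    exact ⟨D, h1, fun x hx hh => h2 hx hh.1, h3, h4⟩
  · refine ⟨{z | z.re < t}, (convex_halfSpace_re_lt t).isPreconnected, ?_, not_le.1 h,
      ((-(|t| + |R| + 1) : ℝ) : ℂ), ?_, ?_⟩
    · intro z hz hh
      have h1 := hh.2
      simp only [mem_setOf_eq] at h1 hz
      linarith
    · show ((-(|t| + |R| + 1) : ℝ) : ℂ).re < t
      rw [Complex.ofReal_re]
      have := neg_abs_le t
      have := abs_nonneg R
      linarith
    · rw [Complex.norm_real, Real.norm_eq_abs, abs_neg, abs_of_pos (by positivity)]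
      have := le_abs_self R
      have := abs_nonneg t
      linarith

/-- rotation by a quarter turn -/
theorem ns_rot {K : Set ℂ} (hNS : NS K) : NS {z | Complex.I * z ∈ K} := by
  intro p hp R
  obtain ⟨D, h1, h2, h3, q, hq, hqR⟩ := hNS (Complex.I * p) hp R
  refine ⟨(fun z => -Complex.I * z) '' D, h1.image _ (by fun_prop), ?_, ⟨_, h3, ?_⟩,
    -Complex.I * q, ⟨q, hq, rfl⟩, ?_⟩
  · rintro _ ⟨z, hz, rfl⟩ hh
    apply h2 hz
    have e : Complex.I * (-Complex.I * z) = z := by
      rw [← mul_assoc, mul_neg, Complex.I_mul_I, neg_neg, one_mul]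
    rw [← e]
    exact hh
  · show -Complex.I * (Complex.I * p) = p
    rw [← mul_assoc, neg_mul, Complex.I_mul_I, neg_neg, one_mul]
  · rw [norm_mul, norm_neg, Complex.norm_I, one_mul]
    exact hqR

theorem log_rot {K : Set ℂ} {u : ℂ → ℂ} (h : LogOn u K) :
    LogOn (fun z => u (Complex.I * z)) {z | Complex.I * z ∈ K} := by
  obtain ⟨g, hg, he⟩ := h
  exact ⟨fun z => g (Complex.I * z), hg.comp (by fun_prop) (fun z hz => hz),
    fun z hz => he _ hz⟩

theorem log_rot' {K : Set ℂ} {u : ℂ → ℂ}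
    (h : LogOn (fun z => u (Complex.I * z)) {z | Complex.I * z ∈ K}) : LogOn u K := by
  obtain ⟨g, hg, he⟩ := h
  have e : ∀ z : ℂ, Complex.I * (-Complex.I * z) = z := fun z => by
    rw [← mul_assoc, mul_neg, Complex.I_mul_I, neg_neg, one_mul]
  refine ⟨fun z => g (-Complex.I * z), hg.comp (by fun_prop) (fun z hz => ?_), fun z hz => ?_⟩
  · show Complex.I * (-Complex.I * z) ∈ K
    rwa [e]
  · have := he (-Complex.I * z) (show Complex.I * (-Complex.I * z) ∈ K by rwa [e])
    rw [this]
    show u (Complex.I * (-Complex.I * z)) = u z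
    rw [e]

theorem compact_rot {K : Set ℂ} (hK : IsCompact K) : IsCompact {z | Complex.I * z ∈ K} := by
  have : {z | Complex.I * z ∈ K} = (fun z => -Complex.I * z) '' K := by
    ext z
    constructor
    · intro hz
      refine ⟨_, hz, ?_⟩
      show -Complex.I * (Complex.I * z) = z
      rw [← mul_assoc, neg_mul, Complex.I_mul_I, neg_neg, one_mul]
    · rintro ⟨w, hw, rfl⟩
      show Complex.I * (-Complex.I * w) ∈ K
      rw [← mul_assoc, mul_neg, Complex.I_mul_I, neg_neg, one_mul]
      exact hw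
  rw [this]
  exact hK.image (by fun_prop)

theorem ns_cutU {K : Set ℂ} (hNS : NS K) (t : ℝ) : NS (K ∩ {z | z.im ≤ t}) := by
  intro p hp R
  by_cases h : p.im ≤ t
  · obtain ⟨D, h1, h2, h3, h4⟩ := hNS p (fun hh => hp ⟨hh, h⟩) R
    exact ⟨D, h1, fun x hx hh => h2 hx hh.1, h3, h4⟩
  · refine ⟨{z | t < z.im}, (convex_halfSpace_im_gt t).isPreconnected, ?_, not_le.1 h,
      ((|t| + |R| + 1 : ℝ) : ℂ) * Complex.I, ?_, ?_⟩
    · intro z hz hh
      have h1 := hh.2
      simp only [mem_setOf_eq] at h1 hz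
      linarith
    · show t < (((|t| + |R| + 1 : ℝ) : ℂ) * Complex.I).im
      rw [Complex.mul_I_im, Complex.ofReal_re]
      have := le_abs_self t
      have := abs_nonneg R
      linarith
    · rw [norm_mul, Complex.norm_I, mul_one, Complex.norm_real, Real.norm_eq_abs,
        abs_of_pos (by positivity)]
      have := le_abs_self R
      have := abs_nonneg t
      linarith

theorem ns_cutD {K : Set ℂ} (hNS : NS K) (t : ℝ) : NS (K ∩ {z | t ≤ z.im}) := by
  intro p hp R
  by_cases h : t ≤ p.im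
  · obtain ⟨D, h1, h2, h3, h4⟩ := hNS p (fun hh => hp ⟨hh, h⟩) R
    exact ⟨D, h1, fun x hx hh => h2 hx hh.1, h3, h4⟩
  · refine ⟨{z | z.im < t}, (convex_halfSpace_im_lt t).isPreconnected, ?_, not_le.1 h,
      ((-(|t| + |R| + 1) : ℝ) : ℂ) * Complex.I, ?_, ?_⟩
    · intro z hz hh
      have h1 := hh.2
      simp only [mem_setOf_eq] at h1 hz
      linarith
    · show (((-(|t| + |R| + 1) : ℝ) : ℂ) * Complex.I).im < t
      rw [Complex.mul_I_im, Complex.ofReal_re]
      have := neg_abs_le t
      have := abs_nonneg R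
      linarith
    · rw [norm_mul, Complex.norm_I, mul_one, Complex.norm_real, Real.norm_eq_abs, abs_neg,
        abs_of_pos (by positivity)]
      have := le_abs_self R
      have := abs_nonneg t
      linarith

theorem glueH {K : Set ℂ} (hK : IsCompact K) (hNS : NS K) {u : ℂ → ℂ} (t : ℝ)
    (hA : LogOn u (K ∩ {z | z.im ≤ t})) (hB : LogOn u (K ∩ {z | t ≤ z.im})) : LogOn u K := by
  apply log_rot'
  apply glueV (compact_rot hK) (ns_rot hNS) t
  · apply (log_rot hA).mono'
    rintro z ⟨h1, h2⟩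
    refine ⟨h1, ?_⟩
    show (Complex.I * z).im ≤ t
    rw [Complex.I_mul_im]
    exact h2
  · apply (log_rot hB).mono'
    rintro z ⟨h1, h2⟩
    refine ⟨h1, ?_⟩
    show t ≤ (Complex.I * z).im
    rw [Complex.I_mul_im]
    exact h2

theorem strips {K : Set ℂ} {u : ℂ → ℂ} {δ : ℝ} (hδ : 0 < δ)
    (hsm : ∀ K' ⊆ K, (∀ z ∈ K', ∀ w ∈ K', |z.re - w.re| ≤ δ ∧ |z.im - w.im| ≤ δ) → LogOn u K') :
    ∀ m : ℕ, ∀ K' ⊆ K, IsCompact K' → NS K' → (∀ z ∈ K', ∀ w ∈ K', |z.im - w.im| ≤ δ) →
      (∃ a, ∀ z ∈ K', a ≤ z.re ∧ z.re ≤ a + m * δ) → LogOn u K' := by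
  intro m
  induction m with
  | zero =>
    intro K' hK' _ _ him ⟨a, ha⟩
    apply hsm K' hK'
    intro z hz w hw
    refine ⟨?_, him z hz w hw⟩
    have h1 := ha z hz
    have h2 := ha w hw
    simp at h1 h2
    rw [abs_le]
    constructor <;> linarith
  | succ m ih =>
    intro K' hK' hc hns him ⟨a, ha⟩
    push_cast at ha
    apply glueV hc hns (a + m * δ)
    · apply ih _ (inter_subset_left.trans hK')
        (hc.inter_right (isClosed_le Complex.continuous_re continuous_const)) (ns_cutR hns _)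
        (fun z hz w hw => him z hz.1 w hw.1)
      exact ⟨a, fun z hz => ⟨(ha z hz.1).1, hz.2⟩⟩
    · apply hsm _ (inter_subset_left.trans hK')
      intro z hz w hw
      refine ⟨?_, him z hz.1 w hw.1⟩
      have h1 := (ha z hz.1).2
      have h2 := (ha w hw.1).2
      have h3 : a + m * δ ≤ z.re := hz.2
      have h4 : a + m * δ ≤ w.re := hw.2
      rw [abs_le]
      constructor <;> linarith

theorem grid {K : Set ℂ} {u : ℂ → ℂ} {δ : ℝ} (hδ : 0 < δ)
    (hsm : ∀ K' ⊆ K, (∀ z ∈ K', ∀ w ∈ K', |z.re - w.re| ≤ δ ∧ |z.im - w.im| ≤ δ) → LogOn u K')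
    (m : ℕ) :
    ∀ n : ℕ, ∀ K' ⊆ K, IsCompact K' → NS K' →
      (∃ a, ∀ z ∈ K', a ≤ z.re ∧ z.re ≤ a + m * δ) →
      (∃ b, ∀ z ∈ K', b ≤ z.im ∧ z.im ≤ b + n * δ) → LogOn u K' := by
  intro n
  induction n with
  | zero =>
    intro K' hK' hc hns ha ⟨b, hb⟩
    apply strips hδ hsm m K' hK' hc hns _ ha
    intro z hz w hw
    have h1 := hb z hz
    have h2 := hb w hw
    simp at h1 h2
    rw [abs_le]
    constructor <;> linarith
  | succ n ih =>
    intro K' hK' hc hns ⟨a, ha⟩ ⟨b, hb⟩
    push_cast at hb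
    apply glueH hc hns (b + n * δ)
    · apply ih _ (inter_subset_left.trans hK')
        (hc.inter_right (isClosed_le Complex.continuous_im continuous_const)) (ns_cutU hns _)
      · exact ⟨a, fun z hz => ha z hz.1⟩
      · exact ⟨b, fun z hz => ⟨(hb z hz.1).1, hz.2⟩⟩
    · apply strips hδ hsm m _ (inter_subset_left.trans hK')
        (hc.inter_right (isClosed_le continuous_const Complex.continuous_im)) (ns_cutD hns _) _
        ⟨a, fun z hz => ha z hz.1⟩
      intro z hz w hw
      have h1 := (hb z hz.1).2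
      have h2 := (hb w hw.1).2
      have h3 : b + n * δ ≤ z.im := hz.2
      have h4 : b + n * δ ≤ w.im := hw.2
      rw [abs_le]
      constructor <;> linarith

/-- Eilenberg's theorem: a compact plane set all of whose complementary components are unbounded
has no essential map to the punctured plane. -/
theorem eilenberg {K : Set ℂ} (hK : IsCompact K) (hNS : NS K) {u : ℂ → ℂ}
    (hu : ContinuousOn u K) (h0 : ∀ z ∈ K, u z ≠ 0) : LogOn u K := by
  obtain ⟨δ, hδ, hsm⟩ := log_small hK hu h0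
  obtain ⟨M, hM⟩ := hK.isBounded.exists_norm_le
  obtain ⟨N, hN⟩ := exists_nat_gt ((M - (-M)) / (δ / 3))
  rw [div_lt_iff₀ (by linarith)] at hN
  have hsm' : ∀ K' ⊆ K, (∀ z ∈ K', ∀ w ∈ K', |z.re - w.re| ≤ δ / 3 ∧ |z.im - w.im| ≤ δ / 3) →
      LogOn u K' := by
    intro K' hK' h
    apply hsm K' hK'
    intro z hz w hw
    obtain ⟨h1, h2⟩ := h z hz w hw
    rw [Complex.dist_eq]
    have h3 := Complex.norm_le_abs_re_add_abs_im (z - w)
    rw [Complex.sub_re, Complex.sub_im] at h3
    linarith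
  apply grid (by linarith) hsm' N N K (subset_refl K) hK hNS
  · refine ⟨-M, fun z hz => ?_⟩
    have h1 := (Complex.abs_re_le_norm z).trans (hM z hz)
    rw [abs_le] at h1
    exact ⟨h1.1, by linarith [h1.2]⟩
  · refine ⟨-M, fun z hz => ?_⟩
    have h1 := (Complex.abs_im_le_norm z).trans (hM z hz)
    rw [abs_le] at h1
    exact ⟨h1.1, by linarith [h1.2]⟩

end Pool.Agent.Helper874.TT
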