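import Pool.Agent.Helper874.TT.Defs

namespace Pool.Agent.Helper874.TT

open Set Topology Metric

theorem preconn_iInter {X : Type*} [TopologicalSpace X] [CompactSpace X] [T2Space X]
    (t : ℕ → Set X) (ht : Antitone t) (hc : ∀ n, IsClosed (t n))
    (hp : ∀ n, IsPreconnected (t n)) : IsPreconnected (⋂ n, t n) := by
  rw [isPreconnected_closed_iff]
  intro a b ha hb hab hna hnb
  by_contra hcon
  have hT : IsClosed (⋂ n, t n) := isClosed_iInter hc
  have hdis : Disjoint ((⋂ n, t n) ∩ a) ((⋂ n, t n) ∩ b) := by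
    rw [Set.disjoint_left]
    rintro x ⟨hx1, hx2⟩ ⟨_, hx3⟩
    exact hcon ⟨x, hx1, hx2, hx3⟩
  obtain ⟨U, V, hU, hV, hAU, hBV, hUV⟩ := normal_separation (hT.inter ha) (hT.inter hb) hdis
  have hsub : ∀ x ∈ ⋂ n, t n, U ∪ V ∈ 𝓝 x := by
    intro x hx
    apply (hU.union hV).mem_nhds
    rcases hab hx with h | h
    · exact Or.inl (hAU ⟨hx, h⟩)
    · exact Or.inr (hBV ⟨hx, h⟩)
  obtain ⟨n, hn⟩ := exists_subset_nhds_of_isCompact' (V := t) ht.directed_ge
    (fun i => (hc i).isCompact) hc hsub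
  obtain ⟨x, hx, hxa⟩ := hna
  obtain ⟨y, hy, hyb⟩ := hnb
  obtain ⟨z, hz, hzU, hzV⟩ := hp n U V hU hV hn ⟨x, mem_iInter.1 hx n, hAU ⟨hx, hxa⟩⟩
    ⟨y, mem_iInter.1 hy n, hBV ⟨hy, hyb⟩⟩
  exact Set.disjoint_left.1 hUV hzU hzV

theorem preconn_iUnion {X : Type*} [TopologicalSpace X]
    (t : ℕ → Set X) (ht : Monotone t)
    (hp : ∀ n, IsPreconnected (t n)) : IsPreconnected (⋃ n, t n) := by
  rw [← sUnion_range]
  apply IsPreconnected.sUnion_directed
  · rintro _ ⟨m, rfl⟩ _ ⟨n, rfl⟩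
    exact ⟨t (max m n), ⟨_, rfl⟩, ht (le_max_left _ _), ht (le_max_right _ _)⟩
  · rintro _ ⟨m, rfl⟩
    exact hp m

variable {X E : Type*} [TopologicalSpace X] [CompactSpace X] [T2Space X]
  [NormedAddCommGroup E] [InnerProductSpace ℝ E] [FiniteDimensional ℝ E]

/-- exposed faces of good sets are good -/
theorem Good.face {f : X → E} (hf : Continuous f) {F : Set E} (hF : Good f F) (m : E) :
    Good f (F ∩ {x | ∀ y ∈ F, inner ℝ m y ≤ inner ℝ m x}) := by
  rcases F.eq_empty_or_nonempty with hFe | hFne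
  · have : F ∩ {x | ∀ y ∈ F, inner ℝ m y ≤ inner ℝ m x} = F := by
      rw [hFe]; simp
    rw [this]; exact hF
  have hcm : ∀ m : E, Continuous (fun x : E => inner ℝ m x) := fun m => by fun_prop
  obtain ⟨x0, hx0, hmax⟩ := hF.comp.exists_isMaxOn hFne (hcm m).continuousOn
  have hmax' : ∀ y ∈ F, inner ℝ m y ≤ inner ℝ m x0 := fun y hy => hmax hy
  set M : ℝ := inner ℝ m x0 with hM
  have hF' : F ∩ {x | ∀ y ∈ F, inner ℝ m y ≤ inner ℝ m x} = F ∩ {x | M ≤ inner ℝ m x} := by
    ext x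
    constructor
    · rintro ⟨h1, h2⟩
      exact ⟨h1, h2 x0 hx0⟩
    · rintro ⟨h1, h2⟩
      exact ⟨h1, fun y hy => (hmax' y hy).trans h2⟩
  have hclosed : ∀ (m' : E) (c : ℝ), IsClosed {x : E | c ≤ inner ℝ m' x} := fun m' c =>
    isClosed_le continuous_const (hcm m')
  let e : ℕ → ℝ := fun n => 1 / ((n : ℝ) + 1)
  have he0 : ∀ n, 0 < e n := fun n => by positivity
  have hean : Antitone e := by
    intro a b hab
    have : (a : ℝ) ≤ b := by exact_mod_cast hab
    exact one_div_le_one_div_of_le (by positivity) (by linarith)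
  have helim : Filter.Tendsto e Filter.atTop (𝓝 0) := tendsto_one_div_add_atTop_nhds_zero_nat
  -- the sequence
  let S : E → ℝ → ℕ → Set E := fun m' c n =>
    F ∩ {x | M + e n * c ≤ inner ℝ (m + e n • m') x}
  have hS : ∀ m' c n x, x ∈ S m' c n ↔ x ∈ F ∧
      M - inner ℝ m x ≤ e n * (inner ℝ m' x - c) := by
    intro m' c n x
    simp only [S, mem_inter_iff, mem_setOf_eq, inner_add_left, inner_smul_left]
    simp only [conj_trivial]
    constructor
    · rintro ⟨h1, h2⟩
      exact ⟨h1, by linarith⟩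
    · rintro ⟨h1, h2⟩
      exact ⟨h1, by linarith⟩
  have hSanti : ∀ m' c, Antitone (S m' c) := by
    intro m' c a b hab x hx
    rw [hS] at hx ⊢
    refine ⟨hx.1, ?_⟩
    have h1 : M - inner ℝ m x ≥ 0 := sub_nonneg.2 (hmax' x hx.1)
    have h2 : 0 ≤ inner ℝ m' x - c := by
      by_contra hneg
      push Not at hneg
      have := mul_neg_of_pos_of_neg (he0 b) hneg
      linarith [hx.2]
    have h3 := mul_le_mul_of_nonneg_right (hean hab) h2
    linarith [hx.2]
  have hSinter : ∀ m' c, (⋂ n, S m' c n) =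
      (F ∩ {x | ∀ y ∈ F, inner ℝ m y ≤ inner ℝ m x}) ∩ {x | c ≤ inner ℝ m' x} := by
    intro m' c
    rw [hF']
    ext x
    rw [mem_iInter]
    constructor
    · intro h
      have hxF : x ∈ F := ((hS _ _ _ _).1 (h 0)).1
      have h1 : M - inner ℝ m x ≥ 0 := sub_nonneg.2 (hmax' x hxF)
      have h2 : M - inner ℝ m x ≤ 0 := by
        have hl : Filter.Tendsto (fun n => e n * (inner ℝ m' x - c)) Filter.atTop (𝓝 (0 * (inner ℝ m' x - c))) :=
          helim.mul_const _
        rw [zero_mul] at hl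
        exact ge_of_tendsto' hl (fun n => ((hS _ _ _ _).1 (h n)).2)
      have h3 := ((hS _ _ _ _).1 (h 0)).2
      have h4 : e 0 = 1 := by simp [e]
      rw [h4] at h3
      refine ⟨⟨hxF, ?_⟩, ?_⟩
      · show M ≤ inner ℝ m x
        linarith
      · show c ≤ inner ℝ m' x
        linarith
    · rintro ⟨⟨h1, h2⟩, h3⟩ n
      rw [hS]
      refine ⟨h1, ?_⟩
      have h2' : M ≤ inner ℝ m x := h2
      have h3' : c ≤ inner ℝ m' x := h3
      have : 0 ≤ e n * (inner ℝ m' x - c) := mul_nonneg (he0 n).le (by linarith)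
      linarith
  have hpinter : ∀ m' c, f ⁻¹' ((F ∩ {x | ∀ y ∈ F, inner ℝ m y ≤ inner ℝ m x}) ∩
      {x | c ≤ inner ℝ m' x}) = ⋂ n, f ⁻¹' (S m' c n) := by
    intro m' c
    rw [← hSinter, preimage_iInter]
  have hSclosed : ∀ m' c n, IsClosed (S m' c n) := fun m' c n =>
    hF.comp.isClosed.inter (hclosed _ _)
  refine ⟨?_, ?_, ?_, ?_, ?_⟩
  · rw [hF']
    refine hF.conv.inter ?_
    exact convex_halfSpace_ge (innerSL ℝ m).isLinear M
  · rw [hF']
    exact hF.comp.inter_right (hclosed m M)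
  · intro m' c
    rw [hpinter]
    refine preconn_iInter _ ?_ ?_ ?_
    · intro a b hab
      exact preimage_mono (hSanti m' c hab)
    · intro n
      exact (hSclosed m' c n).preimage hf
    · intro n
      exact hF.pre _ _
  · intro m' c
    rw [hpinter, compl_iInter]
    refine preconn_iUnion _ ?_ ?_
    · intro a b hab
      exact compl_subset_compl.2 (preimage_mono (hSanti m' c hab))
    · intro n
      exact hF.cpre _ _
  · intro m' c hne
    rw [hpinter]
    have hne' := hne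
    rw [← hSinter] at hne'
    obtain ⟨x, hx⟩ := hne'
    apply IsCompact.nonempty_iInter_of_sequence_nonempty_isCompact_isClosed
    · intro n
      exact preimage_mono (hSanti m' c (Nat.le_succ n))
    · intro n
      exact hF.ne _ _ ⟨x, mem_iInter.1 hx n⟩
    · exact ((hSclosed m' c 0).preimage hf).isCompact
    · intro n
      exact (hSclosed m' c n).preimage hf


theorem core {f : X → E} (hf : Continuous f) (hloc : ∀ x, ∃ U ∈ 𝓝 x, InjOn f U)
    {F : Set E} (hF : Good f F) (hcov : F ⊆ range f) (m w : E) (c : ℝ)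
    (hwQ : w ∈ F ∩ {x | c ≤ inner ℝ m x})
    (x0 x1 : X) (hx01 : x0 ≠ x1) (hx0 : f x0 = w) (hx1 : f x1 = w)
    (huniq : ∀ x y, f x ∈ F ∩ {x | c ≤ inner ℝ m x} → f x ≠ w → f x = f y → x = y)
    (hpc : ∀ r > 0, IsPreconnected (((F ∩ {x | c ≤ inner ℝ m x}) \ {w}) ∩ ball w r)) : False := by
  set Q : Set E := F ∩ {x | c ≤ inner ℝ m x} with hQ
  -- the rest of the fibre
  obtain ⟨U, hU, hUinj⟩ := hloc x1
  have hP : IsClosed ((f ⁻¹' {w}) \ {x1}) := by
    have : (f ⁻¹' {w}) \ {x1} = (f ⁻¹' {w}) \ interior U := by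
      ext z
      constructor
      · rintro ⟨h1, h2⟩
        refine ⟨h1, fun h3 => h2 ?_⟩
        have h1' : f z = w := h1
        exact hUinj (interior_subset h3) (mem_of_mem_nhds hU) (h1'.trans hx1.symm)
      · rintro ⟨h1, h2⟩
        refine ⟨h1, fun h3 => h2 ?_⟩
        have h3' : z = x1 := h3
        rw [h3']
        exact mem_interior_iff_mem_nhds.2 hU
    rw [this]
    exact (isClosed_singleton.preimage hf).sdiff isOpen_interior
  set P : Set X := (f ⁻¹' {w}) \ {x1} with hPdef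
  have hx0P : x0 ∈ P := ⟨hx0, hx01⟩
  have hdis : Disjoint ({x1} : Set X) P := by
    rw [Set.disjoint_left]
    rintro z hz ⟨_, h⟩
    exact h hz
  obtain ⟨W1, W', hW1, hW', h1W, hPW, hWW⟩ := normal_separation isClosed_singleton hP hdis
  have hx1W : x1 ∈ W1 := h1W rfl
  -- small ball
  obtain ⟨r, hr, hball⟩ : ∃ r > 0, f ⁻¹' (ball w r) ⊆ W1 ∪ W' := by
    have hK : IsCompact (f '' (W1 ∪ W')ᶜ) := ((hW1.union hW').isClosed_compl.isCompact).image hf
    have hwK : w ∉ f '' (W1 ∪ W')ᶜ := by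
      rintro ⟨z, hz, hzw⟩
      apply hz
      by_cases h : z = x1
      · exact Or.inl (h ▸ hx1W)
      · exact Or.inr (hPW ⟨hzw, h⟩)
    have : (f '' (W1 ∪ W')ᶜ)ᶜ ∈ 𝓝 w := hK.isClosed.isOpen_compl.mem_nhds hwK
    obtain ⟨r, hr, hrs⟩ := Metric.mem_nhds_iff.1 this
    refine ⟨r, hr, fun z hz => ?_⟩
    by_contra hcon
    exact hrs hz ⟨z, hcon, rfl⟩
  have hN : IsPreconnected (f ⁻¹' ((Q \ {w}) ∩ ball w r)) := by
    have hp := hpc r hr
    rw [isPreconnected_closed_iff] at hp ⊢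
    intro t t' ht ht' htt hnt hnt'
    have h1 : ((Q \ {w}) ∩ ball w r) ⊆ f '' t ∪ f '' t' := by
      intro z hz
      obtain ⟨y, rfl⟩ := hcov hz.1.1.1
      rcases htt hz with h | h
      · exact Or.inl ⟨y, h, rfl⟩
      · exact Or.inr ⟨y, h, rfl⟩
    have h2 : (((Q \ {w}) ∩ ball w r) ∩ f '' t).Nonempty := by
      obtain ⟨z, hz, hzt⟩ := hnt
      exact ⟨f z, hz, z, hzt, rfl⟩
    have h3 : (((Q \ {w}) ∩ ball w r) ∩ f '' t').Nonempty := by
      obtain ⟨z, hz, hzt⟩ := hnt'
      exact ⟨f z, hz, z, hzt, rfl⟩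
    obtain ⟨z, hz, ⟨a, hat, haz⟩, ⟨b, hbt, hbz⟩⟩ := hp _ _ (ht.isCompact.image hf).isClosed
      (ht'.isCompact.image hf).isClosed h1 h2 h3
    have hab : a = b := by
      apply huniq a b
      · rw [haz]; exact hz.1.1
      · rw [haz]; exact hz.1.2
      · rw [haz, hbz]
    refine ⟨a, ?_, hat, hab ▸ hbt⟩
    show f a ∈ (Q \ {w}) ∩ ball w r
    rw [haz]; exact hz
  have hNsub : f ⁻¹' ((Q \ {w}) ∩ ball w r) ⊆ W1 ∪ W' := fun z hz => hball hz.2
  have hQpre : IsPreconnected (f ⁻¹' Q) := hF.pre m c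
  have hopen : IsOpen (f ⁻¹' ball w r) := isOpen_ball.preimage hf
  have hwb : w ∈ ball w r := mem_ball_self hr
  rcases IsPreconnected.subset_or_subset hW1 hW' hWW hNsub hN with h | h
  · -- N ⊆ W1
    obtain ⟨z, hzQ, ⟨hzW, hzb⟩, hzP⟩ := hQpre (W' ∩ f ⁻¹' ball w r) Pᶜ (hW'.inter hopen)
      hP.isOpen_compl (by
        intro z _
        by_cases hz : z ∈ P
        · left
          refine ⟨hPW hz, ?_⟩
          have : f z = w := hz.1
          show f z ∈ ball w r
          rw [this]; exact hwb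
        · exact Or.inr hz)
      ⟨x0, by show f x0 ∈ Q; rw [hx0]; exact hwQ, hPW hx0P, by show f x0 ∈ ball w r; rw [hx0]; exact hwb⟩
      ⟨x1, by show f x1 ∈ Q; rw [hx1]; exact hwQ, fun h => h.2 rfl⟩
    by_cases hzw : f z = w
    · have : z = x1 := by
        by_contra hne
        exact hzP ⟨hzw, hne⟩
      rw [this] at hzW
      exact Set.disjoint_left.1 hWW hx1W hzW
    · exact Set.disjoint_left.1 hWW (h ⟨⟨hzQ, hzw⟩, hzb⟩) hzW
  · -- N ⊆ W'
    obtain ⟨z, hzQ, ⟨hzW, hzb⟩, hzne⟩ := hQpre (W1 ∩ f ⁻¹' ball w r) {x1}ᶜ (hW1.inter hopen)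
      isOpen_compl_singleton (by
        intro z _
        by_cases hz : z = x1
        · left
          rw [hz]
          refine ⟨hx1W, ?_⟩
          show f x1 ∈ ball w r
          rw [hx1]; exact hwb
        · exact Or.inr hz)
      ⟨x1, by show f x1 ∈ Q; rw [hx1]; exact hwQ, hx1W, by show f x1 ∈ ball w r; rw [hx1]; exact hwb⟩
      ⟨x0, by show f x0 ∈ Q; rw [hx0]; exact hwQ, hx01⟩
    by_cases hzw : f z = w
    · exact Set.disjoint_left.1 hWW hzW (hPW ⟨hzw, hzne⟩)
    · exact Set.disjoint_left.1 hWW hzW (h ⟨⟨hzQ, hzw⟩, hzb⟩)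

theorem span_face_lt {F : Set E} (m a b : E) (ha : a ∈ F) (hb : b ∈ F)
    (hab : inner ℝ m a < inner ℝ m b) :
    Module.finrank ℝ (vectorSpan ℝ (F ∩ {x | ∀ y ∈ F, inner ℝ m y ≤ inner ℝ m x})) <
      Module.finrank ℝ (vectorSpan ℝ F) := by
  apply Submodule.finrank_lt_finrank_of_lt
  refine lt_of_le_of_ne (vectorSpan_mono ℝ inter_subset_left) ?_
  intro heq
  have hmem : b - a ∈ vectorSpan ℝ F := vsub_mem_vectorSpan ℝ hb ha
  rw [← heq] at hmem
  have hle : vectorSpan ℝ (F ∩ {x | ∀ y ∈ F, inner ℝ m y ≤ inner ℝ m x}) ≤ (ℝ ∙ m)ᗮ := by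
    rw [vectorSpan_def, Submodule.span_le]
    rintro _ ⟨x, hx, y, hy, rfl⟩
    rw [SetLike.mem_coe, Submodule.mem_orthogonal_singleton_iff_inner_right]
    show inner ℝ m (x - y) = 0
    rw [inner_sub_right]
    have h1 := hx.2 y hy.1
    have h2 := hy.2 x hx.1
    linarith
  have := hle hmem
  rw [Submodule.mem_orthogonal_singleton_iff_inner_right, inner_sub_right] at this
  linarith

/-- if `F` is good and covered by `f`, then `f` is injective over `F`. -/
theorem Good.inj {f : X → E} (hf : Continuous f) (hloc : ∀ x, ∃ U ∈ 𝓝 x, InjOn f U)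
    {F : Set E} (hF : Good f F) (hcov : F ⊆ range f) :
    ∀ x y, f x ∈ F → f x = f y → x = y := by
  induction hn : Module.finrank ℝ (vectorSpan ℝ F) using Nat.strong_induction_on generalizing F with
  | _ n ih =>
  subst hn
  by_contra hcon
  push Not at hcon
  obtain ⟨p, q, hpF, hpq, hpqne⟩ := hcon
  -- proper faces have unique preimages
  have hface : ∀ (m a b : E), a ∈ F → b ∈ F → (inner ℝ m a : ℝ) < inner ℝ m b →
      ∀ x y, f x ∈ F ∩ {x | ∀ y ∈ F, inner ℝ m y ≤ inner ℝ m x} → f x = f y → x = y := by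
    intro m a b ha hb hab
    exact ih _ (span_face_lt m a b ha hb hab) (hF.face hf m) (inter_subset_left.trans hcov) rfl
  rcases F.subsingleton_or_nontrivial with hsub | hnt
  · -- single point
    have hQ : F ∩ {x | (0 : ℝ) ≤ inner ℝ (0 : E) x} = F := by
      ext x; simp
    refine core hf hloc hF hcov 0 (f p) 0 ?_ p q hpqne rfl hpq.symm ?_ ?_
    · rw [hQ]; exact hpF
    · intro x y hx hne _
      rw [hQ] at hx
      exact absurd (hsub hx hpF) hne
    · intro r _
      rw [hQ]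
      have : (F \ {f p}) ∩ ball (f p) r = ∅ := by
        ext x
        simp only [mem_inter_iff, mem_diff, mem_singleton_iff, mem_empty_iff_false, iff_false]
        rintro ⟨⟨h1, h2⟩, _⟩
        exact h2 (hsub h1 hpF)
      rw [this]
      exact isPreconnected_empty
  · obtain ⟨a, ha, b, hb, hab⟩ := hnt
    have hm0 : (inner ℝ (b - a) a : ℝ) < inner ℝ (b - a) b := by
      have : (0 : ℝ) < inner ℝ (b - a) (b - a) := by
        rw [real_inner_self_eq_norm_sq]
        have := norm_pos_iff.2 (sub_ne_zero.2 (Ne.symm hab))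
        positivity
      rw [inner_sub_right] at this
      linarith
    have hcm : ∀ m : E, Continuous (fun x : E => (inner ℝ m x : ℝ)) := fun m => by fun_prop
    -- the point o
    obtain ⟨o, hoF, homax⟩ := hF.comp.exists_isMaxOn ⟨a, ha⟩ (hcm (b - a)).continuousOn
    have hoface : o ∈ F ∩ {x | ∀ y ∈ F, inner ℝ (b - a) y ≤ inner ℝ (b - a) x} :=
      ⟨hoF, fun y hy => homax hy⟩
    have ho : ∀ x y, f x = o → f x = f y → x = y := by
      intro x y hx hxy
      exact hface (b - a) a b ha hb hm0 x y (by rw [hx]; exact hoface) hxy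
    -- the compact set G
    let K : Set (X × X) := {z | f z.1 = f z.2 ∧ z.1 ≠ z.2 ∧ f z.1 ∈ F}
    have hK : IsClosed K := by
      have hK' : K = ({z | f z.1 = f z.2} ∩ {z | f z.1 ∈ F}) \
          ⋃ x : X, (interior (hloc x).choose) ×ˢ (interior (hloc x).choose) := by
        ext ⟨u, v⟩
        constructor
        · rintro ⟨h1, h2, h3⟩
          refine ⟨⟨h1, h3⟩, fun h4 => h2 ?_⟩
          obtain ⟨x, hx⟩ := mem_iUnion.1 h4
          exact (hloc x).choose_spec.2 (interior_subset hx.1) (interior_subset hx.2) h1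
        · rintro ⟨⟨h1, h3⟩, h4⟩
          refine ⟨h1, fun h2 => h4 ?_, h3⟩
          have h2' : u = v := h2
          subst h2'
          refine mem_iUnion.2 ⟨u, ?_⟩
          have := mem_interior_iff_mem_nhds.2 (hloc u).choose_spec.1
          exact ⟨this, this⟩
      rw [hK']
      refine IsClosed.sdiff (IsClosed.inter ?_ ?_) ?_
      · exact isClosed_eq (hf.comp continuous_fst) (hf.comp continuous_snd)
      · exact hF.comp.isClosed.preimage (hf.comp continuous_fst)
      · exact isOpen_iUnion fun x => isOpen_interior.prod isOpen_interior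
    obtain ⟨⟨x0, x1⟩, ⟨hx01, hx01ne, hx0F⟩, hzmax⟩ := hK.isCompact.exists_isMaxOn
      (f := fun z : X × X => dist (f z.1) o) ⟨(p, q), hpq, hpqne, hpF⟩
      ((hf.comp continuous_fst).dist continuous_const).continuousOn
    simp only at hx01 hx01ne hx0F
    have hmaxd : ∀ x y, f x = f y → x ≠ y → f x ∈ F → dist (f x) o ≤ dist (f x0) o :=
      fun x y h1 h2 h3 => hzmax (show (x, y) ∈ K from ⟨h1, h2, h3⟩)
    set w : E := f x0 with hw
    have hwo : w ≠ o := by
      intro h
      exact hx01ne (ho x0 x1 h hx01)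
    have hmpos : (0 : ℝ) < inner ℝ (w - o) (w - o) := by
      rw [real_inner_self_eq_norm_sq]
      have := norm_pos_iff.2 (sub_ne_zero.2 hwo)
      positivity
    have hmo : (inner ℝ (w - o) o : ℝ) < inner ℝ (w - o) w := by
      have := hmpos
      rw [inner_sub_right] at this
      linarith
    -- w is not maximal
    obtain ⟨e, heF, he⟩ : ∃ e ∈ F, (inner ℝ (w - o) w : ℝ) < inner ℝ (w - o) e := by
      by_contra hno
      push Not at hno
      exact hx01ne (hface (w - o) o w hoF hx0F hmo x0 x1 ⟨hx0F, fun y hy => hno y hy⟩ hx01)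
    refine core hf hloc hF hcov (w - o) w (inner ℝ (w - o) w) ⟨hx0F, le_refl (inner ℝ (w - o) w : ℝ)⟩ x0 x1 hx01ne rfl
      hx01.symm ?_ ?_
    · intro x y hx hne hxy
      by_contra hxyne
      apply hne
      have h1 := hmaxd x y hxy hxyne hx.1
      have h2 : (inner ℝ (w - o) w : ℝ) ≤ inner ℝ (w - o) (f x) := hx.2
      have h3 : ‖f x - o‖ ^ 2 = ‖f x - w‖ ^ 2 + 2 * inner ℝ (f x - w) (w - o) + ‖w - o‖ ^ 2 := by
        rw [← norm_add_sq_real]; congr 2; abel
      have h4 : (0 : ℝ) ≤ inner ℝ (f x - w) (w - o) := by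
        rw [real_inner_comm, inner_sub_right]; linarith
      rw [dist_eq_norm, dist_eq_norm] at h1
      have h5 : ‖f x - o‖ ^ 2 ≤ ‖w - o‖ ^ 2 := by
        have := norm_nonneg (f x - o)
        gcongr
      have h6 : ‖f x - w‖ ^ 2 ≤ 0 := by nlinarith
      have h7 : ‖f x - w‖ = 0 := by
        have := norm_nonneg (f x - w)
        nlinarith
      exact sub_eq_zero.1 (norm_eq_zero.1 h7)
    · intro r hr
      have hE0 : IsPreconnected ((F ∩ {x | (inner ℝ (w - o) w : ℝ) < inner ℝ (w - o) x}) ∩ ball w r) := by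
        apply Convex.isPreconnected
        refine (hF.conv.inter ?_).inter (convex_ball _ _)
        exact convex_halfSpace_gt (innerSL ℝ (w - o)).isLinear _
      refine hE0.subset_closure ?_ ?_
      · rintro x ⟨⟨h1, h2⟩, h3⟩
        have h2' : (inner ℝ (w - o) w : ℝ) < inner ℝ (w - o) x := h2
        refine ⟨⟨⟨h1, h2'.le⟩, ?_⟩, h3⟩
        rintro (h4 : x = w)
        rw [h4] at h2'
        exact lt_irrefl _ h2'
      · rintro x ⟨⟨⟨h1, h2⟩, _⟩, h3⟩
        have h2' : (inner ℝ (w - o) w : ℝ) ≤ inner ℝ (w - o) x := h2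
        have hlim : Filter.Tendsto (fun t : ℝ => AffineMap.lineMap x e t) (𝓝[>] 0) (𝓝 x) := by
          have : Filter.Tendsto (fun t : ℝ => AffineMap.lineMap x e t) (𝓝 0) (𝓝 (AffineMap.lineMap x e (0 : ℝ))) :=
            (AffineMap.lineMap_continuous).tendsto 0
          rw [AffineMap.lineMap_apply_zero] at this
          exact this.mono_left nhdsWithin_le_nhds
        refine mem_closure_of_tendsto hlim ?_
        have hb' : ∀ᶠ t : ℝ in 𝓝[>] 0, AffineMap.lineMap x e t ∈ ball w r :=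
          hlim.eventually (isOpen_ball.mem_nhds h3)
        have h01 : ∀ᶠ t : ℝ in 𝓝[>] 0, t ∈ Ioo (0 : ℝ) 1 := Ioo_mem_nhdsGT one_pos
        filter_upwards [hb', h01] with t ht ht01
        refine ⟨⟨?_, ?_⟩, ht⟩
        · exact hF.conv.lineMap_mem h1 heF ⟨ht01.1.le, ht01.2.le⟩
        · show (inner ℝ (w - o) w : ℝ) < inner ℝ (w - o) (AffineMap.lineMap x e t)
          rw [AffineMap.lineMap_apply_module, inner_add_right, inner_smul_right, inner_smul_right]
          nlinarith [ht01.1, ht01.2]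

end Pool.Agent.Helper874.TT
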