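import Pool.Agent.Helper874.TT.Lifts

namespace Pool.Agent.Helper874.TT

open Set Topology Metric

theorem comp_unbdd {W : Set T} (hW : IsOpen W) (hpre : IsPreconnected W) (hess : Ess W) {p : ℂ}
    (hp : pr p ∈ W) (R : ℝ) : ∃ q ∈ comp W p, R < ‖q‖ := by
  obtain ⟨a, b, hab, z, hz⟩ := hess
  obtain ⟨w, hw, hwz⟩ := comp_surj hW hpre hp (pr z) hz.source_mem
  obtain ⟨c, d, rfl⟩ := pr_eq_iff.1 hwz.symm
  have h1 : JoinedIn (pr ⁻¹' W) (z + lat c d) (z + lat c d + lat a b) := by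
    have := joinedIn_add hz c d
    rwa [add_right_comm] at this
  set w := z + lat c d with hwdef
  have h2 : ∀ n : ℕ, JoinedIn (pr ⁻¹' W) w (w + (n : ℂ) * lat a b) := by
    intro n
    induction n with
    | zero =>
      rw [Nat.cast_zero, zero_mul, add_zero]
      exact JoinedIn.refl h1.source_mem
    | succ n ih =>
      refine ih.trans ?_
      have := joinedIn_add h1 (n * a) (n * b)
      rw [← lat_nsmul] at this
      have e : w + lat a b + (n : ℂ) * lat a b = w + ((n + 1 : ℕ) : ℂ) * lat a b := by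
        push_cast; ring
      rwa [e] at this
  have hne : lat a b ≠ 0 := by
    intro h
    have h3 := congrArg Complex.re h
    have h4 := congrArg Complex.im h
    simp at h3 h4
    rcases hab with h | h
    · exact h h3
    · exact h h4
  have hpos : 0 < ‖lat a b‖ := norm_pos_iff.2 hne
  obtain ⟨n, hn⟩ := exists_nat_gt ((R + ‖w‖) / ‖lat a b‖)
  refine ⟨w + (n : ℂ) * lat a b, JoinedIn.trans hw (h2 n), ?_⟩
  rw [div_lt_iff₀ hpos] at hn
  have h5 : ‖(n : ℂ) * lat a b‖ = n * ‖lat a b‖ := by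
    rw [norm_mul, Complex.norm_natCast]
  have h6 : ‖(n : ℂ) * lat a b‖ ≤ ‖w + (n : ℂ) * lat a b‖ + ‖w‖ := by
    have := norm_sub_le (w + (n : ℂ) * lat a b) w
    rwa [add_sub_cancel_left] at this
  linarith

/-- the lift of a compact connected inessential set with connected complement does not separate the
plane -/
theorem ns_section
    (no_cover : ∀ {A B : Set T}, A ∪ B = univ → ∀ {l₁ l₂ : C(T, ℝ)}, Lift 1 0 A l₁ →
      Lift 0 1 B l₂ → False)
    {U Y : Set T} (hU : IsOpen U) (hUp : IsPreconnected U) (hUin : ¬ Ess U) (hY : IsCompact Y)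
    (hYp : IsPreconnected Y) (hYc : IsPreconnected Yᶜ) (hYU : Y ⊆ U) {z₀ : ℂ} (h0 : pr z₀ ∈ U)
    {s : T → ℂ} (hs : ContinuousOn s U) (hs1 : ∀ x ∈ U, s x ∈ comp U z₀ ∧ pr (s x) = x)
    (hs2 : ∀ z ∈ comp U z₀, s (pr z) = z) : NS (s '' Y) := by
  have hYcl : IsClosed Y := hY.isClosed
  have hW : IsOpen Yᶜ := hYcl.isOpen_compl
  -- Step 1
  have kill : ∀ {V : Set T}, ¬ Ess V → ∀ a b : ℤ, Lam V a b → a = 0 ∧ b = 0 := by
    intro V hV a b hab
    by_contra hcon
    apply hV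
    refine ⟨a, b, ?_, hab⟩
    by_contra h
    push Not at h
    exact hcon h
  have hess : Ess Yᶜ := by
    by_contra hWin
    obtain ⟨V, hVo, hYV, hVU⟩ := normal_exists_closure_subset hYcl hU hYU
    obtain ⟨l₁, hl₁⟩ := exists_lift hW hYc (m := 1) (n := 0) (by
      intro a b h
      obtain ⟨rfl, rfl⟩ := kill hWin a b h
      simp) (P := Vᶜ) hVo.isClosed_compl (compl_subset_compl.2 hYV)
    obtain ⟨l₂, hl₂⟩ := exists_lift hU hUp (m := 0) (n := 1) (by
      intro a b h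
      obtain ⟨rfl, rfl⟩ := kill hUin a b h
      simp) (P := closure V) isClosed_closure hVU
    refine no_cover ?_ hl₁ hl₂
    rw [eq_univ_iff_forall]
    intro x
    by_cases hx : x ∈ V
    · exact Or.inr (subset_closure hx)
    · exact Or.inl hx
  -- Step 2
  have hconn : ∀ q : ℂ, pr q ∈ Yᶜ → IsPreconnected (comp Yᶜ q) := fun q hq =>
    (isPathConnected_pathComponentIn (F := pr ⁻¹' Yᶜ) (x := q) hq).isConnected.isPreconnected
  have hdisj : ∀ q : ℂ, comp Yᶜ q ⊆ (s '' Y)ᶜ := by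
    rintro q z hz ⟨y, hy, rfl⟩
    have := comp_sub hz
    rw [mem_preimage, (hs1 y (hYU hy)).2] at this
    exact this hy
  have hSc : IsCompact (s '' Y) := hY.image_of_continuousOn (hs.mono hYU)
  have hSp : IsPreconnected (s '' Y) := hYp.image s (hs.mono hYU)
  intro p hp R
  by_cases hpW : pr p ∈ Yᶜ
  · exact ⟨comp Yᶜ p, hconn p hpW, hdisj p, JoinedIn.refl hpW, comp_unbdd hW hYc hess hpW R⟩
  -- Step 3
  have hpY : pr p ∈ Y := by simpa using hpW
  obtain ⟨a, b, hab⟩ := pr_eq_iff.1 (hs1 _ (hYU hpY)).2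
  have hne : lat a b ≠ 0 := by
    intro h
    apply hp
    rw [h, add_zero] at hab
    exact ⟨pr p, hpY, hab.symm⟩
  set τ : ℂ → ℂ := fun z => z + lat a b with hτ
  have hτc : Continuous τ := by fun_prop
  set S₁ : Set ℂ := τ '' (s '' Y) with hS₁
  have hS₁c : IsCompact S₁ := hSc.image hτc
  have hS₁p : IsPreconnected S₁ := hSp.image τ hτc.continuousOn
  have hpS₁ : p ∈ S₁ := ⟨s (pr p), ⟨pr p, hpY, rfl⟩, hab.symm⟩
  have hS₁S : S₁ ⊆ (s '' Y)ᶜ := by
    rintro _ ⟨_, ⟨y, hy, rfl⟩, rfl⟩ ⟨y', hy', heq⟩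
    have h1 := congrArg pr heq
    rw [hτ] at h1
    simp only [pr_add_lat] at h1
    rw [(hs1 y (hYU hy)).2, (hs1 y' (hYU hy')).2] at h1
    subst h1
    apply hne
    simp only [hτ] at heq
    exact left_eq_add.1 heq
  have hfr : (frontier S₁).Nonempty := by
    rw [nonempty_frontier_iff]
    refine ⟨⟨p, hpS₁⟩, ?_⟩
    intro h
    rw [h] at hS₁c
    exact noncompact_univ ℂ hS₁c
  obtain ⟨c, hc⟩ := hfr
  have hcS₁ : c ∈ S₁ := hS₁c.isClosed.frontier_subset hc
  have hC'o : IsOpen (τ '' comp U z₀) := (Homeomorph.addRight (lat a b)).isOpenMap _ (isOpen_comp hU z₀)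
  have hcC' : c ∈ τ '' comp U z₀ := by
    obtain ⟨_, ⟨y, hy, rfl⟩, rfl⟩ := hcS₁
    exact ⟨s y, (hs1 y (hYU hy)).1, rfl⟩
  have hopen : IsOpen (τ '' comp U z₀ ∩ (s '' Y)ᶜ) := hC'o.inter hSc.isClosed.isOpen_compl
  obtain ⟨r, hr, hb⟩ := Metric.isOpen_iff.1 hopen c ⟨hcC', hS₁S hcS₁⟩
  have hcc : c ∈ closure S₁ᶜ := by
    rw [frontier_eq_closure_inter_closure] at hc
    exact hc.2
  obtain ⟨x, hxS₁, hxb⟩ := Metric.mem_closure_iff.1 hcc r hr
  have hxb' : x ∈ ball c r := by rw [mem_ball, dist_comm]; exact hxb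
  have hxW : pr x ∈ Yᶜ := by
    intro hxY
    apply hxS₁
    obtain ⟨x', hx', hxx'⟩ := (hb hxb').1
    have h1 : pr x' = pr x := by
      rw [← hxx', hτ]
      simp only [pr_add_lat]
    refine ⟨x', ⟨pr x', ?_, hs2 x' hx'⟩, hxx'⟩
    rw [h1]; exact hxY
  refine ⟨(S₁ ∪ ball c r) ∪ comp Yᶜ x, ?_, ?_, Or.inl (Or.inl hpS₁), ?_⟩
  · refine IsPreconnected.union x (Or.inr hxb') (JoinedIn.refl hxW) ?_ (hconn x hxW)
    exact IsPreconnected.union c hcS₁ (mem_ball_self hr) hS₁p (convex_ball c r).isPreconnected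
  · refine union_subset (union_subset hS₁S fun z hz => (hb hz).2) (hdisj x)
  · obtain ⟨q, hq, hq'⟩ := comp_unbdd hW hYc hess hxW R
    exact ⟨q, Or.inr hq, hq'⟩

end Pool.Agent.Helper874.TT
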