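import Pool.Agent.Helper874.TT.Defs

namespace Pool.Agent.Helper874.TT.OddA

open Set Topology Metric




theorem oddA_pr_cont : Continuous pr := by
  have h : Continuous (fun x : ℝ => (x : UnitAddCircle)) := AddCircle.continuous_mk' 1
  exact (h.comp Complex.continuous_re).prodMk (h.comp Complex.continuous_im)

theorem oddA_pr_open : IsOpenMap pr := by
  have h : IsOpenMap (fun x : ℝ => (x : UnitAddCircle)) := QuotientAddGroup.isOpenMap_coe
  have h2 := h.prodMap h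
  have h3 : pr = (Prod.map (fun x : ℝ => (x : UnitAddCircle)) (fun x : ℝ => (x : UnitAddCircle))) ∘
      (Complex.equivRealProdCLM : ℂ → ℝ × ℝ) := by
    funext z; rfl
  rw [h3]
  exact h2.comp Complex.equivRealProdCLM.toHomeomorph.isOpenMap

theorem oddA_pr_surj (p : T) : ∃ P : ℂ, pr P = p := by
  obtain ⟨a, b⟩ := p
  obtain ⟨x, rfl⟩ := QuotientAddGroup.mk_surjective a
  obtain ⟨y, rfl⟩ := QuotientAddGroup.mk_surjective b
  exact ⟨⟨x, y⟩, rfl⟩

theorem oddA_coe_inj {x y : ℝ} (h : (x : UnitAddCircle) = (y : UnitAddCircle)) (hxy : |x - y| < 1) :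
    x = y := by
  have h1 : ((x - y : ℝ) : UnitAddCircle) = 0 := by
    rw [AddCircle.coe_sub, h, sub_self]
  rw [AddCircle.coe_eq_zero_iff] at h1
  obtain ⟨n, hn⟩ := h1
  simp only [zsmul_eq_mul, mul_one] at hn
  rw [← hn] at hxy
  have h2 : |n| < 1 := by exact_mod_cast hxy
  have h3 : n = 0 := Int.abs_lt_one_iff.mp h2
  rw [h3] at hn
  simp at hn
  linarith

theorem oddA_pr_inj {z w P : ℂ} {r : ℝ} (hr : r < 1/2) (hz : z ∈ closedBall P r)
    (hw : w ∈ closedBall P r) (h : pr z = pr w) : z = w := by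
  have hd : ‖z - w‖ < 1 := by
    rw [mem_closedBall] at hz hw
    rw [← dist_eq_norm]
    have := dist_triangle_right z w P
    linarith
  have h1 := congrArg Prod.fst h
  have h2 := congrArg Prod.snd h
  simp only [pr] at h1 h2
  apply Complex.ext
  · refine oddA_coe_inj h1 ?_
    rw [← Complex.sub_re]
    exact lt_of_le_of_lt (Complex.abs_re_le_norm _) hd
  · refine oddA_coe_inj h2 ?_
    rw [← Complex.sub_im]
    exact lt_of_le_of_lt (Complex.abs_im_le_norm _) hd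

/-- Tietze for a `ContinuousOn` function into `ℂ` -/
theorem oddA_tietze {X : Type*} [TopologicalSpace X] [NormalSpace X] {s : Set X} (hs : IsClosed s)
    {f : X → ℂ} (hf : ContinuousOn f s) : ∃ g : X → ℂ, Continuous g ∧ ∀ x ∈ s, g x = f x := by
  obtain ⟨g, hg⟩ := ContinuousMap.exists_restrict_eq hs (⟨fun x : s => f x, continuousOn_iff_continuous_domRestrict.mp hf⟩ : C(s, ℂ))
  refine ⟨g, g.continuous, fun x hx => ?_⟩
  exact congrArg (fun F : C(s, ℂ) => F ⟨x, hx⟩) hg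

/-- odd-good sets -/
def OddGood (σ : T → T) (M : Set T) : Prop :=
  ∃ g : T → ℂ, ContinuousOn g M ∧ ∀ x ∈ M, g x ≠ 0 ∧ g (σ x) = - g x

theorem oddA_chain (K : Set T) (hK : IsClosed K) (σ : T → T)
    (hσ : ContinuousOn σ K) (hm : MapsTo σ K K) (hinv : ∀ x ∈ K, σ (σ x) = x)
    (c : Set (Set T)) (hcK : ∀ s ∈ c, IsClosed s ∧ s ⊆ K ∧ MapsTo σ s s) (hch : IsChain (· ⊆ ·) c)
    (hne : c.Nonempty) (hg : OddGood σ (⋂₀ c)) : ∃ s ∈ c, OddGood σ s := by
  obtain ⟨g, hgc, hgo⟩ := hg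
  have hIc : IsClosed (⋂₀ c) := isClosed_sInter fun s hs => (hcK s hs).1
  have hIK : ⋂₀ c ⊆ K := by
    obtain ⟨s, hs⟩ := hne
    exact (sInter_subset_of_mem hs).trans (hcK s hs).2.1
  obtain ⟨G, hG, hGg⟩ := oddA_tietze hIc hgc
  set G' : T → ℂ := fun x => (G x - G (σ x)) / 2 with hG'
  have hG'c : ContinuousOn G' K := by
    have h1 : ContinuousOn (fun x => G (σ x)) K := hG.comp_continuousOn hσ
    exact (hG.continuousOn.sub h1).div_const 2
  have hG'o : ∀ x ∈ K, G' (σ x) = - G' x := by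
    intro x hx
    simp only [hG']
    rw [hinv x hx]
    ring
  have hIm : ∀ x ∈ ⋂₀ c, σ x ∈ ⋂₀ c := by
    intro x hx s hs
    exact (hcK s hs).2.2 (hx s hs)
  have hG'I : ∀ x ∈ ⋂₀ c, G' x = g x := by
    intro x hx
    simp only [hG']
    rw [hGg x hx, hGg (σ x) (hIm x hx), (hgo x hx).2]
    ring
  set Z : Set T := K ∩ G' ⁻¹' {0} with hZ
  have hZc : IsClosed Z := hG'c.preimage_isClosed_of_isClosed hK isClosed_singleton
  have hZI : Z ∩ ⋂ i : c, (i : Set T) = ∅ := by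
    rw [← sInter_eq_iInter]
    ext x
    simp only [mem_inter_iff, mem_empty_iff_false, iff_false, not_and]
    intro hx hxI
    have h1 : G' x = 0 := hx.2
    rw [hG'I x hxI] at h1
    exact (hgo x hxI).1 h1
  have : Nonempty c := hne.to_subtype
  have hdir : Directed (· ⊇ ·) (fun i : c => (i : Set T)) := by
    intro a b
    rcases hch.total a.2 b.2 with h | h
    · exact ⟨a, Subset.rfl, h⟩
    · exact ⟨b, h, Subset.rfl⟩
  obtain ⟨⟨s, hs⟩, hi⟩ := hZc.isCompact.elim_directed_family_closed (fun i : c => (i : Set T))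
    (fun i => (hcK i i.2).1) hZI hdir
  refine ⟨s, hs, G', hG'c.mono (hcK s hs).2.1, fun x hx => ⟨?_, hG'o x ((hcK s hs).2.1 hx)⟩⟩
  intro h0
  have : x ∈ Z ∩ s := ⟨⟨(hcK s hs).2.1 hx, h0⟩, hx⟩
  have h3 : Z ∩ s = ∅ := hi
  rw [h3] at this
  exact this

/-- the minimal-set step -/
theorem oddA_step
    (arc : ∀ (p q : ℂ) (r : ℝ) (C : Set ℂ), 0 < r → IsClosed C → C ⊆ sphere p r → q ∈ sphere p r →
      q ∉ C → ∀ u : ℂ → ℂ, ContinuousOn u C → (∀ z ∈ C, u z ≠ 0) → LogOn u C)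
    (M : Set T) (hM : IsClosed M) (hne : M ≠ univ) (σ : T → T)
    (hσ : ContinuousOn σ M) (hm : MapsTo σ M M) (hinv : ∀ x ∈ M, σ (σ x) = x)
    (hfree : ∀ x ∈ M, σ x ≠ x)
    (hmin : ∀ N ⊆ M, N ≠ M → IsClosed N → MapsTo σ N N → OddGood σ N) : OddGood σ M := by
  rcases M.eq_empty_or_nonempty with h0 | hMne
  · subst h0
    exact ⟨fun _ => 1, continuousOn_empty _, fun x hx => absurd hx (notMem_empty x)⟩
  have hnop : ¬ IsOpen M := by
    intro ho
    rcases isClopen_iff.mp ⟨hM, ho⟩ with h | h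
    · exact hMne.ne_empty h
    · exact hne h
  obtain ⟨p, hpM, hp⟩ : ∃ p ∈ M, M ∉ 𝓝 p := by
    by_contra hcon
    push Not at hcon
    exact hnop (isOpen_iff_mem_nhds.mpr hcon)
  obtain ⟨P, rfl⟩ := oddA_pr_surj p
  -- choose r0
  obtain ⟨U, V, hU, hV, hUV⟩ := t2_separation_nhds (hfree _ hpM).symm
  have hW : {x | x ∈ M → σ x ∈ V} ∈ 𝓝 (pr P) := by
    have h1 : σ ⁻¹' V ∈ 𝓝[M] (pr P) := hσ (pr P) hpM hV
    exact mem_nhdsWithin_iff_eventually.mp h1
  have hW2 : pr ⁻¹' (U ∩ {x | x ∈ M → σ x ∈ V}) ∈ 𝓝 P :=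
    oddA_pr_cont.continuousAt (Filter.inter_mem hU hW)
  obtain ⟨ε, hε, hball⟩ := Metric.mem_nhds_iff.mp hW2
  obtain ⟨r0, hr0, hr0ε, hr04⟩ : ∃ r0 : ℝ, 0 < r0 ∧ r0 < ε ∧ r0 < 1/4 :=
    ⟨min (ε/2) (1/8), by positivity, lt_of_le_of_lt (min_le_left _ _) (by linarith),
      lt_of_le_of_lt (min_le_right _ _) (by norm_num)⟩
  have hsep : ∀ z ∈ closedBall P r0, ∀ w ∈ closedBall P r0, pr z ∈ M → σ (pr z) ≠ pr w := by
    intro z hz w hw hzM heq
    have h1 : σ (pr z) ∈ V := (hball (closedBall_subset_ball hr0ε hz)).2 hzM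
    have h2 : pr w ∈ U := (hball (closedBall_subset_ball hr0ε hw)).1
    rw [heq] at h1
    exact (disjoint_left.mp hUV) h2 h1
  have hinj : ∀ z ∈ closedBall P r0, ∀ w ∈ closedBall P r0, pr z = pr w → z = w :=
    fun z hz w hw h => oddA_pr_inj (by linarith) hz hw h
  -- choose Q
  obtain ⟨Q, hQb, hQM⟩ : ∃ Q ∈ ball P r0, pr Q ∉ M := by
    by_contra hcon
    push Not at hcon
    apply hp
    have h1 : pr '' ball P r0 ∈ 𝓝 (pr P) := oddA_pr_open.image_mem_nhds (ball_mem_nhds P hr0)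
    exact Filter.mem_of_superset h1 (by rintro _ ⟨z, hz, rfl⟩; exact hcon z hz)
  have hQP : Q ≠ P := by
    rintro rfl
    exact hQM hpM
  set r : ℝ := dist Q P with hrdef
  have hr : 0 < r := dist_pos.mpr hQP
  have hrr0 : r < r0 := hQb
  have hDr : closedBall P r ⊆ closedBall P r0 := closedBall_subset_closedBall hrr0.le
  set D : Set ℂ := closedBall P r with hD
  set O : Set ℂ := ball P r with hO
  have hOD : O ⊆ D := ball_subset_closedBall
  have hDcomp : IsCompact D := isCompact_closedBall P r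
  have hprD : IsClosed (pr '' D) := (hDcomp.image oddA_pr_cont).isClosed
  have hprO : IsOpen (pr '' O) := oddA_pr_open _ isOpen_ball
  -- M'
  set M' : Set T := (M ∩ (pr '' O)ᶜ) ∩ (M ∩ σ ⁻¹' (pr '' O)ᶜ) with hM'
  have hM'c : IsClosed M' :=
    (hM.inter hprO.isClosed_compl).inter
      (hσ.preimage_isClosed_of_isClosed hM hprO.isClosed_compl)
  have hM'M : M' ⊆ M := fun x hx => hx.1.1
  have hM'm : MapsTo σ M' M' := by
    intro x hx
    refine ⟨⟨hm hx.1.1, hx.2.2⟩, ⟨hm hx.1.1, ?_⟩⟩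
    change σ (σ x) ∈ (pr '' O)ᶜ
    rw [hinv x hx.1.1]
    exact hx.1.2
  have hM'ne : M' ≠ M := by
    intro h
    have : pr P ∈ M' := h ▸ hpM
    exact this.1.2 ⟨P, mem_ball_self hr, rfl⟩
  obtain ⟨g', hg'c, hg'o⟩ := hmin M' hM'M hM'ne hM'c hM'm
  -- C
  set C : Set ℂ := sphere P r ∩ pr ⁻¹' M with hC
  have hCc : IsClosed C := isClosed_sphere.inter (hM.preimage oddA_pr_cont)
  have hCD : C ⊆ D := fun z hz => sphere_subset_closedBall hz.1
  have hsphO : ∀ z ∈ sphere P r, pr z ∉ pr '' O := by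
    rintro z hz ⟨w, hw, hwz⟩
    have h1 : w = z := hinj w (hDr (hOD hw)) z (hDr (sphere_subset_closedBall hz)) hwz
    rw [h1] at hw
    rw [mem_sphere] at hz
    have : dist z P < r := hw
    linarith
  have hCM' : ∀ z ∈ C, pr z ∈ M' := by
    intro z hz
    refine ⟨⟨hz.2, hsphO z hz.1⟩, hz.2, ?_⟩
    rintro ⟨w, hw, hwz⟩
    exact hsep z (hDr (hCD hz)) w (hDr (hOD hw)) hz.2 hwz.symm
  obtain ⟨l0, hl0c, hl0⟩ := arc P Q r C hr hCc inter_subset_left rfl (fun h => hQM h.2) (g' ∘ pr)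
    (hg'c.comp oddA_pr_cont.continuousOn hCM') (fun z hz => (hg'o _ (hCM' z hz)).1)
  obtain ⟨L, hL, hLl⟩ := oddA_tietze hCc hl0c
  -- the inverse of pr on D
  set s : T → ℂ := Function.invFunOn pr D with hs
  have hsD : ∀ x ∈ pr '' D, s x ∈ D ∧ pr (s x) = x := by
    intro x hx
    exact ⟨Function.invFunOn_mem hx, Function.invFunOn_eq hx⟩
  have hspr : ∀ z ∈ D, s (pr z) = z := by
    intro z hz
    have h1 := hsD (pr z) ⟨z, hz, rfl⟩
    exact hinj _ (hDr h1.1) _ (hDr hz) h1.2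
  have hscont : ContinuousOn s (pr '' D) := by
    rw [continuousOn_iff_isClosed]
    intro t ht
    refine ⟨pr '' (D ∩ t), ((hDcomp.inter_right ht).image oddA_pr_cont).isClosed, ?_⟩
    ext x
    constructor
    · rintro ⟨h1, h2⟩
      exact ⟨⟨s x, ⟨(hsD x h2).1, h1⟩, (hsD x h2).2⟩, h2⟩
    · rintro ⟨⟨z, ⟨hz, hzt⟩, rfl⟩, h2⟩
      refine ⟨?_, h2⟩
      change s (pr z) ∈ t
      rw [hspr z hz]; exact hzt
  set h : T → ℂ := fun x => Complex.exp (L (s x)) with hh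
  have hhc : ContinuousOn h (pr '' D) :=
    Complex.continuous_exp.comp_continuousOn (hL.comp_continuousOn hscont)
  have hh0 : ∀ x, h x ≠ 0 := fun x => Complex.exp_ne_zero _
  have hhM' : ∀ x ∈ M', x ∈ pr '' D → h x = g' x := by
    rintro _ hx ⟨z, hz, rfl⟩
    have hzs : z ∈ sphere P r := by
      rw [mem_sphere]
      have h1 : dist z P ≤ r := hz
      rcases h1.lt_or_eq with h2 | h2
      · exact absurd ⟨z, h2, rfl⟩ hx.1.2
      · exact h2
    have hzC : z ∈ C := ⟨hzs, hM'M hx⟩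
    simp only [hh]
    rw [hspr z hz, hLl z hzC, hl0 z hzC]
    rfl
  classical
  set g : T → ℂ := fun x => if x ∈ pr '' D then h x else if σ x ∈ pr '' D then - h (σ x) else g' x
    with hg
  have hgA : ∀ x ∈ pr '' D, g x = h x := by
    intro x hx
    simp only [hg]
    rw [if_pos hx]
  have hBn : ∀ x ∈ M, σ x ∈ pr '' D → x ∉ pr '' D := by
    rintro x hx ⟨w, hw, hwx⟩ ⟨z, hz, rfl⟩
    exact hsep z (hDr hz) w (hDr hw) hx hwx.symm
  have hgB : ∀ x ∈ M, σ x ∈ pr '' D → g x = - h (σ x) := by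
    intro x hx hσx
    simp only [hg]
    rw [if_neg (hBn x hx hσx), if_pos hσx]
  have hgM' : ∀ x ∈ M', g x = g' x := by
    intro x hx
    by_cases h1 : x ∈ pr '' D
    · rw [hgA x h1, hhM' x hx h1]
    · by_cases h2 : σ x ∈ pr '' D
      · rw [hgB x (hM'M hx) h2, hhM' (σ x) (hM'm hx) h2, (hg'o x hx).2, neg_neg]
      · simp only [hg]
        rw [if_neg h1, if_neg h2]
  have hcover : ∀ x ∈ M, x ∈ M' ∨ x ∈ pr '' D ∨ σ x ∈ pr '' D := by
    intro x hx
    by_cases h1 : x ∈ pr '' O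
    · exact Or.inr (Or.inl (image_mono hOD h1))
    · by_cases h2 : σ x ∈ pr '' O
      · exact Or.inr (Or.inr (image_mono hOD h2))
      · exact Or.inl ⟨⟨hx, h1⟩, hx, h2⟩
  refine ⟨g, ?_, ?_⟩
  · have hcA : ContinuousOn g (M ∩ pr '' D) :=
      (hhc.mono inter_subset_right).congr (fun x hx => hgA x hx.2)
    have hcB : ContinuousOn g (M ∩ σ ⁻¹' (pr '' D)) := by
      have h1 : ContinuousOn (fun x => - h (σ x)) (M ∩ σ ⁻¹' (pr '' D)) :=
        (hhc.comp (hσ.mono inter_subset_left) (fun x hx => hx.2)).neg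
      exact h1.congr (fun x hx => hgB x hx.1 hx.2)
    have hcM : ContinuousOn g M' := hg'c.congr (fun x hx => hgM' x hx)
    have hclA : IsClosed (M ∩ pr '' D) := hM.inter hprD
    have hclB : IsClosed (M ∩ σ ⁻¹' (pr '' D)) := hσ.preimage_isClosed_of_isClosed hM hprD
    have hall := (hcM.union_of_isClosed hcA hM'c hclA).union_of_isClosed hcB
      (hM'c.union hclA) hclB
    refine hall.mono ?_
    intro x hx
    rcases hcover x hx with h1 | h1 | h1
    · exact Or.inl (Or.inl h1)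
    · exact Or.inl (Or.inr ⟨hx, h1⟩)
    · exact Or.inr ⟨hx, h1⟩
  · intro x hx
    rcases hcover x hx with h1 | h1 | h1
    · rw [hgM' x h1, hgM' (σ x) (hM'm h1)]
      exact hg'o x h1
    · have h2 : σ (σ x) ∈ pr '' D := by rw [hinv x hx]; exact h1
      rw [hgA x h1, hgB (σ x) (hm hx) h2, hinv x hx]
      exact ⟨hh0 x, rfl⟩
    · rw [hgB x hx h1, hgA (σ x) h1]
      exact ⟨neg_ne_zero.mpr (hh0 _), (neg_neg _).symm⟩

/-- (this hypothesis is Eilenberg's theorem for a closed set of a circle missing a point of the circle) -/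
theorem oddA
    (arc : ∀ (p q : ℂ) (r : ℝ) (C : Set ℂ), 0 < r → IsClosed C → C ⊆ sphere p r → q ∈ sphere p r →
      q ∉ C → ∀ u : ℂ → ℂ, ContinuousOn u C → (∀ z ∈ C, u z ≠ 0) → LogOn u C)
    (K : Set T) (hK : IsClosed K) (hne : K ≠ univ) (σ : T → T)
    (hσ : ContinuousOn σ K) (hm : MapsTo σ K K) (hinv : ∀ x ∈ K, σ (σ x) = x)
    (hfree : ∀ x ∈ K, σ x ≠ x) :
    ∃ g : T → ℂ, ContinuousOn g K ∧ ∀ x ∈ K, g x ≠ 0 ∧ g (σ x) = - g x := by
  by_contra hcon
  have hKbad : ¬ OddGood σ K := hcon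
  set S : Set (Set T) := {M | IsClosed M ∧ M ⊆ K ∧ MapsTo σ M M ∧ ¬ OddGood σ M} with hS
  have hKS : K ∈ S := ⟨hK, Subset.rfl, hm, hKbad⟩
  obtain ⟨M, -, hMS, hmin⟩ := zorn_superset_nonempty S (by
    intro c hcS hch hcne
    refine ⟨⋂₀ c, ⟨isClosed_sInter fun s hs => (hcS hs).1, ?_, ?_, ?_⟩,
      fun s hs => sInter_subset_of_mem hs⟩
    · obtain ⟨s, hs⟩ := hcne
      exact (sInter_subset_of_mem hs).trans (hcS hs).2.1
    · intro x hx s hs
      exact (hcS hs).2.2.1 (hx s hs)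
    · intro hg
      obtain ⟨s, hs, hgood⟩ := oddA_chain K hK σ hσ hm hinv c
        (fun s hs => ⟨(hcS hs).1, (hcS hs).2.1, (hcS hs).2.2.1⟩) hch hcne hg
      exact (hcS hs).2.2.2 hgood) K hKS
  obtain ⟨hMc, hMK, hMm, hMbad⟩ := hMS
  apply hMbad
  refine oddA_step arc M hMc ?_ σ (hσ.mono hMK) hMm (fun x hx => hinv x (hMK hx))
    (fun x hx => hfree x (hMK hx)) ?_
  · intro h
    apply hne
    exact eq_univ_of_univ_subset (h ▸ hMK)
  · intro N hNM hNne hNc hNm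
    by_contra hNbad
    apply hNne
    exact Subset.antisymm hNM (hmin ⟨hNc, hNM.trans hMK, hNm, hNbad⟩ hNM)

end Pool.Agent.Helper874.TT.OddA
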