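import Pool.Agent.Helper874.TT.Defs

namespace Pool.Agent.Helper874.TT.OddB

open Set Topology Metric



/-- the covering map from the real plane -/
noncomputable def q2 (p : ℝ × ℝ) : T := ((p.1 : UnitAddCircle), (p.2 : UnitAddCircle))

/-- inclusion of the lattice -/
noncomputable def io (w : ℤ × ℤ) : ℝ × ℝ := ((w.1 : ℝ), (w.2 : ℝ))

theorem io_add (v w : ℤ × ℤ) : io (v + w) = io v + io w := by
  ext <;> simp [io]

theorem io_inj {v w : ℤ × ℤ} (h : io v = io w) : v = w := by
  have h1 := congrArg Prod.fst h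
  have h2 := congrArg Prod.snd h
  simp only [io, Int.cast_inj] at h1 h2
  exact Prod.ext h1 h2

theorem coe_eq_iff (x y : ℝ) : (x : UnitAddCircle) = (y : UnitAddCircle) ↔ ∃ n : ℤ, y = x + n := by
  rw [← sub_eq_zero, ← AddCircle.coe_sub, AddCircle.coe_eq_zero_iff]
  constructor
  · rintro ⟨n, hn⟩
    refine ⟨-n, ?_⟩
    simp only [zsmul_eq_mul, mul_one] at hn
    push_cast
    linarith
  · rintro ⟨n, hn⟩
    refine ⟨-n, ?_⟩
    simp only [zsmul_eq_mul, mul_one]
    push_cast
    linarith

theorem q2_eq {x y : ℝ × ℝ} : q2 x = q2 y ↔ ∃ w : ℤ × ℤ, y = x + io w := by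
  unfold q2
  rw [Prod.mk.injEq, coe_eq_iff, coe_eq_iff]
  constructor
  · rintro ⟨⟨m, hm⟩, ⟨n, hn⟩⟩
    exact ⟨(m, n), Prod.ext hm hn⟩
  · rintro ⟨w, hw⟩
    exact ⟨⟨w.1, congrArg Prod.fst hw⟩, ⟨w.2, congrArg Prod.snd hw⟩⟩

theorem q2_quot : IsOpenQuotientMap q2 :=
  (QuotientAddGroup.isOpenQuotientMap_mk).prodMap QuotientAddGroup.isOpenQuotientMap_mk

theorem const_int {f : ℝ × ℝ → ℝ × ℝ} (hf : Continuous f) (h : ∀ z, ∃ w, f z = io w) :
    ∃ w, ∀ z, f z = io w := by
  have hloc : IsLocallyConstant f := by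
    rw [IsLocallyConstant.iff_eventually_eq]
    intro x
    filter_upwards [hf.continuousAt.eventually (Metric.ball_mem_nhds (f x) one_pos)] with y hy
    obtain ⟨v, hv⟩ := h y
    obtain ⟨w, hw⟩ := h x
    rw [Prod.dist_eq, max_lt_iff, hv, hw] at hy
    rw [hv, hw]
    obtain ⟨h1, h2⟩ := hy
    simp only [io, Real.dist_eq] at h1 h2
    have h3 : |v.1 - w.1| < 1 := by exact_mod_cast h1
    have h4 : |v.2 - w.2| < 1 := by exact_mod_cast h2
    rw [Int.abs_lt_one_iff] at h3 h4
    congr 1
    exact Prod.ext (by omega) (by omega)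
  obtain ⟨w, hw⟩ := h 0
  exact ⟨w, fun z => (hloc.apply_eq_of_preconnectedSpace z 0).trans hw⟩

theorem lift1 {f : ℝ × ℝ → UnitAddCircle} (hf : Continuous f) :
    ∃ F : ℝ × ℝ → ℝ, Continuous F ∧ ∀ z, (F z : UnitAddCircle) = f z := by
  obtain ⟨e, he⟩ := QuotientAddGroup.mk_surjective (f 0)
  obtain ⟨F, ⟨-, hF⟩, -⟩ := (AddCircle.isCoveringMap_coe (1 : ℝ)).existsUnique_continuousMap_lifts
    ⟨f, hf⟩ 0 e he
  exact ⟨F, F.continuous, fun z => congrFun hF z⟩

theorem lift2 {f : ℝ × ℝ → T} (hf : Continuous f) :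
    ∃ F : ℝ × ℝ → ℝ × ℝ, Continuous F ∧ ∀ z, q2 (F z) = f z := by
  obtain ⟨F1, hF1, h1⟩ := lift1 (continuous_fst.comp hf)
  obtain ⟨F2, hF2, h2⟩ := lift1 (continuous_snd.comp hf)
  exact ⟨fun z => (F1 z, F2 z), hF1.prodMk hF2, fun z => Prod.ext (h1 z) (h2 z)⟩

theorem liftExp {f : ℝ × ℝ → ℂ} (hf : Continuous f) (h0 : ∀ z, f z ≠ 0) :
    ∃ F : ℝ × ℝ → ℂ, Continuous F ∧ ∀ z, Complex.exp (F z) = f z := by
  obtain ⟨F, ⟨-, hF⟩, -⟩ := Complex.isCoveringMapOn_exp.existsUnique_continuousMap_lifts
    ⟨f, hf⟩ (a₀ := 0) (Complex.exp_log (h0 0)) (fun x => h0 x)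
  exact ⟨F, F.continuous, fun z => congrFun hF z⟩

/-- the arithmetic of an involution of the lattice -/
theorem arith (a b c d e1 e2 : ℤ) (h1 : a * a + b * c = 1) (h2 : a * b + b * d = 0)
    (h3 : c * a + d * c = 0) (h4 : c * b + d * d = 1) (h5 : a * e1 + b * e2 = e1)
    (h6 : c * e1 + d * e2 = e2) :
    (∃ p q k : ℤ, p * a + q * c = p ∧ p * b + q * d = q ∧ p * e1 + q * e2 = 2 * k + 1) ∨
    ∃ w1 w2 : ℤ, e1 + w1 + (a * w1 + b * w2) = 0 ∧ e2 + w2 + (c * w1 + d * w2) = 0 := by
  rcases eq_or_ne (a + d) 0 with had | had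
  · have hd : d = -a := by linarith
    subst hd
    -- common construction for even `e`
    have heven : Even e1 → Even e2 →
        ∃ w1 w2 : ℤ, e1 + w1 + (a * w1 + b * w2) = 0 ∧ e2 + w2 + (c * w1 + -a * w2) = 0 := by
      rintro ⟨x, hx⟩ ⟨y, hy⟩
      refine ⟨-x, -y, ?_, ?_⟩
      · have : 2 * (e1 + -x + (a * -x + b * -y)) = 2 * 0 := by
          rw [hx, hy] at h5
          rw [hx]
          linear_combination -h5
        exact mul_left_cancel₀ two_ne_zero this
      · have : 2 * (e2 + -y + (c * -x + -a * -y)) = 2 * 0 := by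
          rw [hx, hy] at h6
          rw [hy]
          linear_combination -h6
        exact mul_left_cancel₀ two_ne_zero this
    have hwit : ∀ v1 v2 : ℤ, a * v1 + b * v2 = -v1 → c * v1 + -a * v2 = -v2 →
        Even (v1 - e1) → Even (v2 - e2) →
        ∃ w1 w2 : ℤ, e1 + w1 + (a * w1 + b * w2) = 0 ∧ e2 + w2 + (c * w1 + -a * w2) = 0 := by
      rintro v1 v2 hv1 hv2 ⟨x, hx⟩ ⟨y, hy⟩
      refine ⟨x, y, ?_, ?_⟩
      · have : 2 * (e1 + x + (a * x + b * y)) = 2 * 0 := by
          linear_combination hv1 - h5 - (1 + a) * hx - b * hy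
        exact mul_left_cancel₀ two_ne_zero this
      · have : 2 * (e2 + y + (c * x + -a * y)) = 2 * 0 := by
          linear_combination hv2 - h6 - c * hx - (1 - a) * hy
        exact mul_left_cancel₀ two_ne_zero this
    rcases Int.even_or_odd (1 + a) with ha | ha
    · rcases Int.even_or_odd b with hb | hb
      · rcases Int.even_or_odd c with hc | hc
        · -- all entries even
          rcases Int.even_or_odd e1 with he1 | he1
          · rcases Int.even_or_odd e2 with he2 | he2
            · exact Or.inr (heven he1 he2)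
            · left
              obtain ⟨r, hr⟩ := hc
              obtain ⟨s, hs⟩ := ha
              obtain ⟨k, hk⟩ := he2
              -- `1 - a = 2 (1 - s)`
              refine ⟨r, 1 - s, k, ?_, ?_, ?_⟩
              · apply mul_left_cancel₀ (two_ne_zero (α := ℤ))
                have ha' : a = s + s - 1 := by linarith
                subst ha' hr
                ring
              · apply mul_left_cancel₀ (two_ne_zero (α := ℤ))
                have ha' : a = s + s - 1 := by linarith
                subst ha' hr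
                linear_combination h1
              · apply mul_left_cancel₀ (two_ne_zero (α := ℤ))
                have ha' : a = s + s - 1 := by linarith
                subst ha' hr
                linear_combination h6 + 2 * hk
          · left
            obtain ⟨r, hr⟩ := hb
            obtain ⟨s, hs⟩ := ha
            obtain ⟨k, hk⟩ := he1
            refine ⟨s, r, k, ?_, ?_, ?_⟩
            · apply mul_left_cancel₀ (two_ne_zero (α := ℤ))
              have ha' : a = s + s - 1 := by linarith
              subst ha' hr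
              linear_combination h1
            · apply mul_left_cancel₀ (two_ne_zero (α := ℤ))
              have ha' : a = s + s - 1 := by linarith
              subst ha' hr
              ring
            · apply mul_left_cancel₀ (two_ne_zero (α := ℤ))
              have ha' : a = s + s - 1 := by linarith
              subst ha' hr
              linear_combination h5 + 2 * hk
        · -- `c` odd, `1 + a` even
          right
          have he1 : Even e1 := by
            obtain ⟨s, hs⟩ := ha
            obtain ⟨k, hk⟩ := hc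
            exact ⟨s * e2 - k * e1, by linear_combination h6 + e2 * hs - e1 * hk⟩
          rcases Int.even_or_odd e2 with he2 | he2
          · exact heven he1 he2
          · refine hwit (1 - a) (-c) (by linear_combination -h1) (by ring) ?_ ?_
            · obtain ⟨s, hs⟩ := ha
              obtain ⟨x, hx⟩ := he1
              exact ⟨1 - s - x, by linarith⟩
            · obtain ⟨x, hx⟩ := he2
              obtain ⟨k, hk⟩ := hc
              exact ⟨-k - x - 1, by linarith⟩
      · -- `b` odd
        right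
        have he2 : Even e2 := by
          obtain ⟨s, hs⟩ := ha
          obtain ⟨k, hk⟩ := hb
          exact ⟨(1 - s) * e1 - k * e2, by linear_combination h5 - e1 * hs - e2 * hk⟩
        rcases Int.even_or_odd e1 with he1 | he1
        · exact heven he1 he2
        · refine hwit (-b) (1 + a) (by ring) (by linear_combination -h1) ?_ ?_
          · obtain ⟨x, hx⟩ := he1
            obtain ⟨k, hk⟩ := hb
            exact ⟨-k - x - 1, by linarith⟩
          · obtain ⟨s, hs⟩ := ha
            obtain ⟨x, hx⟩ := he2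
            exact ⟨s - x, by linarith⟩
    · -- `1 + a` odd
      right
      obtain ⟨s, hs⟩ := ha
      have ha' : a = 2 * s := by linarith
      have hbc : Odd (b * c) := ⟨-(2 * s * s), by rw [ha'] at h1; linear_combination h1⟩
      obtain ⟨⟨k, hk⟩, ⟨l, hl⟩⟩ := Int.odd_mul.1 hbc
      rcases Int.even_or_odd e1 with he1 | he1
      · refine heven he1 ?_
        obtain ⟨x, hx⟩ := he1
        exact ⟨(1 - a) * x - k * e2, by linear_combination h5 + (1 - a) * hx - e2 * hk⟩
      · rcases Int.even_or_odd e2 with he2 | he2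
        · exfalso
          obtain ⟨y, hy⟩ := he2
          have : Even e1 := ⟨b * y + s * e1, by
            linear_combination (-1 : ℤ) * h5 + b * hy + e1 * ha'⟩
          exact (Int.not_even_iff_odd.2 he1) this
        · refine hwit (1 - a) (-c) (by linear_combination -h1) (by ring) ?_ ?_
          · obtain ⟨x, hx⟩ := he1
            exact ⟨-s - x, by linarith⟩
          · obtain ⟨x, hx⟩ := he2
            exact ⟨-l - x - 1, by linarith⟩
  · have hb : b = 0 := by
      have : b * (a + d) = 0 := by linear_combination h2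
      exact (mul_eq_zero.1 this).resolve_right had
    have hc : c = 0 := by
      have : c * (a + d) = 0 := by linear_combination h3
      exact (mul_eq_zero.1 this).resolve_right had
    subst hb hc
    have ha1 : a * a = 1 := by linarith
    have hd1 : d * d = 1 := by linarith
    have had2 : a = d := by
      have : (a + d) * (a - d) = 0 := by linear_combination ha1 - hd1
      have := (mul_eq_zero.1 this).resolve_left had
      linarith
    subst had2
    rcases mul_self_eq_one_iff.1 ha1 with h | h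
    · subst h
      rcases Int.even_or_odd e1 with he1 | he1
      · rcases Int.even_or_odd e2 with he2 | he2
        · obtain ⟨x, hx⟩ := he1
          obtain ⟨y, hy⟩ := he2
          right
          refine ⟨-x, -y, ?_, ?_⟩ <;> linarith
        · obtain ⟨k, hk⟩ := he2
          left
          exact ⟨0, 1, k, by ring, by ring, by linarith⟩
      · obtain ⟨k, hk⟩ := he1
        left
        exact ⟨1, 0, k, by ring, by ring, by linarith⟩
    · subst h
      right
      refine ⟨0, 0, ?_, ?_⟩ <;> linarith

theorem oddB (σ : T → T) (hσ : Continuous σ) (hinv : ∀ x, σ (σ x) = x) (hfree : ∀ x, σ x ≠ x) :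
    ∃ g : T → ℂ, Continuous g ∧ ∀ x, g x ≠ 0 ∧ g (σ x) = - g x := by
  obtain ⟨S, hS, hSq⟩ := lift2 (hσ.comp q2_quot.continuous)
  simp only [Function.comp_apply] at hSq
  have hper : ∀ (z : ℝ × ℝ) (w : ℤ × ℤ), q2 (z + io w) = q2 z := fun z w =>
    (q2_eq.2 ⟨w, rfl⟩).symm
  have hA0 : ∀ ω : ℤ × ℤ, ∃ w, ∀ z, S (z + io ω) - S z = io w := by
    intro ω
    refine const_int ((hS.comp (continuous_id.add continuous_const)).sub hS) fun z => ?_
    have h : q2 (S z) = q2 (S (z + io ω)) := by rw [hSq, hSq, hper]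
    obtain ⟨w, hw⟩ := q2_eq.1 h
    exact ⟨w, by rw [hw]; simp⟩
  choose A hA1 using hA0
  have hA : ∀ ω z, S (z + io ω) = S z + io (A ω) := fun ω z => by
    rw [← hA1 ω z]; abel
  obtain ⟨e, he⟩ : ∃ e, ∀ z, S (S z) - z = io e := by
    refine const_int ((hS.comp hS).sub continuous_id) fun z => ?_
    have h : q2 z = q2 (S (S z)) := by rw [hSq, hSq, hinv]
    obtain ⟨w, hw⟩ := q2_eq.1 h
    exact ⟨w, by rw [hw]; simp⟩
  have hSS : ∀ z, S (S z) = z + io e := fun z => by rw [← he z]; abel
  have hadd : ∀ v w, A (v + w) = A v + A w := by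
    intro v w
    apply io_inj
    have h1 := hA (v + w) 0
    rw [io_add, ← add_assoc, hA, hA, add_assoc] at h1
    rw [io_add]
    exact (add_left_cancel h1).symm
  have hAA : ∀ w, A (A w) = w := by
    intro w
    apply io_inj
    have h1 := hSS (0 + io w)
    rw [hA, hA, hSS] at h1
    have h2 : (0 : ℝ × ℝ) + io w + io e = 0 + io e + io w := by abel
    rw [h2] at h1
    exact add_left_cancel h1
  have hAe : A e = e := by
    apply io_inj
    have h1 := congrArg S (hSS 0)
    rw [hSS, hA] at h1
    exact (add_left_cancel h1).symm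
  -- matrix of `A`
  obtain ⟨a, c, hac⟩ : ∃ a c, A (1, 0) = (a, c) := ⟨(A (1, 0)).1, (A (1, 0)).2, rfl⟩
  obtain ⟨b, d, hbd⟩ : ∃ b d, A (0, 1) = (b, d) := ⟨(A (0, 1)).1, (A (0, 1)).2, rfl⟩
  have hmat : ∀ m n : ℤ, A (m, n) = (a * m + b * n, c * m + d * n) := by
    intro m n
    have h1 : ((m, n) : ℤ × ℤ) = m • ((1, 0) : ℤ × ℤ) + n • ((0, 1) : ℤ × ℤ) := by
      ext <;> simp
    have h2 := map_zsmul (AddMonoidHom.mk' A hadd) m (1, 0)
    have h3 := map_zsmul (AddMonoidHom.mk' A hadd) n (0, 1)
    simp only [AddMonoidHom.mk'_apply] at h2 h3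
    rw [h1, hadd, h2, h3, hac, hbd]
    ext
    · simp [mul_comm]
    · simp [mul_comm]
  have r1 := hAA (1, 0)
  rw [hac, hmat, Prod.mk.injEq] at r1
  have r2 := hAA (0, 1)
  rw [hbd, hmat, Prod.mk.injEq] at r2
  obtain ⟨e1, e2⟩ := e
  rw [hmat, Prod.mk.injEq] at hAe
  rcases arith a b c d e1 e2 r1.1 r2.1 r1.2 r2.2 hAe.1 hAe.2 with ⟨p, q, k, hp, hq, hk⟩ |
    ⟨w1, w2, hw1, hw2⟩
  · -- invariant functional
    obtain ⟨φ, hφ⟩ : ∃ φ : ℝ × ℝ → ℝ, ∀ z, φ z = p * z.1 + q * z.2 := ⟨_, fun _ => rfl⟩
    have hφc : Continuous φ := by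
      rw [show φ = fun z : ℝ × ℝ => (p : ℝ) * z.1 + (q : ℝ) * z.2 from funext hφ]
      fun_prop
    have hφadd : ∀ z w, φ (z + w) = φ z + φ w := by
      intro z w
      rw [hφ, hφ, hφ, Prod.fst_add, Prod.snd_add]
      ring
    have hφA : ∀ w, φ (io (A w)) = φ (io w) := by
      rintro ⟨m, n⟩
      rw [hmat, hφ, hφ]
      simp only [io]
      have hp' : (p : ℝ) * a + q * c = p := by exact_mod_cast hp
      have hq' : (p : ℝ) * b + q * d = q := by exact_mod_cast hq
      push_cast
      linear_combination (m : ℝ) * hp' + (n : ℝ) * hq'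
    have hφe : φ (io (e1, e2)) = 2 * k + 1 := by
      rw [hφ]
      simp only [io]
      exact_mod_cast hk
    obtain ⟨G, hG⟩ : ∃ G : ℝ × ℝ → ℂ, ∀ z, G z =
      Complex.exp (Real.pi * Complex.I * ((φ z + φ (S z) : ℝ) : ℂ)) := ⟨_, fun _ => rfl⟩
    have hGc : Continuous G := by
      rw [show G = fun z => Complex.exp (Real.pi * Complex.I * ((φ z + φ (S z) : ℝ) : ℂ)) from
        funext hG]
      exact Complex.continuous_exp.comp (continuous_const.mul
        (Complex.continuous_ofReal.comp (hφc.add (hφc.comp hS))))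
    have hGper : ∀ z w, G (z + io w) = G z := by
      rintro z ⟨m, n⟩
      rw [hG, hG, Complex.exp_eq_exp_iff_exists_int]
      refine ⟨p * m + q * n, ?_⟩
      rw [hA, hφadd, hφadd, hφA]
      have : φ (io (m, n)) = p * m + q * n := by rw [hφ]; rfl
      rw [this]
      push_cast
      ring
    obtain ⟨g, hg⟩ : ∃ g : T → ℂ, ∀ z, g (q2 z) = G z := by
      refine ⟨fun t => G (Function.surjInv q2_quot.surjective t), fun z => ?_⟩
      have h1 := Function.surjInv_eq q2_quot.surjective (q2 z)
      obtain ⟨w, hw⟩ := q2_eq.1 h1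
      simp only
      conv_rhs => rw [hw]
      rw [hGper]
    refine ⟨g, ?_, ?_⟩
    · rw [q2_quot.isQuotientMap.continuous_iff]
      rw [show g ∘ q2 = G from funext hg]
      exact hGc
    · intro x
      obtain ⟨z, rfl⟩ := q2_quot.surjective x
      refine ⟨?_, ?_⟩
      · rw [hg, hG]; exact Complex.exp_ne_zero _
      · rw [← hSq, hg, hg, hG, hG, hSS, hφadd, hφe, ← Complex.exp_add_pi_mul_I,
          Complex.exp_eq_exp_iff_exists_int]
        refine ⟨k, ?_⟩
        push_cast
        ring
  · -- no invariant functional: contradiction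
    exfalso
    obtain ⟨w, hw⟩ : ∃ w : ℤ × ℤ, w = (w1, w2) := ⟨_, rfl⟩
    have hww : (e1, e2) + w + A w = 0 := by
      rw [hw, hmat]
      ext
      · simpa using hw1
      · simpa using hw2
    obtain ⟨R, hR⟩ : ∃ R : ℝ × ℝ → ℝ × ℝ, ∀ z, R z = S z + io w := ⟨_, fun _ => rfl⟩
    have hRc : Continuous R := by
      rw [show R = fun z => S z + io w from funext hR]
      exact hS.add continuous_const
    have hRR : ∀ z, R (R z) = z := by
      intro z
      rw [hR, hR, hA, hSS]
      have h1 : io (e1, e2) + io w + io (A w) = 0 := by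
        rw [← io_add, ← io_add, hww]
        simp [io]
      calc z + io (e1, e2) + io (A w) + io w = z + (io (e1, e2) + io w + io (A w)) := by abel
        _ = z := by rw [h1, add_zero]
    have hRne : ∀ z, R z ≠ z := by
      intro z hz
      apply hfree (q2 z)
      rw [← hSq, ← hper (S z) w, ← hR, hz]
    obtain ⟨U, hU⟩ : ∃ U : ℝ × ℝ → ℂ, ∀ z, U z =
      ((z.1 - (R z).1 : ℝ) : ℂ) + ((z.2 - (R z).2 : ℝ) : ℂ) * Complex.I := ⟨_, fun _ => rfl⟩
    have hUc : Continuous U := by
      rw [show U = fun z => ((z.1 - (R z).1 : ℝ) : ℂ) + ((z.2 - (R z).2 : ℝ) : ℂ) * Complex.I from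
        funext hU]
      have h1 : Continuous fun z => (R z).1 := continuous_fst.comp hRc
      have h2 : Continuous fun z => (R z).2 := continuous_snd.comp hRc
      fun_prop
    have hU0 : ∀ z, U z ≠ 0 := by
      intro z hz
      rw [hU] at hz
      have h1 := congrArg Complex.re hz
      have h2 := congrArg Complex.im hz
      simp at h1 h2
      apply hRne z
      ext <;> linarith
    obtain ⟨g, hgc, hg⟩ := liftExp hUc hU0
    have hUR : ∀ z, U (R z) = -U z := by
      intro z
      rw [hU, hU, hRR]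
      push_cast
      ring
    have hk : ∀ z, ∃ n : ℤ, g (R z) - g z = Real.pi * Complex.I + n * (2 * Real.pi * Complex.I) := by
      intro z
      have h1 : Complex.exp (g (R z)) = Complex.exp (g z + Real.pi * Complex.I) := by
        rw [Complex.exp_add_pi_mul_I, hg, hg, hUR]
      obtain ⟨n, hn⟩ := Complex.exp_eq_exp_iff_exists_int.1 h1
      exact ⟨n, by rw [hn]; ring⟩
    have hpi : (Real.pi : ℝ) ≠ 0 := Real.pi_ne_zero
    have hc : ∃ v : ℤ × ℤ, ∀ z, (((g (R z) - g z).im / Real.pi - 1) / 2, (0 : ℝ)) = io v := by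
      refine const_int ?_ fun z => ?_
      · have h1 : Continuous fun z => g (R z) := hgc.comp hRc
        have h2 : Continuous fun z => (g (R z) - g z).im := Complex.continuous_im.comp (h1.sub hgc)
        fun_prop
      · obtain ⟨n, hn⟩ := hk z
        refine ⟨(n, 0), ?_⟩
        rw [hn]
        simp only [io]
        ext
        · simp
          field_simp
          ring
        · simp
    obtain ⟨v, hv⟩ := hc
    have hv1 : ∀ z, (g (R z) - g z).im = (2 * v.1 + 1) * Real.pi := by
      intro z
      have h1 := congrArg Prod.fst (hv z)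
      simp only [io] at h1
      have h2 : (g (R z) - g z).im / Real.pi = 2 * v.1 + 1 := by linarith
      rw [← h2, div_mul_cancel₀ _ hpi]
    have h1 := hv1 0
    have h2 := hv1 (R 0)
    rw [hRR] at h2
    rw [Complex.sub_im] at h1 h2
    have h3 : (2 * (v.1 : ℝ) + 1) * Real.pi = 0 := by linarith
    have h4 : (2 * (v.1 : ℝ) + 1) = 0 := (mul_eq_zero.1 h3).resolve_right hpi
    have h5 : 2 * v.1 + 1 = 0 := by exact_mod_cast h4
    omega

end Pool.Agent.Helper874.TT.OddB
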