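import Pool.Agent.Helper874.TT.Defs

namespace Pool.Agent.Helper874.TT

open Set Topology Metric


variable {X E : Type*} [TopologicalSpace X] [CompactSpace X] [T2Space X]
  [NormedAddCommGroup E] [InnerProductSpace ℝ E] [FiniteDimensional ℝ E]

omit [T2Space X] in
/-- radial parametrisation of the relative boundary and its unique lift -/
theorem surj_core {f : X → E} (hf : Continuous f) {F : Set E} (hconv : Convex ℝ F)
    (hcomp : IsCompact F) {z : E} (hz : z ∈ F) (hzr : z ∉ range f) [Nonempty X]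
    (hB : ∀ m : E, ∀ x ∈ F, (∀ y ∈ F, inner ℝ m y ≤ inner ℝ m x) →
      (∃ y ∈ F, inner ℝ m y ≠ inner ℝ m x) → ∃ p, f p = x ∧ ∀ q, f q = x → q = p) :
    ∃ (γ : vectorSpan ℝ F → ℝ) (β : vectorSpan ℝ F → X), ContinuousOn β {0}ᶜ ∧ Continuous γ ∧
      (∀ v, v ≠ 0 → 0 < γ v) ∧
      (∀ v, v ≠ 0 → f (β v) = z + (((γ v)⁻¹ • v : vectorSpan ℝ F) : E)) ∧
      ∀ v, v ≠ 0 → f (β v) ∈ F := by
  classical
  obtain ⟨A, hA⟩ : ∃ A : Set (vectorSpan ℝ F), A = {v : vectorSpan ℝ F | z + (v : E) ∈ F} :=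
    ⟨_, rfl⟩
  have hAmem : ∀ v : vectorSpan ℝ F, v ∈ A ↔ z + (v : E) ∈ F := by
    intro v; rw [hA]; rfl
  have hAconv : Convex ℝ A := by
    intro v hv w hw a b ha hb hab
    rw [hAmem] at hv hw ⊢
    have h1 := hconv hv hw ha hb hab
    have h2 : z + ((a • v + b • w : vectorSpan ℝ F) : E) = a • (z + (v : E)) + b • (z + (w : E)) := by
      push_cast
      rw [smul_add, smul_add]
      have : z = a • z + b • z := by rw [← add_smul, hab, one_smul]
      nth_rewrite 1 [this]
      abel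
    rw [h2]
    exact h1
  have hAclosed : IsClosed A := by
    rw [hA]
    exact hcomp.isClosed.preimage (by fun_prop : Continuous fun v : vectorSpan ℝ F => z + (v : E))
  have hA0 : (0 : vectorSpan ℝ F) ∈ A := by
    rw [hAmem]; simpa using hz
  have hAbdd : Bornology.IsBounded A := by
    obtain ⟨C, hC⟩ := hcomp.isBounded.exists_norm_le
    rw [isBounded_iff_forall_norm_le]
    refine ⟨C + ‖z‖, ?_⟩
    intro v hv
    rw [hAmem] at hv
    have h1 := hC _ hv
    have h2 : (v : E) = (z + (v : E)) - z := by abel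
    have h3 : ‖v‖ = ‖(v : E)‖ := rfl
    rw [h3, h2]
    exact (norm_sub_le _ _).trans (by linarith)
  have hFA : ∀ y, (hy : y ∈ F) → (⟨y - z, vsub_mem_vectorSpan ℝ hy hz⟩ : vectorSpan ℝ F) ∈ A := by
    intro y hy
    rw [hAmem]
    show z + (y - z) ∈ F
    rw [add_sub_cancel]
    exact hy
  have hspan : Submodule.span ℝ A = ⊤ := by
    have h1 : Submodule.map (vectorSpan ℝ F).subtype (Submodule.span ℝ A) = vectorSpan ℝ F := by
      rw [Submodule.map_span]
      apply le_antisymm
      · apply Submodule.span_le.2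
        rintro _ ⟨v, _, rfl⟩
        exact v.2
      · apply (vectorSpan_eq_span_vsub_set_right ℝ hz).le.trans
        apply Submodule.span_mono
        rintro _ ⟨y, hy, rfl⟩
        exact ⟨_, hFA y hy, rfl⟩
    rw [eq_top_iff]
    intro v _
    have h2 : (v : E) ∈ Submodule.map (vectorSpan ℝ F).subtype (Submodule.span ℝ A) := by
      rw [h1]; exact v.2
    obtain ⟨w, hw, hwv⟩ := h2
    have h3 : w = v := Subtype.ext hwv
    rw [← h3]
    exact hw
  have hint : (interior A).Nonempty := by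
    rw [hAconv.interior_nonempty_iff_affineSpan_eq_top,
      AffineSubspace.affineSpan_eq_top_iff_vectorSpan_eq_top_of_nonempty ℝ _ _ ⟨0, hA0⟩,
      vectorSpan_eq_span_vsub_set_right ℝ hA0]
    have : ((fun x : vectorSpan ℝ F => x -ᵥ 0) '' A) = A := by
      simp
    rw [this]
    exact hspan
  have hAcl : closure (interior A) = A := by
    rw [hAconv.closure_interior_eq_closure_of_nonempty_interior hint, hAclosed.closure_eq]
  have hAB : ∀ a ∈ A, a ∉ interior A → ∃ p, f p = z + (a : E) ∧ ∀ q, f q = z + (a : E) → q = p := by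
    intro a ha hai
    obtain ⟨φ, hφ⟩ := geometric_hahn_banach_open_point hAconv.interior isOpen_interior hai
    obtain ⟨u, hu⟩ := (InnerProductSpace.toDual ℝ (vectorSpan ℝ F)).surjective φ
    have hφu : ∀ v : vectorSpan ℝ F, φ v = inner ℝ (u : E) (v : E) := by
      intro v
      rw [← hu, InnerProductSpace.toDual_apply_apply, Submodule.coe_inner]
    have hle : ∀ b ∈ A, φ b ≤ φ a := by
      intro b hb
      rw [← hAcl] at hb
      have hc : IsClosed {b : vectorSpan ℝ F | φ b ≤ φ a} :=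
        isClosed_le φ.continuous continuous_const
      have hsub : interior A ⊆ {b : vectorSpan ℝ F | φ b ≤ φ a} := fun b hb => (hφ b hb).le
      exact closure_minimal hsub hc hb
    have hin : ∀ v : vectorSpan ℝ F, inner ℝ (u : E) (z + (v : E)) = inner ℝ (u : E) z + φ v := by
      intro v
      rw [inner_add_right, hφu]
    apply hB (u : E) (z + (a : E)) ((hAmem a).1 ha)
    · intro y hy
      have h1 := hle _ (hFA y hy)
      have h2 := hin ⟨y - z, vsub_mem_vectorSpan ℝ hy hz⟩
      have h3 : z + (((⟨y - z, vsub_mem_vectorSpan ℝ hy hz⟩ : vectorSpan ℝ F)) : E) = y := by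
        show z + (y - z) = y
        rw [add_sub_cancel]
      rw [h3] at h2
      rw [h2, hin a]
      linarith
    · obtain ⟨b, hb⟩ := hint
      refine ⟨z + (b : E), (hAmem b).1 (interior_subset hb), ?_⟩
      rw [hin, hin]
      have := hφ b hb
      intro h
      linarith
  have h0int : (0 : vectorSpan ℝ F) ∈ interior A := by
    by_contra h
    obtain ⟨p, hp, _⟩ := hAB 0 hA0 h
    apply hzr
    refine ⟨p, ?_⟩
    rw [hp]
    simp
  have hAnhds : A ∈ 𝓝 (0 : vectorSpan ℝ F) := mem_interior_iff_mem_nhds.1 h0int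
  have hgc : Continuous (gauge A) := continuous_gauge hAconv hAnhds
  have hgpos : ∀ v : vectorSpan ℝ F, v ≠ 0 → 0 < gauge A v := by
    intro v hv
    exact (gauge_pos (absorbent_nhds_zero hAnhds)
      ((NormedSpace.isVonNBounded_iff ℝ).2 hAbdd)).2 hv
  have hg1 : ∀ v : vectorSpan ℝ F, v ≠ 0 → gauge A ((gauge A v)⁻¹ • v) = 1 := by
    intro v hv
    rw [gauge_smul_of_nonneg (inv_nonneg.2 (hgpos v hv).le), smul_eq_mul,
      inv_mul_cancel₀ (hgpos v hv).ne']
  have hwA : ∀ v : vectorSpan ℝ F, v ≠ 0 → (gauge A v)⁻¹ • v ∈ A := by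
    intro v hv
    have h1 := (gauge_le_one_iff_mem_closure hAconv hAnhds).1 (hg1 v hv).le
    rwa [hAclosed.closure_eq] at h1
  have hwi : ∀ v : vectorSpan ℝ F, v ≠ 0 → (gauge A v)⁻¹ • v ∉ interior A := by
    intro v hv
    rw [← gauge_lt_one_iff_mem_interior hAconv hAnhds, hg1 v hv]
    exact lt_irrefl 1
  have hch : ∀ v : vectorSpan ℝ F, ∃ p : X, v ≠ 0 →
      (f p = z + (((gauge A v)⁻¹ • v : vectorSpan ℝ F) : E) ∧
        ∀ q, f q = z + (((gauge A v)⁻¹ • v : vectorSpan ℝ F) : E) → q = p) := by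
    intro v
    by_cases hv : v = 0
    · exact ⟨Classical.arbitrary X, fun h => absurd hv h⟩
    · obtain ⟨p, hp⟩ := hAB _ (hwA v hv) (hwi v hv)
      exact ⟨p, fun _ => hp⟩
  choose β hβ using hch
  refine ⟨gauge A, β, ?_, hgc, hgpos, fun v hv => (hβ v hv).1, ?_⟩
  · intro v0 hv0
    have hv0' : v0 ≠ 0 := hv0
    apply ContinuousAt.continuousWithinAt
    apply IsCompact.tendsto_nhds_of_unique_mapClusterPt isCompact_univ (by simp)
    intro x _ hx
    apply (hβ v0 hv0').2
    have h1 : MapClusterPt (f x) (𝓝 v0) (f ∘ β) := hx.tendsto_comp hf.continuousAt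
    have h2 : Filter.Tendsto (f ∘ β) (𝓝 v0)
        (𝓝 (z + (((gauge A v0)⁻¹ • v0 : vectorSpan ℝ F) : E))) := by
      have h3 : (fun v : vectorSpan ℝ F => z + (((gauge A v)⁻¹ • v : vectorSpan ℝ F) : E))
          =ᶠ[𝓝 v0] (f ∘ β) := by
        have h4 : {0}ᶜ ∈ 𝓝 v0 := isOpen_compl_singleton.mem_nhds hv0'
        filter_upwards [h4] with v hv
        exact ((hβ v hv).1).symm
      refine Filter.Tendsto.congr' h3 ?_
      have h5 : ContinuousAt (fun v : vectorSpan ℝ F =>
          z + (((gauge A v)⁻¹ • v : vectorSpan ℝ F) : E)) v0 := by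
        apply ContinuousAt.add continuousAt_const
        apply continuous_subtype_val.continuousAt.comp
        exact (hgc.continuousAt.inv₀ (hgpos v0 hv0').ne').smul continuousAt_id
      exact h5
    have h6 : (𝓝 (f x) ⊓ 𝓝 (z + (((gauge A v0)⁻¹ • v0 : vectorSpan ℝ F) : E))).NeBot :=
      Filter.NeBot.mono h1 (inf_le_inf_left _ h2)
    exact eq_of_nhds_neBot h6
  · intro v hv
    rw [(hβ v hv).1]
    exact (hAmem _).1 (hwA v hv)

/-- the circle has no continuous logarithm -/
theorem no_log (h : ℝ → ℂ) (hc : Continuous h) (he : ∀ t, Complex.exp (h t) = 1)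
    (hp : h (2 * Real.pi) = h 0 - 2 * Real.pi * Complex.I) : False := by
  have hint : ∀ t, ∃ n : ℤ, (h t).im = n * (2 * Real.pi) := by
    intro t
    obtain ⟨n, hn⟩ := Complex.exp_eq_one_iff.1 (he t)
    refine ⟨n, ?_⟩
    rw [hn]
    simp
  have him : Continuous fun t => (h t).im := Complex.continuous_im.comp hc
  obtain ⟨n0, hn0⟩ := hint 0
  have h1 : (h (2 * Real.pi)).im = (h 0).im - 2 * Real.pi := by
    rw [hp]
    simp
  have hpi := Real.pi_pos
  obtain ⟨t, ht⟩ := mem_range_of_exists_le_of_exists_ge him (c := (n0 - 1 / 2) * (2 * Real.pi))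
    ⟨2 * Real.pi, by rw [h1, hn0]; linarith⟩ ⟨0, by rw [hn0]; linarith⟩
  obtain ⟨n, hn⟩ := hint t
  have ht' : (h t).im = (n0 - 1 / 2) * (2 * Real.pi) := ht
  rw [ht'] at hn
  have h2 : ((n0 : ℝ) - 1 / 2) = n := mul_right_cancel₀ (by positivity) hn
  have h3 : (2 * n0 - 1 : ℤ) = 2 * n := by
    have : (2 * n0 - 1 : ℝ) = 2 * n := by linarith
    exact_mod_cast this
  omega

/-- Good sets lying over a planar nonseparating piece are covered by `f`.
The hypotheses `hface`, `hinj`, `BU`, `hlog` are theorems proved elsewhere. -/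
theorem Good.surj_of {f : X → E} (hf : Continuous f)
    (hface : ∀ F m, Good f F → Good f (F ∩ {x | ∀ y ∈ F, inner ℝ m y ≤ inner ℝ m x}))
    (hinj : ∀ F, Good f F → F ⊆ range f → ∀ x y, f x ∈ F → f x = f y → x = y)
    (BU : ∀ g : (Fin 3 → ℝ) → (Fin 2 → ℝ), Continuous g → (∀ x, g (-x) = -g x) →
      ∃ x : Fin 3 → ℝ, ∑ i, |x i| = 1 ∧ g x = 0)
    {U : Set X} {s : X → ℂ} (hs : ContinuousOn s U) (hsi : InjOn s U)
    (hlog : ∀ F, Good f F → f ⁻¹' F ⊆ U → ∀ u : X → ℂ, ContinuousOn u (f ⁻¹' F) →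
      (∀ x ∈ f ⁻¹' F, u x ≠ 0) → LogOn u (f ⁻¹' F))
    {F : Set E} (hF : Good f F) (hFU : f ⁻¹' F ⊆ U) : F ⊆ range f := by
  classical
  obtain ⟨k, hk⟩ : ∃ k, k = Module.finrank ℝ (vectorSpan ℝ F) := ⟨_, rfl⟩
  induction k using Nat.strong_induction_on generalizing F with
  | _ k ih =>
  intro z hz
  by_contra hzr
  obtain ⟨x0, hx0⟩ : (f ⁻¹' F).Nonempty := by
    obtain ⟨x, hx⟩ := hF.ne 0 0 ⟨z, hz, by simp⟩
    exact ⟨x, hx.1⟩
  have hXne : Nonempty X := ⟨x0⟩
  have hB : ∀ m : E, ∀ x ∈ F, (∀ y ∈ F, inner ℝ m y ≤ inner ℝ m x) →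
      (∃ y ∈ F, inner ℝ m y ≠ inner ℝ m x) → ∃ p, f p = x ∧ ∀ q, f q = x → q = p := by
    intro m x hx hmax ⟨y, hy, hyx⟩
    have hF' := hface F m hF
    obtain ⟨F', hF'def⟩ : ∃ F', F' = F ∩ {x | ∀ y ∈ F, inner ℝ m y ≤ inner ℝ m x} := ⟨_, rfl⟩
    rw [← hF'def] at hF'
    have hxF' : x ∈ F' := by rw [hF'def]; exact ⟨hx, hmax⟩
    have hF'F : F' ⊆ F := by rw [hF'def]; exact inter_subset_left
    have hlt : vectorSpan ℝ F' < vectorSpan ℝ F := by
      apply lt_of_le_of_ne (vectorSpan_mono ℝ hF'F)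
      intro heq
      have h1 : y - x ∈ vectorSpan ℝ F' := by
        rw [heq]
        exact vsub_mem_vectorSpan ℝ hy hx
      have h2 : ∀ w ∈ vectorSpan ℝ F', inner ℝ m w = 0 := by
        intro w hw
        rw [vectorSpan_def] at hw
        induction hw using Submodule.span_induction with
        | mem w hw =>
          obtain ⟨a, ha, b, hb, rfl⟩ := hw
          rw [hF'def] at ha hb
          have h3 : inner ℝ m a = inner ℝ m b := le_antisymm (hb.2 a ha.1) (ha.2 b hb.1)
          show inner ℝ m (a - b) = 0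
          rw [inner_sub_right, h3, sub_self]
        | zero => exact inner_zero_right m
        | add a b _ _ ha hb => rw [inner_add_right, ha, hb, add_zero]
        | smul r a _ ha => rw [inner_smul_right, ha, mul_zero]
      have h3 := h2 _ h1
      rw [inner_sub_right] at h3
      exact hyx (sub_eq_zero.1 h3)
    have hfin := Submodule.finrank_lt_finrank_of_lt hlt
    have hsub : F' ⊆ range f := ih _ (by rw [hk]; exact hfin) hF'
      ((preimage_mono hF'F).trans hFU) rfl
    obtain ⟨p, hp⟩ := hsub hxF'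
    refine ⟨p, hp, fun q hq => hinj F' hF' hsub q p (by rw [hq]; exact hxF') (by rw [hq, hp])⟩
  obtain ⟨γ, β, hβc, hγc, hγ, hfβ, hβF⟩ := surj_core hf hF.conv hF.comp hz hzr hB
  have hVmem : ∀ x, f x ∈ F → f x - z ∈ vectorSpan ℝ F := fun x hx =>
    vsub_mem_vectorSpan ℝ hx hz
  have hcomp : IsCompact (f ⁻¹' F) := (hF.comp.isClosed.preimage hf).isCompact
  have hcases : k = 0 ∨ k = 1 ∨ k = 2 ∨ 3 ≤ k := by omega
  rcases hcases with hk0 | hk1 | hk2 | hk3
  · -- dimension 0
    have h1 : vectorSpan ℝ F = ⊥ := Submodule.finrank_eq_zero.1 (by rw [← hk, hk0])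
    have h2 := hVmem x0 hx0
    rw [h1, Submodule.mem_bot, sub_eq_zero] at h2
    exact hzr ⟨x0, h2⟩
  · -- dimension 1
    have hpos : 0 < Module.finrank ℝ (vectorSpan ℝ F) := by rw [← hk, hk1]; exact one_pos
    obtain ⟨v, hv⟩ := Module.finrank_pos_iff_exists_ne_zero.1 hpos
    have hv1 := (finrank_eq_one_iff_of_nonzero' v hv).1 (by rw [← hk, hk1])
    have hpre : IsPreconnected (f ⁻¹' F) := by
      have := hF.pre 0 0
      simpa using this
    have htc : Continuous fun x => inner ℝ (v : E) (f x - z) := by fun_prop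
    have hnv : 0 < ‖(v : E)‖ ^ 2 := by
      have h1 : (v : E) ≠ 0 := fun h => hv (Subtype.ext h)
      have h2 : 0 < ‖(v : E)‖ := norm_pos_iff.2 h1
      positivity
    have hin : ∀ c : ℝ, inner ℝ (v : E) (((c • v : vectorSpan ℝ F)) : E) = c * ‖(v : E)‖ ^ 2 := by
      intro c
      rw [Submodule.coe_smul, inner_smul_right, real_inner_self_eq_norm_sq]
    have h1 : 0 ≤ inner ℝ (v : E) (f (β v) - z) := by
      rw [hfβ v hv, add_sub_cancel_left, hin]
      have := hγ v hv
      positivity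
    have h2 : inner ℝ (v : E) (f (β (-v)) - z) ≤ 0 := by
      have hnv' : -v ≠ 0 := neg_ne_zero.2 hv
      rw [hfβ _ hnv', add_sub_cancel_left]
      have h3 : ((γ (-v))⁻¹ • (-v) : vectorSpan ℝ F) = (-(γ (-v))⁻¹) • v := by
        rw [smul_neg, neg_smul]
      rw [h3, hin]
      have h4 := hγ _ hnv'
      have h5 : 0 < (γ (-v))⁻¹ := inv_pos.2 h4
      nlinarith
    obtain ⟨x, hx, hx0'⟩ := hpre.intermediate_value (hβF _ (neg_ne_zero.2 hv)) (hβF v hv)
      htc.continuousOn ⟨h2, h1⟩
    obtain ⟨c, hc⟩ := hv1 ⟨f x - z, hVmem x hx⟩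
    have h6 : (((c • v : vectorSpan ℝ F)) : E) = f x - z := by rw [hc]
    have h7 : c * ‖(v : E)‖ ^ 2 = 0 := by
      rw [← hin c, h6]
      exact hx0'
    have h8 : c = 0 := by
      rcases mul_eq_zero.1 h7 with h | h
      · exact h
      · exact absurd h hnv.ne'
    rw [h8, zero_smul, Submodule.coe_zero] at h6
    exact hzr ⟨x, (sub_eq_zero.1 h6.symm)⟩
  · -- dimension 2
    obtain ⟨L⟩ : Nonempty (vectorSpan ℝ F ≃L[ℝ] ℂ) :=
      ⟨ContinuousLinearEquiv.ofFinrankEq (by rw [← hk, hk2, Complex.finrank_real_complex])⟩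
    have hproj : ∀ x, (hx : f x ∈ F) → (vectorSpan ℝ F).orthogonalProjectionOnto (f x - z)
        = ⟨f x - z, hVmem x hx⟩ := by
      intro x hx
      exact Submodule.orthogonalProjectionOnto_mem_subspace_eq_self
        (⟨f x - z, hVmem x hx⟩ : vectorSpan ℝ F)
    obtain ⟨g, hgc, hge⟩ := hlog F hF hFU
      (fun x => L ((vectorSpan ℝ F).orthogonalProjectionOnto (f x - z)))
      (by
        apply Continuous.continuousOn
        fun_prop)
      (by
        intro x hx h0
        have h1 : L ((vectorSpan ℝ F).orthogonalProjectionOnto (f x - z)) = 0 := h0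
        rw [hproj x hx] at h1
        have h2 : (⟨f x - z, hVmem x hx⟩ : vectorSpan ℝ F) = 0 := by
          apply L.injective
          rw [h1, map_zero]
        have h3 : f x - z = 0 := congrArg Subtype.val h2
        exact hzr ⟨x, sub_eq_zero.1 h3⟩)
    obtain ⟨c, hc⟩ : ∃ c : ℝ → vectorSpan ℝ F, c = fun t : ℝ => L.symm (Complex.exp (t * Complex.I)) :=
      ⟨_, rfl⟩
    have hcc : Continuous c := by
      rw [hc]
      fun_prop
    have hcne : ∀ t, c t ≠ 0 := by
      intro t h0
      rw [hc] at h0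
      have h1 : L.symm (Complex.exp (t * Complex.I)) = 0 := h0
      have h2 := congrArg L h1
      rw [L.apply_symm_apply, map_zero] at h2
      exact Complex.exp_ne_zero _ h2
    have hβcc : Continuous fun t => β (c t) := hβc.comp_continuous hcc (fun t => hcne t)
    have hgβ : Continuous fun t => g (β (c t)) :=
      hgc.comp_continuous hβcc (fun t => hβF _ (hcne t))
    have hLc : ∀ t : ℝ, L (c t) = Complex.exp (t * Complex.I) := by
      intro t
      rw [hc]
      exact L.apply_symm_apply _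
    have hexp : ∀ t : ℝ, Complex.exp (g (β (c t)))
        = ((γ (c t))⁻¹ : ℝ) * Complex.exp (t * Complex.I) := by
      intro t
      have h1 : f (β (c t)) ∈ F := hβF _ (hcne t)
      have h0 : Complex.exp (g (β (c t)))
          = L ((vectorSpan ℝ F).orthogonalProjectionOnto (f (β (c t)) - z)) := hge _ h1
      rw [h0, hproj _ h1]
      have h2 : (⟨f (β (c t)) - z, hVmem _ h1⟩ : vectorSpan ℝ F) = (γ (c t))⁻¹ • c t := by
        apply Subtype.ext
        show f (β (c t)) - z = _
        rw [hfβ _ (hcne t), add_sub_cancel_left]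
      rw [h2, map_smul, hLc, Complex.real_smul]
    apply no_log (fun t : ℝ => g (β (c t)) + (Real.log (γ (c t)) : ℂ) - t * Complex.I)
    · have h1 : Continuous fun t => Real.log (γ (c t)) :=
        (hγc.comp hcc).log (fun t => (hγ _ (hcne t)).ne')
      have h2 : Continuous fun t => ((Real.log (γ (c t)) : ℝ) : ℂ) :=
        Complex.continuous_ofReal.comp h1
      exact (hgβ.add h2).sub (by fun_prop)
    · intro t
      have hg0 := hγ _ (hcne t)
      rw [Complex.exp_sub, Complex.exp_add, hexp, ← Complex.ofReal_exp, Real.exp_log hg0]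
      have h1 : ((γ (c t) : ℝ) : ℂ) ≠ 0 := by exact_mod_cast hg0.ne'
      have h2 := Complex.exp_ne_zero (t * Complex.I)
      push_cast
      field_simp
    · have h1 : c (2 * Real.pi) = c 0 := by
        rw [hc]
        show L.symm _ = L.symm _
        congr 1
        push_cast
        rw [Complex.exp_two_pi_mul_I, zero_mul, Complex.exp_zero]
      show g (β (c (2 * Real.pi))) + (Real.log (γ (c (2 * Real.pi))) : ℂ)
        - ((2 * Real.pi : ℝ) : ℂ) * Complex.I = g (β (c 0)) + (Real.log (γ (c 0)) : ℂ)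
        - ((0 : ℝ) : ℂ) * Complex.I - 2 * Real.pi * Complex.I
      rw [h1]
      push_cast
      ring
  · -- dimension at least 3
    have hle : 3 ≤ Module.finrank ℝ (vectorSpan ℝ F) := by rw [← hk]; exact hk3
    obtain ⟨ι, hιinj⟩ : ∃ ι : (Fin 3 → ℝ) →ₗ[ℝ] vectorSpan ℝ F, Function.Injective ι := by
      have b := Module.finBasis ℝ (vectorSpan ℝ F)
      refine ⟨Fintype.linearCombination ℝ (fun i : Fin 3 => b (Fin.castLE hle i)), ?_⟩
      rw [← linearIndependent_iff_injective_fintypeLinearCombination]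
      exact b.linearIndependent.comp _ (Fin.castLE_injective hle)
    have hιc : Continuous ι := LinearMap.continuous_of_finiteDimensional ι
    have hιne : ∀ v, v ≠ 0 → ι v ≠ 0 := fun v hv h =>
      hv (hιinj (by rw [h, map_zero]))
    have hsF : ContinuousOn s (f ⁻¹' F) := hs.mono hFU
    obtain ⟨M, hM⟩ := hcomp.exists_bound_of_continuousOn hsF
    have hM0 : 0 ≤ M := (norm_nonneg _).trans (hM x0 hx0)
    obtain ⟨G, hG⟩ : ∃ G : (Fin 3 → ℝ) → ℂ, G = fun v => s (β (ι v)) := ⟨_, rfl⟩
    have hGM : ∀ v, v ≠ 0 → ‖G v‖ ≤ M := by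
      intro v hv
      rw [hG]
      exact hM _ (hβF _ (hιne v hv))
    have hGc : ∀ v, v ≠ 0 → ContinuousAt G v := by
      intro v hv
      have h1 : ContinuousOn (fun v => β (ι v)) {0}ᶜ :=
        hβc.comp hιc.continuousOn (fun v hv => hιne v hv)
      have h2 : ContinuousOn G {0}ᶜ := by
        rw [hG]
        exact hsF.comp h1 (fun v hv => hβF _ (hιne v hv))
      exact h2.continuousAt (isOpen_compl_singleton.mem_nhds hv)
    obtain ⟨g0, hg0⟩ : ∃ g0 : (Fin 3 → ℝ) → ℂ, g0 = fun v => (‖v‖ : ℂ) * (G v - G (-v)) :=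
      ⟨_, rfl⟩
    have hg0v : ∀ v, g0 v = (‖v‖ : ℂ) * (G v - G (-v)) := by intro v; rw [hg0]
    have hg0b : ∀ v, ‖g0 v‖ ≤ ‖v‖ * (2 * M) := by
      intro v
      rw [hg0v, norm_mul, Complex.norm_real, norm_norm]
      by_cases hv : v = 0
      · rw [hv]; simp
      · apply mul_le_mul_of_nonneg_left _ (norm_nonneg _)
        have h1 := hGM v hv
        have h2 := hGM (-v) (neg_ne_zero.2 hv)
        exact (norm_sub_le _ _).trans (by linarith)
    have hg0c : Continuous g0 := by
      rw [continuous_iff_continuousAt]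
      intro v
      by_cases hv : v = 0
      · rw [hv]
        have h1 : g0 0 = 0 := by rw [hg0v]; simp
        show Filter.Tendsto g0 (𝓝 0) (𝓝 (g0 0))
        rw [h1]
        apply squeeze_zero_norm hg0b
        have h2 : Continuous fun v : Fin 3 → ℝ => ‖v‖ * (2 * M) := by fun_prop
        have h3 := h2.tendsto 0
        simpa using h3
      · rw [hg0]
        apply ContinuousAt.mul
        · exact (Complex.continuous_ofReal.comp continuous_norm).continuousAt
        · apply (hGc v hv).sub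
          exact ContinuousAt.comp (f := fun v : Fin 3 → ℝ => -v) (hGc (-v) (neg_ne_zero.2 hv))
            continuous_neg.continuousAt
    have hodd : ∀ v, g0 (-v) = -g0 v := by
      intro v
      rw [hg0v, hg0v, norm_neg, neg_neg]
      ring
    obtain ⟨v, hv1, hv2⟩ := BU (fun v => ![(g0 v).re, (g0 v).im])
      (by
        apply continuous_pi
        intro i
        fin_cases i
        · exact Complex.continuous_re.comp hg0c
        · exact Complex.continuous_im.comp hg0c)
      (by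
        intro v
        show ![(g0 (-v)).re, (g0 (-v)).im] = -![(g0 v).re, (g0 v).im]
        rw [hodd v]
        funext i
        fin_cases i <;> simp)
    have hv : v ≠ 0 := by
      intro h
      rw [h] at hv1
      simp at hv1
    have hre : (g0 v).re = 0 := congrFun hv2 0
    have him : (g0 v).im = 0 := congrFun hv2 1
    have hz0 : g0 v = 0 := Complex.ext hre him
    rw [hg0v] at hz0
    have hnv : (‖v‖ : ℂ) ≠ 0 := by
      exact_mod_cast (norm_pos_iff.2 hv).ne'
    have hGG : G v = G (-v) := by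
      rcases mul_eq_zero.1 hz0 with h | h
      · exact absurd h hnv
      · exact sub_eq_zero.1 h
    rw [hG] at hGG
    have hne1 : ι v ≠ 0 := hιne v hv
    have hne2 : ι (-v) ≠ 0 := hιne _ (neg_ne_zero.2 hv)
    have hββ : β (ι v) = β (ι (-v)) := hsi (hFU (hβF _ hne1)) (hFU (hβF _ hne2)) hGG
    have h1 := hfβ _ hne1
    rw [hββ, hfβ _ hne2] at h1
    have h2 : ((γ (ι (-v)))⁻¹ • ι (-v) : vectorSpan ℝ F) = (γ (ι v))⁻¹ • ι v :=
      Subtype.ext (add_left_cancel h1)
    rw [map_neg] at h2 hne2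
    have h3 : ((γ (ι v))⁻¹ + (γ (-ι v))⁻¹) • ι v = 0 := by
      rw [add_smul, ← h2]
      simp
    have h4 : 0 < (γ (ι v))⁻¹ + (γ (-ι v))⁻¹ :=
      add_pos (inv_pos.2 (hγ _ hne1)) (inv_pos.2 (hγ _ hne2))
    rcases smul_eq_zero.1 h3 with h | h
    · exact absurd h h4.ne'
    · exact hne1 h

end Pool.Agent.Helper874.TT
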