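import Pool.Agent.Helper874.TT.Top
import Pool.Agent.Helper874.TT.Eil
import Pool.Agent.Helper874.TT.OddA
import Pool.Agent.Helper874.TT.OddB
import Pool.Agent.Helper874.TT.NSsec
import Pool.Agent.Helper874.TT.Surj
import Pool.Agent.Helper874.TT.Face
import Pool.Agent.Helper874.TT.Data
import Pool.Agent.Helper325.BorsukUlam

/-! First part of the assembly. -/

namespace Pool.Agent.Helper874.TT

open Set Topology Metric

theorem ns_arc {p q : ℂ} {r : ℝ} {C : Set ℂ} (hr : 0 < r) (hC : C ⊆ sphere p r)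
    (hq : q ∈ sphere p r) (hqC : q ∉ C) : NS C := by
  -- rays
  have hray : ∀ w : ℂ, w ∉ C → r ≤ ‖w - p‖ → ∀ R : ℝ, ∃ D : Set ℂ, IsPreconnected D ∧ D ⊆ Cᶜ ∧
      w ∈ D ∧ ∃ q ∈ D, R < ‖q‖ := by
    intro w hw hwr R
    have hwp : 0 < ‖w - p‖ := lt_of_lt_of_le hr hwr
    refine ⟨(fun t : ℝ => w + (t : ℂ) * (w - p)) '' Ici 0, ?_, ?_, ⟨0, self_mem_Ici, by simp⟩, ?_⟩
    · exact isPreconnected_Ici.image _ (by fun_prop)
    · rintro _ ⟨t, ht, rfl⟩ hmem
      have ht0 : 0 ≤ t := ht
      rcases ht0.eq_or_lt with h | h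
      · apply hw
        rw [← h] at hmem
        simpa using hmem
      · have h1 := hC hmem
        rw [mem_sphere_iff_norm] at h1
        have h2 : w + (t : ℂ) * (w - p) - p = ((1 + t : ℝ) : ℂ) * (w - p) := by
          push_cast; ring
        rw [h2, norm_mul, Complex.norm_real, Real.norm_of_nonneg (by linarith)] at h1
        nlinarith
    · obtain ⟨t, ht⟩ : ∃ t : ℝ, 0 ≤ t ∧ R + ‖w‖ < t * ‖w - p‖ := by
        refine ⟨max 0 ((R + ‖w‖ + 1) / ‖w - p‖), le_max_left _ _, ?_⟩
        have h1 : (R + ‖w‖ + 1) / ‖w - p‖ ≤ max 0 ((R + ‖w‖ + 1) / ‖w - p‖) := le_max_right _ _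
        rw [div_le_iff₀ hwp] at h1
        linarith
      refine ⟨_, ⟨t, ht.1, rfl⟩, ?_⟩
      have h3 : ‖(t : ℂ) * (w - p)‖ = t * ‖w - p‖ := by
        rw [norm_mul, Complex.norm_real, Real.norm_of_nonneg ht.1]
      have h4 : ‖(t : ℂ) * (w - p)‖ ≤ ‖w + (t : ℂ) * (w - p)‖ + ‖w‖ := by
        have := norm_sub_le (w + (t : ℂ) * (w - p)) w
        simpa using this
      linarith [ht.2]
  intro w hw R
  rcases le_or_gt r ‖w - p‖ with h | h
  · exact hray w hw h R
  · obtain ⟨D, hD1, hD2, hD3, q', hq', hR⟩ := hray q hqC (by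
      rw [mem_sphere_iff_norm] at hq; rw [hq]) R
    refine ⟨(ball p r ∪ {q}) ∪ D, ?_, ?_, Or.inl (Or.inl (by rwa [mem_ball_iff_norm])), q',
      Or.inr hq', hR⟩
    · have h1 : IsPreconnected (ball p r ∪ {q}) := by
        refine (convex_ball p r).isPreconnected.subset_closure subset_union_left ?_
        rw [closure_ball p hr.ne']
        rintro x (hx | hx)
        · exact ball_subset_closedBall hx
        · rw [mem_singleton_iff] at hx
          rw [hx]
          exact sphere_subset_closedBall hq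
      exact h1.union q (Or.inr rfl) hD3 hD1
    · rintro x ((hx | hx) | hx)
      · intro hxC
        have h1 := hC hxC
        rw [mem_sphere_iff_norm] at h1
        rw [mem_ball_iff_norm] at hx
        linarith
      · rw [mem_singleton_iff] at hx
        rw [hx]; exact hqC
      · exact hD2 hx

theorem arc (p q : ℂ) (r : ℝ) (C : Set ℂ) (hr : 0 < r) (hCc : IsClosed C) (hC : C ⊆ sphere p r)
    (hq : q ∈ sphere p r) (hqC : q ∉ C) (u : ℂ → ℂ) (hu : ContinuousOn u C)
    (h0 : ∀ z ∈ C, u z ≠ 0) : LogOn u C :=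
  eilenberg ((isCompact_sphere p r).of_isClosed_subset hCc hC) (ns_arc hr hC hq hqC) hu h0

/-- a free involution on a closed subset of the torus admits an odd map to the punctured plane -/
theorem odd_all (K : Set T) (hK : IsClosed K) (σ : T → T) (hσ : ContinuousOn σ K)
    (hm : MapsTo σ K K) (hinv : ∀ x ∈ K, σ (σ x) = x) (hfree : ∀ x ∈ K, σ x ≠ x) :
    ∃ g : T → ℂ, ContinuousOn g K ∧ ∀ x ∈ K, g x ≠ 0 ∧ g (σ x) = - g x := by
  by_cases h : K = univ
  · subst h
    obtain ⟨g, hg, hg'⟩ := OddB.oddB σ (continuousOn_univ.1 hσ) (fun x => hinv x (mem_univ x))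
      (fun x => hfree x (mem_univ x))
    exact ⟨g, hg.continuousOn, fun x _ => hg' x⟩
  · exact OddA.oddA arc K hK h σ hσ hm hinv hfree

theorem bu (m : ℕ) (g : (Fin (m + 1) → ℝ) → (Fin m → ℝ)) (hg : Continuous g)
    (hodd : ∀ x, g (-x) = -g x) : ∃ x : Fin (m + 1) → ℝ, ∑ i, |x i| = 1 ∧ g x = 0 := by
  obtain ⟨x, hx, hx'⟩ := Pool.Agent.Helper325.BorsukUlam.borsuk_ulam m g hg hodd
  exact ⟨x, hx, hx'⟩

section

variable {E : Type*} [NormedAddCommGroup E] [InnerProductSpace ℝ E]

/-- logarithms over good faces in an inessential open set -/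
theorem log_good {f : T → E} (hf : Continuous f) {U : Set T} (hU : IsOpen U)
    (hUp : IsPreconnected U) (hUin : ¬ Ess U) {z₀ : ℂ} (h0 : pr z₀ ∈ U) {s : T → ℂ}
    (hs : ContinuousOn s U) (hs1 : ∀ x ∈ U, s x ∈ comp U z₀ ∧ pr (s x) = x)
    (hs2 : ∀ z ∈ comp U z₀, s (pr z) = z) {F : Set E} (hF : Good f F) (hFU : f ⁻¹' F ⊆ U)
    (u : T → ℂ) (hu : ContinuousOn u (f ⁻¹' F)) (hu0 : ∀ x ∈ f ⁻¹' F, u x ≠ 0) :
    LogOn u (f ⁻¹' F) := by
  have hset : F ∩ {x : E | (0 : ℝ) ≤ inner ℝ (0 : E) x} = F := by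
    ext x; simp
  have hYp : IsPreconnected (f ⁻¹' F) := by
    have := hF.pre 0 0
    rwa [hset] at this
  have hYc : IsPreconnected (f ⁻¹' F)ᶜ := by
    have := hF.cpre 0 0
    rwa [hset] at this
  have hY : IsCompact (f ⁻¹' F) := (hF.comp.isClosed.preimage hf).isCompact
  have hns : NS (s '' (f ⁻¹' F)) :=
    ns_section (fun h _ _ h₁ h₂ => no_cover h h₁ h₂) hU hUp hUin hY hYp hYc hFU h0 hs hs1 hs2
  have hsc : ContinuousOn s (f ⁻¹' F) := hs.mono hFU
  obtain ⟨g, hg, hg'⟩ := eilenberg (K := s '' (f ⁻¹' F)) (hY.image_of_continuousOn hsc) hns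
    (u := fun z => u (pr z)) (by
      refine hu.comp continuous_pr.continuousOn ?_
      rintro _ ⟨x, hx, rfl⟩
      rw [(hs1 x (hFU hx)).2]; exact hx) (by
      rintro _ ⟨x, hx, rfl⟩
      rw [(hs1 x (hFU hx)).2]; exact hu0 x hx)
  refine ⟨fun x => g (s x), hg.comp hsc (mapsTo_image _ _), fun x hx => ?_⟩
  have h1 := hg' _ ⟨x, hx, rfl⟩
  simp only [(hs1 x (hFU hx)).2] at h1
  exact h1

variable [FiniteDimensional ℝ E]

/-- good sets over an inessential open set are covered -/
theorem good_surj {f : T → E} (hf : Continuous f) (hloc : ∀ x, ∃ U ∈ 𝓝 x, InjOn f U)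
    {U : Set T} (hU : IsOpen U) (hUp : IsPreconnected U) (hUin : ¬ Ess U) {F : Set E}
    (hF : Good f F) (hFU : f ⁻¹' F ⊆ U) : F ⊆ range f := by
  rcases F.eq_empty_or_nonempty with rfl | hne
  · exact empty_subset _
  obtain ⟨x₀, hx₀⟩ : (f ⁻¹' F).Nonempty := by
    have hset : F ∩ {x : E | (0 : ℝ) ≤ inner ℝ (0 : E) x} = F := by
      ext x; simp
    have := hF.ne 0 0
    rw [hset] at this
    exact this hne
  obtain ⟨z₀, rfl⟩ := pr_surjective x₀
  have h0 : pr z₀ ∈ U := hFU hx₀
  obtain ⟨s, hs, hs1, hs2⟩ := exists_section hU hUp hUin h0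
  refine Good.surj_of hf (fun F m h => h.face hf m) (fun F h hc => h.inj hf hloc hc) (bu 2) hs ?_
    (fun F' hF' hFU' u hu hu0 => log_good hf hU hUp hUin h0 hs hs1 hs2 hF' hFU' u hu hu0) hF hFU
  intro x hx y hy hxy
  rw [← (hs1 x hx).2, ← (hs1 y hy).2, hxy]

/-- the hull -/
theorem good_hull {f : T → E} (hf : Continuous f)
    (htp : ∀ (m : E) (c : ℝ), IsPreconnected {x | c ≤ inner ℝ m (f x)}) :
    Good f (closure (convexHull ℝ (range f))) := by
  have hsub : range f ⊆ closure (convexHull ℝ (range f)) :=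
    (subset_convexHull ℝ _).trans subset_closure
  have hpre : ∀ (m : E) (c : ℝ), f ⁻¹' (closure (convexHull ℝ (range f)) ∩
      {x | c ≤ inner ℝ m x}) = {x | c ≤ inner ℝ m (f x)} := by
    intro m c
    ext x
    simp only [mem_preimage, mem_inter_iff, mem_ofPred_eq, and_iff_right_iff_imp]
    exact fun _ => hsub ⟨x, rfl⟩
  have hcomp : IsCompact (range f) := isCompact_range hf
  refine ⟨(convex_convexHull ℝ _).closure, ?_, ?_, ?_, ?_⟩
  · refine isCompact_of_isClosed_isBounded isClosed_closure ?_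
    exact ((isBounded_convexHull).2 hcomp.isBounded).closure
  · intro m c
    rw [hpre]; exact htp m c
  · intro m c
    rw [hpre]
    have h1 := precon_strict (ρ := fun x => inner ℝ (-m) (f x)) (fun c => htp (-m) c) (-c)
    have h2 : {x | c ≤ inner ℝ m (f x)}ᶜ = {x | -c < inner ℝ (-m) (f x)} := by
      ext x
      simp only [mem_compl_iff, mem_ofPred_eq, not_le, inner_neg_left]
      constructor <;> intro h <;> linarith
    rw [h2]; exact h1
  · intro m c hne
    rw [hpre]
    obtain ⟨y, hy, hyc⟩ := hne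
    by_contra hcon
    rw [not_nonempty_iff_eq_empty] at hcon
    have hlt : ∀ x, inner ℝ m (f x) < c := by
      intro x
      by_contra h
      push Not at h
      have : x ∈ ({x | c ≤ inner ℝ m (f x)} : Set T) := h
      rw [hcon] at this
      exact this
    have hc : Continuous (fun x => inner ℝ m (f x)) := continuous_const.inner hf
    obtain ⟨x₀, -, hx₀⟩ := isCompact_univ.exists_isMaxOn ⟨(0 : T), mem_univ _⟩ hc.continuousOn
    have hcl : closure (convexHull ℝ (range f)) ⊆ {x | inner ℝ m x ≤ inner ℝ m (f x₀)} := by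
      refine closure_minimal (convexHull_min ?_ ?_) ?_
      · rintro _ ⟨x, rfl⟩
        exact hx₀ (mem_univ x)
      · exact convex_halfSpace_le (IsLinearMap.mk (fun x y => inner_add_right _ _ _)
          (fun c x => by rw [inner_smul_right]; rfl)) _
      · exact isClosed_le (continuous_const.inner continuous_id) continuous_const
    have h1 : inner ℝ m y ≤ inner ℝ m (f x₀) := hcl hy
    have h2 : c ≤ inner ℝ m y := hyc
    have h3 := hlt x₀
    linarith

/-- nearest point projection to a symmetric compact convex set -/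
theorem exists_proj {H : Set E} (hne : H.Nonempty) (hc : IsCompact H) (hconv : Convex ℝ H)
    (hsym : ∀ x ∈ H, -x ∈ H) : ∃ P : E → E, Continuous P ∧ (∀ y, P y ∈ H) ∧
      (∀ y, P (-y) = - P y) ∧ ∀ y, ∀ w ∈ H, inner ℝ (y - P y) w ≤ inner ℝ (y - P y) (P y) := by
  have h1 : ∀ y : E, ∃ p ∈ H, ∀ w ∈ H, inner ℝ (y - p) w ≤ inner ℝ (y - p) p := by
    intro y
    obtain ⟨p, hp, hp'⟩ := exists_norm_eq_iInf_of_complete_convex hne hc.isComplete hconv y
    refine ⟨p, hp, fun w hw => ?_⟩
    have := (norm_eq_iInf_iff_real_inner_le_zero hconv hp).1 hp' w hw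
    rw [inner_sub_right] at this
    linarith
  choose P hP hP' using h1
  have hlip : ∀ y y', ‖P y' - P y‖ ≤ ‖y' - y‖ := by
    intro y y'
    have e1 := hP' y (P y') (hP y')
    have e2 := hP' y' (P y) (hP y)
    have e3 : ‖P y' - P y‖ ^ 2 ≤ inner ℝ (y' - y) (P y' - P y) := by
      rw [← real_inner_self_eq_norm_sq]
      simp only [inner_sub_left, inner_sub_right] at e1 e2 ⊢
      linarith [real_inner_comm (P y') (P y)]
    have e4 := real_inner_le_norm (y' - y) (P y' - P y)
    by_contra hcon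
    push Not at hcon
    have h0 := norm_nonneg (y' - y)
    nlinarith
  have huniq : ∀ y p, p ∈ H → (∀ w ∈ H, inner ℝ (y - p) w ≤ inner ℝ (y - p) p) → P y = p := by
    intro y p hp hpw
    have e1 := hP' y p hp
    have e2 := hpw (P y) (hP y)
    have e3 : ‖P y - p‖ ^ 2 ≤ 0 := by
      rw [← real_inner_self_eq_norm_sq]
      simp only [inner_sub_left, inner_sub_right] at e1 e2 ⊢
      linarith [real_inner_comm (P y) p]
    have e4 : ‖P y - p‖ = 0 := by
      have := norm_nonneg (P y - p)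
      nlinarith
    exact sub_eq_zero.1 (norm_eq_zero.1 e4)
  refine ⟨P, ?_, hP, ?_, hP'⟩
  · refine (LipschitzWith.of_dist_le_mul (K := 1) fun x y => ?_).continuous
    rw [dist_eq_norm, dist_eq_norm, NNReal.coe_one, one_mul]
    exact hlip y x
  · intro y
    refine huniq (-y) (-P y) (hsym _ (hP y)) fun w hw => ?_
    have := hP' y (-w) (hsym w hw)
    have e : -y - -P y = -(y - P y) := by abel
    rw [e, inner_neg_left, inner_neg_left, inner_neg_right]
    rw [inner_neg_right] at this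
    linarith

end

end Pool.Agent.Helper874.TT
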