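import Pool.Agent.Helper874.TT.Data2

namespace Pool.Agent.Helper874.TT

open Set Topology Metric

/-- weighted mean of `l` with weight `ρ⁺` over the finite set `t` -/
noncomputable def mean (t : Finset T) (ρ l : C(T, ℝ)) : ℝ :=
  (∑ x ∈ t, l x * max (ρ x) 0) / (∑ x ∈ t, max (ρ x) 0)

noncomputable def val (t : Finset T) (ρ lP lQ : C(T, ℝ)) (k : ℤ) : ℂ :=
  Complex.exp (((Real.pi * (mean t ρ lP + mean t (-ρ) lQ + k) : ℝ) : ℂ) * Complex.I)

theorem norm_val (t : Finset T) (ρ lP lQ : C(T, ℝ)) (k : ℤ) : ‖val t ρ lP lQ k‖ = 1 :=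
  Complex.norm_exp_ofReal_mul_I _

theorem mean_shift {t : Finset T} {ρ l l' : C(T, ℝ)} {i : ℝ} (h : ∀ x, 0 ≤ ρ x → l' x = l x + i)
    (hpos : ∃ x ∈ t, 0 < ρ x) : mean t ρ l' = mean t ρ l + i := by
  have hs : (0 : ℝ) < ∑ x ∈ t, max (ρ x) 0 := by
    obtain ⟨x, hx, hx'⟩ := hpos
    exact Finset.sum_pos' (fun _ _ => le_max_right _ _) ⟨x, hx, lt_max_of_lt_left hx'⟩
  unfold mean
  rw [div_add' _ _ _ hs.ne']
  congr 1
  rw [Finset.mul_sum, ← Finset.sum_add_distrib]
  refine Finset.sum_congr rfl fun x _ => ?_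
  rcases le_or_gt 0 (ρ x) with h0 | h0
  · rw [h x h0]; ring
  · rw [max_eq_right h0.le]; ring

theorem continuousAt_mean {t : Finset T} {ρ₀ l : C(T, ℝ)} (hpos : ∃ x ∈ t, 0 < ρ₀ x) :
    ContinuousAt (fun ρ : C(T, ℝ) => mean t ρ l) ρ₀ := by
  have hs : (0 : ℝ) < ∑ x ∈ t, max (ρ₀ x) 0 := by
    obtain ⟨x, hx, hx'⟩ := hpos
    exact Finset.sum_pos' (fun _ _ => le_max_right _ _) ⟨x, hx, lt_max_of_lt_left hx'⟩
  have hev : ∀ x : T, Continuous (fun ρ : C(T, ℝ) => max (ρ x) 0) := fun x =>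
    (continuous_eval_const x).max continuous_const
  unfold mean
  refine ContinuousAt.div ?_ ?_ hs.ne'
  · exact (continuous_finsetSum _ fun x _ => continuous_const.mul (hev x)).continuousAt
  · exact (continuous_finsetSum _ fun x _ => hev x).continuousAt

/-- the value does not depend on the data -/
theorem val_unique {t : Finset T} {ρ : C(T, ℝ)} (h1 : IsPreconnected {x | 0 ≤ ρ x})
    (h2 : IsPreconnected {x | ρ x ≤ 0}) (hE : Ess {x | 0 < ρ x})
    (ht : ∃ x ∈ t, 0 < ρ x) (ht' : ∃ x ∈ t, 0 < (-ρ) x)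
    {m n m' n' : ℤ} {lP lQ lP' lQ' : C(T, ℝ)} {k k' : ℤ} (d : Dat ρ m n lP lQ k)
    (d' : Dat ρ m' n' lP' lQ' k') : val t ρ lP lQ k = val t ρ lP' lQ' k' := by
  obtain ⟨a, b, hab, hL⟩ := hE
  have hL0 : Lam {x | 0 ≤ ρ x} a b := hL.mono fun x hx => le_of_lt (show 0 < ρ x from hx)
  obtain ⟨rfl, rfl⟩ := pos_unique hab d.pos d'.pos (lift_loop d.liftP hL0)
    (lift_loop d'.liftP hL0)
  obtain ⟨xP, hxP, hxP'⟩ := ht
  obtain ⟨xQ, hxQ, hxQ'⟩ := ht'
  have hxQ0 : ρ xQ ≤ 0 := by
    rw [ContinuousMap.neg_apply] at hxQ'; linarith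
  obtain ⟨i, hi⟩ := lift_diff_int d'.liftP d.liftP (x := xP) (show 0 ≤ ρ xP from hxP'.le)
    (show 0 ≤ ρ xP from hxP'.le)
  obtain ⟨j, hj⟩ := lift_diff_int d'.liftQ d.liftQ (x := xQ) (show ρ xQ ≤ 0 from hxQ0)
    (show ρ xQ ≤ 0 from hxQ0)
  have hP : ∀ x, 0 ≤ ρ x → lP' x = lP x + i := by
    intro x hx
    have := int_const (g := fun x => lP' x - lP x) h1
      ((lP'.continuous.sub lP.continuous).continuousOn)
      (fun y hy => lift_diff_int d'.liftP d.liftP hy hy) (show 0 ≤ ρ x from hx)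
      (show 0 ≤ ρ xP from hxP'.le)
    simp only [hi] at this
    linarith
  have hQ : ∀ x, ρ x ≤ 0 → lQ' x = lQ x + j := by
    intro x hx
    have := int_const (g := fun x => lQ' x - lQ x) h2
      ((lQ'.continuous.sub lQ.continuous).continuousOn)
      (fun y hy => lift_diff_int d'.liftQ d.liftQ hy hy) (show ρ x ≤ 0 from hx)
      (show ρ xQ ≤ 0 from hxQ0)
    simp only [hj] at this
    linarith
  -- both values are attained
  obtain ⟨x, hx, hxk⟩ : ∃ x, ρ x = 0 ∧ lP x - lQ x = k := by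
    by_contra hcon
    push Not at hcon
    exact d.nonconst (k + 1) (fun x hx => (d.diff x hx).resolve_left (hcon x hx))
      ⟨k + 1, by push_cast; rfl⟩
  obtain ⟨y, hy, hyk⟩ : ∃ y, ρ y = 0 ∧ lP y - lQ y = k + 1 := by
    by_contra hcon
    push Not at hcon
    exact d.nonconst k (fun x hx => (d.diff x hx).resolve_right (hcon x hx)) ⟨k, rfl⟩
  have hk : k' = k + i - j := by
    have e1 := d'.diff x hx
    have e2 := d'.diff y hy
    rw [hP x hx.ge, hQ x hx.le] at e1
    rw [hP y hy.ge, hQ y hy.le] at e2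
    have e1' : (k : ℝ) + i - j = k' ∨ (k : ℝ) + i - j = k' + 1 := by
      rcases e1 with e | e
      · left; linarith
      · right; linarith
    have e2' : (k : ℝ) + 1 + i - j = k' ∨ (k : ℝ) + 1 + i - j = k' + 1 := by
      rcases e2 with e | e
      · left; linarith
      · right; linarith
    have e1'' : k + i - j = k' ∨ k + i - j = k' + 1 := by exact_mod_cast e1'
    have e2'' : k + 1 + i - j = k' ∨ k + 1 + i - j = k' + 1 := by exact_mod_cast e2'
    omega
  have hm1 : mean t ρ lP' = mean t ρ lP + i := mean_shift hP ⟨xP, hxP, hxP'⟩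
  have hm2 : mean t (-ρ) lQ' = mean t (-ρ) lQ + j := by
    refine mean_shift (fun x hx => hQ x ?_) ⟨xQ, hxQ, hxQ'⟩
    rw [ContinuousMap.neg_apply] at hx; linarith
  unfold val
  rw [hm1, hm2, hk, Complex.exp_eq_exp_iff_exists_int]
  refine ⟨-i, ?_⟩
  push_cast
  ring

theorem Dat.swap {ρ : C(T, ℝ)} {m n : ℤ} {lP lQ : C(T, ℝ)} {k : ℤ} (d : Dat ρ m n lP lQ k) :
    Dat (-ρ) m n lQ lP (-k - 1) := by
  refine ⟨d.pos, ?_, ?_, ?_⟩
  · intro z hz
    refine d.liftQ z ?_
    have : 0 ≤ (-ρ) (pr z) := hz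
    rw [ContinuousMap.neg_apply] at this
    show ρ (pr z) ≤ 0
    linarith
  · intro z hz
    refine d.liftP z ?_
    have : (-ρ) (pr z) ≤ 0 := hz
    rw [ContinuousMap.neg_apply] at this
    show 0 ≤ ρ (pr z)
    linarith
  · intro x hx
    rw [ContinuousMap.neg_apply] at hx
    rcases d.diff x (by linarith) with h | h
    · right; push_cast; linarith
    · left; push_cast; linarith

theorem val_swap (t : Finset T) (ρ lP lQ : C(T, ℝ)) (k : ℤ) :
    val t (-ρ) lQ lP (-k - 1) = - val t ρ lP lQ k := by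
  unfold val
  rw [neg_neg]
  have h1 : (-1 : ℂ) = Complex.exp ((((-2 * (k : ℝ) - 1) * Real.pi : ℝ) : ℂ) * Complex.I) := by
    have : ((((-2 * (k : ℝ) - 1) * Real.pi : ℝ) : ℂ) * Complex.I) =
        Real.pi * Complex.I + ((-k - 1 : ℤ) : ℂ) * (2 * Real.pi * Complex.I) := by
      push_cast; ring
    rw [this, Complex.exp_add, Complex.exp_int_mul_two_pi_mul_I, Complex.exp_pi_mul_I]
    simp
  have h2 : ∀ A : ℂ, -A = (-1) * A := fun A => by ring
  rw [h2 (Complex.exp _), h1, ← Complex.exp_add]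
  congr 1
  push_cast
  ring

theorem theta_exists {E : Type*} [NormedAddCommGroup E] [NormedSpace ℝ E] (r : C(E, C(T, ℝ)))
    (hodd : ∀ l, r (-l) = - r l) (h1 : ∀ (l : E) (c : ℝ), IsPreconnected {x | c ≤ r l x})
    (t : Finset T) (ht : ∀ l, Ess {x | 0 < r l x} → ∃ x ∈ t, 0 < r l x) :
    ∃ Θ : E → ℂ, Continuous Θ ∧ (∀ l, Θ (-l) = - Θ l) ∧
      ∀ l, Ess {x | 0 < r l x} → Ess {x | r l x < 0} → Θ l ≠ 0 := by
  classical
  have h2 : ∀ (l : E) (c : ℝ), IsPreconnected {x | r l x ≤ c} := by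
    intro l c
    have : {x | r l x ≤ c} = {x | -c ≤ r (-l) x} := by
      ext x
      simp only [mem_ofPred_eq, hodd, ContinuousMap.neg_apply]
      constructor <;> intro h <;> linarith
    rw [this]; exact h1 _ _
  have hneg : ∀ l, {x | 0 < r (-l) x} = {x | r l x < 0} := by
    intro l
    ext x
    simp only [mem_ofPred_eq, hodd, ContinuousMap.neg_apply]
    constructor <;> intro h <;> linarith
  have hneg' : ∀ l, {x | r (-l) x < 0} = {x | 0 < r l x} := by
    intro l
    ext x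
    simp only [mem_ofPred_eq, hodd, ContinuousMap.neg_apply]
    constructor <;> intro h <;> linarith
  set S : Set E := {l | Ess {x | 0 < r l x} ∧ Ess {x | r l x < 0}} with hS
  have hSneg : ∀ l, -l ∈ S ↔ l ∈ S := by
    intro l
    simp only [hS, mem_ofPred_eq, hneg, hneg']
    exact and_comm
  have ht2 : ∀ l ∈ S, ∃ x ∈ t, 0 < (-(r l)) x := by
    intro l hl
    have := ht (-l) (by rw [hneg]; exact hl.2)
    rwa [hodd] at this
  -- local data
  have hloc : ∀ l ∈ S, ∃ (m n : ℤ) (lP lQ : C(T, ℝ)) (k : ℤ) (ε : ℝ), 0 < ε ∧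
      ∀ l', ‖r l' - r l‖ ≤ ε → Dat (r l') m n lP lQ k := by
    intro l hl
    obtain ⟨m, n, lP, lQ, k, ε, hε, hpos, hP, hQ, hd⟩ := exists_dat (h1 l) (h2 l) hl.1 hl.2
    refine ⟨m, n, lP, lQ, k, ε, hε, fun l' hl' => ?_⟩
    have hb : ∀ x, |r l' x - r l x| ≤ ε := fun x => by
      have := ContinuousMap.norm_coe_le_norm (r l' - r l) x
      rw [ContinuousMap.sub_apply, Real.norm_eq_abs] at this
      exact this.trans hl'
    refine ⟨hpos, ?_, ?_, ?_⟩
    · intro z hz
      refine hP z ?_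
      have h3 : 0 ≤ r l' (pr z) := hz
      have h4 := abs_le.1 (hb (pr z))
      show -ε ≤ r l (pr z)
      linarith [h4.2]
    · intro z hz
      refine hQ z ?_
      have h3 : r l' (pr z) ≤ 0 := hz
      have h4 := abs_le.1 (hb (pr z))
      show r l (pr z) ≤ ε
      linarith [h4.1]
    · intro x hx
      refine hd x ?_
      have h4 := hb x
      rw [hx, zero_sub, abs_neg] at h4
      exact h4
  -- `S` is open
  have hSo : IsOpen S := by
    have haux : ∀ l, Ess {x | 0 < r l x} → ∀ᶠ l' in 𝓝 l, Ess {x | 0 < r l' x} := by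
      rintro l ⟨a, b, hab, hL⟩
      obtain ⟨ε, hε, hL'⟩ := lam_shrink hL
      have hev : ∀ᶠ l' in 𝓝 l, dist (r l') (r l) < ε :=
        (r.continuous.tendsto l).eventually (Metric.ball_mem_nhds _ hε)
      filter_upwards [hev] with l' hl'
      refine ⟨a, b, hab, hL'.mono fun x hx => ?_⟩
      have h3 : dist (r l' x) (r l x) < ε := (ContinuousMap.dist_apply_le_dist x).trans_lt hl'
      rw [Real.dist_eq, abs_lt] at h3
      have h4 : ε ≤ r l x := hx
      show 0 < r l' x
      linarith [h3.1]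
    rw [isOpen_iff_mem_nhds]
    intro l hl
    have e1 := haux l hl.1
    have e2 := haux (-l) (by rw [hneg]; exact hl.2)
    have e3 : ∀ᶠ l' in 𝓝 l, Ess {x | 0 < r (-l') x} :=
      (continuous_neg.tendsto l).eventually e2
    filter_upwards [e1, e3] with l' h3 h4
    rw [hneg] at h4
    exact ⟨h3, h4⟩
  have h0S : (0 : E) ∉ S := by
    rintro ⟨⟨a, b, -, z, hz⟩, -⟩
    have h3 : 0 < r 0 (pr z) := hz.source_mem
    have h4 : r 0 = 0 := by
      have := hodd 0
      rw [neg_zero] at this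
      ext x
      have h5 := congrArg (fun g : C(T, ℝ) => g x) this
      simp only [ContinuousMap.neg_apply] at h5
      simp only [ContinuousMap.zero_apply]
      linarith
    rw [h4] at h3
    simp at h3
  -- the value function
  have hex : ∀ l ∈ S, ∃ v : ℂ, ∃ (m n : ℤ) (lP lQ : C(T, ℝ)) (k : ℤ), Dat (r l) m n lP lQ k ∧
      v = val t (r l) lP lQ k := by
    intro l hl
    obtain ⟨m, n, lP, lQ, k, ε, hε, h⟩ := hloc l hl
    exact ⟨_, m, n, lP, lQ, k, h l (by simp [hε.le]), rfl⟩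
  set V : E → ℂ := fun l => if hl : l ∈ S then (hex l hl).choose else 0 with hV
  have hVval : ∀ l ∈ S, ∀ (m n : ℤ) (lP lQ : C(T, ℝ)) (k : ℤ), Dat (r l) m n lP lQ k →
      V l = val t (r l) lP lQ k := by
    intro l hl m n lP lQ k d
    simp only [hV, dif_pos hl]
    obtain ⟨m', n', lP', lQ', k', d', hv⟩ := (hex l hl).choose_spec
    rw [hv]
    exact val_unique (h1 l 0) (h2 l 0) hl.1 (ht l hl.1) (ht2 l hl) d' d
  have hVnorm : ∀ l, ‖V l‖ ≤ 1 := by
    intro l
    by_cases hl : l ∈ S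
    · obtain ⟨m', n', lP', lQ', k', d', hv⟩ := (hex l hl).choose_spec
      simp only [hV, dif_pos hl]
      rw [hv, norm_val]
    · simp [hV, dif_neg hl]
  have hVne : ∀ l ∈ S, V l ≠ 0 := by
    intro l hl h0
    obtain ⟨m', n', lP', lQ', k', d', hv⟩ := (hex l hl).choose_spec
    simp only [hV, dif_pos hl] at h0
    rw [h0] at hv
    have := norm_val t (r l) lP' lQ' k'
    rw [← hv, norm_zero] at this
    exact zero_ne_one this
  have hVodd : ∀ l, V (-l) = - V l := by
    intro l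
    by_cases hl : l ∈ S
    · obtain ⟨m, n, lP, lQ, k, ε, hε, h⟩ := hloc l hl
      have d := h l (by simp [hε.le])
      rw [hVval l hl _ _ _ _ _ d]
      have d' := d.swap
      rw [← hodd] at d'
      rw [hVval (-l) ((hSneg l).2 hl) _ _ _ _ _ d', hodd, val_swap]
    · have hl' : -l ∉ S := fun h => hl ((hSneg l).1 h)
      simp only [hV, dif_neg hl, dif_neg hl', neg_zero]
  have hVc : ∀ l ∈ S, ContinuousAt V l := by
    intro l hl
    obtain ⟨m, n, lP, lQ, k, ε, hε, h⟩ := hloc l hl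
    have hev : ∀ᶠ l' in 𝓝 l, dist (r l') (r l) < ε :=
      (r.continuous.tendsto l).eventually (Metric.ball_mem_nhds _ hε)
    have heq : (fun l' => val t (r l') lP lQ k) =ᶠ[𝓝 l] V := by
      filter_upwards [hev, hSo.mem_nhds hl] with l' h3 h4
      rw [hVval l' h4 m n lP lQ k (h l' (by rw [← dist_eq_norm]; exact h3.le))]
    refine ContinuousAt.congr ?_ heq
    have c1 : ContinuousAt (fun l' => mean t (r l') lP) l :=
      (continuousAt_mean (ht l hl.1)).comp (f := fun l' => r l') r.continuous.continuousAt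
    have c2 : ContinuousAt (fun l' => mean t (-(r l')) lQ) l :=
      (continuousAt_mean (ht2 l hl)).comp (f := fun l' => -(r l')) r.continuous.neg.continuousAt
    unfold val
    refine Complex.continuous_exp.continuousAt.comp ?_
    refine ContinuousAt.mul ?_ continuousAt_const
    refine Complex.continuous_ofReal.continuousAt.comp ?_
    exact continuousAt_const.mul ((c1.add c2).add continuousAt_const)
  refine ⟨fun l => (infDist l Sᶜ : ℝ) * V l, ?_, ?_, ?_⟩
  · rw [continuous_iff_continuousAt]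
    intro l
    by_cases hl : l ∈ S
    · refine ContinuousAt.mul ?_ (hVc l hl)
      exact (Complex.continuous_ofReal.comp (continuous_infDist_pt _)).continuousAt
    · have h3 : infDist l Sᶜ = 0 := infDist_zero_of_mem hl
      unfold ContinuousAt
      simp only [h3, Complex.ofReal_zero, zero_mul]
      rw [tendsto_zero_iff_norm_tendsto_zero]
      have h4 : Filter.Tendsto (fun l' => infDist l' Sᶜ) (𝓝 l) (𝓝 0) := by
        have := (continuous_infDist_pt Sᶜ).tendsto l
        rwa [h3] at this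
      refine squeeze_zero (fun _ => norm_nonneg _) (fun l' => ?_) h4
      rw [norm_mul, Complex.norm_real, Real.norm_of_nonneg infDist_nonneg]
      exact mul_le_of_le_one_right infDist_nonneg (hVnorm l')
  · intro l
    have h3 : infDist (-l) Sᶜ = infDist l Sᶜ := by
      have himg : (fun x : E => -x) '' Sᶜ = Sᶜ := by
        ext x
        constructor
        · rintro ⟨y, hy, rfl⟩
          exact fun h => hy ((hSneg y).1 h)
        · intro hx
          exact ⟨-x, fun h => hx ((hSneg x).1 h), neg_neg x⟩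
      have := infDist_image (Φ := fun x : E => -x) isometry_neg (x := l) (t := Sᶜ)
      rw [himg] at this
      exact this
    simp only
    rw [hVodd, h3, mul_neg]
  · intro l hP hQ
    have hl : l ∈ S := ⟨hP, hQ⟩
    refine mul_ne_zero ?_ (hVne l hl)
    rw [Ne, Complex.ofReal_eq_zero]
    have hcl : IsClosed Sᶜ := hSo.isClosed_compl
    exact ((hcl.notMem_iff_infDist_pos ⟨0, h0S⟩).1 (fun h => h hl)).ne'

end Pool.Agent.Helper874.TT
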