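import Pool.Agent.Helper874.TT.Asm1
import Pool.Agent.Helper874.TT.Theta

/-! Centrally symmetric 0-tight tori: the core theorem. -/

namespace Pool.Agent.Helper874.TT

open Set Topology Metric

variable {E : Type*} [NormedAddCommGroup E] [InnerProductSpace ℝ E] [FiniteDimensional ℝ E]

/-- the exposed face of `H` in direction `l` -/
def Fc (H : Set E) (l : E) : Set E := H ∩ {x | ∀ y ∈ H, inner ℝ l y ≤ inner ℝ l x}

theorem mem_Fc_neg {H : Set E} (hs : ∀ x ∈ H, -x ∈ H) {l x : E} (h : x ∈ Fc H l) :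
    -x ∈ Fc H (-l) := by
  refine ⟨hs x h.1, fun y hy => ?_⟩
  have := h.2 (-y) (hs y hy)
  rw [inner_neg_right] at this
  rw [inner_neg_left, inner_neg_left, inner_neg_right]
  linarith

/-- the set of the finitely many test points -/
theorem exists_test {f : T → E} (hpos : ∀ l : E, l ≠ 0 → ∃ x, 0 < inner ℝ l (f x)) :
    ∃ t : Finset T, ∀ l : E, l ≠ 0 → ∃ x ∈ t, 0 < inner ℝ l (f x) := by
  have hcomp : IsCompact (sphere (0 : E) 1) := isCompact_sphere 0 1
  obtain ⟨t, ht⟩ := hcomp.elim_finite_subcover (fun x : T => {l : E | 0 < inner ℝ l (f x)})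
    (fun x => isOpen_lt continuous_const (continuous_id.inner continuous_const)) (by
      intro l hl
      have hl0 : l ≠ 0 := by
        rintro rfl
        simp at hl
      obtain ⟨x, hx⟩ := hpos l hl0
      exact mem_iUnion.2 ⟨x, hx⟩)
  refine ⟨t, fun l hl => ?_⟩
  have hn : 0 < ‖l‖ := norm_pos_iff.2 hl
  have h1 : ‖l‖⁻¹ • l ∈ sphere (0 : E) 1 := by
    rw [mem_sphere_zero_iff_norm, norm_smul, norm_inv, norm_norm, inv_mul_cancel₀ hn.ne']
  obtain ⟨x, hx, hx'⟩ := mem_iUnion₂.1 (ht h1)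
  refine ⟨x, hx, ?_⟩
  have h2 : 0 < inner ℝ (‖l‖⁻¹ • l) (f x) := hx'
  rw [real_inner_smul_left] at h2
  exact (mul_pos_iff_of_pos_left (inv_pos.2 hn)).1 h2

theorem core_dim {f : T → E} (hf : Continuous f) (hloc : ∀ x, ∃ U ∈ 𝓝 x, InjOn f U)
    (htp : ∀ (m : E) (c : ℝ), IsPreconnected {x | c ≤ inner ℝ m (f x)})
    (hsym : ∀ x, ∃ y, f y = - f x) (hspan : ∀ l : E, l ≠ 0 → ∃ x, inner ℝ l (f x) ≠ 0) :
    Module.finrank ℝ E ≤ 4 := by
  classical
  by_contra hdim
  push Not at hdim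
  have hpos : ∀ l : E, l ≠ 0 → ∃ x, 0 < inner ℝ l (f x) := by
    intro l hl
    obtain ⟨x, hx⟩ := hspan l hl
    rcases lt_or_gt_of_ne hx with h | h
    · obtain ⟨y, hy⟩ := hsym x
      refine ⟨y, ?_⟩
      rw [hy, inner_neg_right]; linarith
    · exact ⟨x, h⟩
  -- the hull
  set H : Set E := closure (convexHull ℝ (range f)) with hH
  have hgood : Good f H := good_hull hf htp
  have hfH : ∀ x, f x ∈ H := fun x => subset_closure (subset_convexHull ℝ _ ⟨x, rfl⟩)
  have hHne : H.Nonempty := ⟨f 0, hfH 0⟩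
  have hHsym : ∀ x ∈ H, -x ∈ H := by
    have h1 : -range f = range f := by
      ext y
      rw [Set.mem_neg]
      constructor
      · rintro ⟨x, hx⟩
        obtain ⟨z, hz⟩ := hsym x
        exact ⟨z, by rw [hz, hx, neg_neg]⟩
      · rintro ⟨x, rfl⟩
        obtain ⟨z, hz⟩ := hsym x
        exact ⟨z, hz⟩
    intro x hx
    refine map_mem_closure continuous_neg hx ?_
    intro y hy
    rw [← Set.mem_neg, ← convexHull_neg, h1]
    exact hy
  -- the odd function of the first kind
  obtain ⟨t, ht⟩ := exists_test hpos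
  set r : C(E, C(T, ℝ)) := ContinuousMap.curry
    ⟨fun p : E × T => inner ℝ p.1 (f p.2), continuous_fst.inner (hf.comp continuous_snd)⟩ with hr
  have hrv : ∀ l x, r l x = inner ℝ l (f x) := fun l x => rfl
  obtain ⟨Θ, hΘc, hΘodd, hΘ⟩ := theta_exists r (by
      intro l
      ext x
      simp only [hrv, ContinuousMap.neg_apply, inner_neg_left]) (fun l c => htp l c) t (by
      intro l hl
      refine ht l ?_
      rintro rfl
      obtain ⟨a, b, -, z, hz⟩ := hl
      have h3 : 0 < r 0 (pr z) := hz.source_mem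
      rw [hrv, inner_zero_left] at h3
      exact lt_irrefl _ h3)
  -- faces over an inessential side
  have hface1 : ∀ l : E, l ≠ 0 → ¬ Ess {x | 0 < inner ℝ l (f x)} → Fc H l ⊆ range f := by
    intro l hl hE
    refine good_surj hf hloc (isOpen_lt continuous_const (continuous_const.inner hf))
      (precon_strict (fun c => htp l c) 0) hE (hgood.face hf l) ?_
    intro x hx
    obtain ⟨p, hp⟩ := hpos l hl
    exact lt_of_lt_of_le hp (hx.2 _ (hfH p))
  have hface : ∀ l : E, l ≠ 0 → Θ l = 0 → Fc H l ⊆ range f := by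
    intro l hl h0
    by_cases hE : Ess {x | 0 < inner ℝ l (f x)}
    · by_cases hE' : Ess {x | inner ℝ l (f x) < 0}
      · exact absurd h0 (hΘ l hE hE')
      · have h4 : {x | inner ℝ l (f x) < 0} = {x | 0 < inner ℝ (-l) (f x)} := by
          ext x
          simp only [mem_ofPred_eq, inner_neg_left]
          constructor <;> intro h <;> linarith
        rw [h4] at hE'
        have h5 := hface1 (-l) (neg_ne_zero.2 hl) hE'
        intro x hx
        obtain ⟨y, hy⟩ := h5 (mem_Fc_neg hHsym hx)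
        obtain ⟨z, hz⟩ := hsym y
        exact ⟨z, by rw [hz, hy, neg_neg]⟩
    · exact hface1 l hl hE
  have hinj : ∀ l : E, l ≠ 0 → Θ l = 0 → ∀ x y, f x ∈ Fc H l → f x = f y → x = y :=
    fun l hl h0 => (hgood.face hf l).inj hf hloc (hface l hl h0)
  -- projection and the test sphere
  have hHc : IsCompact H := hgood.comp
  obtain ⟨P, hPc, hPH, hPodd, hPm⟩ := exists_proj hHne hHc hgood.conv hHsym
  obtain ⟨ι, hι⟩ : ∃ ι : (Fin 5 → ℝ) →ₗ[ℝ] E, Function.Injective ι := by
    let b := stdOrthonormalBasis ℝ E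
    have h5 : 5 ≤ Module.finrank ℝ E := hdim
    refine ⟨Fintype.linearCombination ℝ (fun i : Fin 5 => b (Fin.castLE h5 i)), ?_⟩
    rw [← linearIndependent_iff_injective_fintypeLinearCombination]
    exact b.orthonormal.linearIndependent.comp (Fin.castLE h5) (Fin.castLE_injective h5)
  have hιc : Continuous ι := ι.continuous_of_finiteDimensional
  set K5 : Set (Fin 5 → ℝ) := {v | ∑ i, |v i| = 1} with hK5
  have hK5c : IsCompact K5 := Pool.Agent.Helper325.BorsukUlam.K_compact 4
  have hK5ne : K5.Nonempty := by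
    refine ⟨fun i => if i = 0 then 1 else 0, ?_⟩
    simp only [hK5, mem_ofPred_eq]
    rw [Finset.sum_eq_single 0]
    · simp
    · intro i _ hi; simp [hi]
    · simp
  obtain ⟨v₀, hv₀, hv₀min⟩ := hK5c.exists_isMinOn hK5ne hιc.norm.continuousOn
  have hμ : 0 < ‖ι v₀‖ := by
    rw [norm_pos_iff]
    intro h0
    have : v₀ = 0 := hι (by rw [h0, map_zero])
    rw [this] at hv₀
    simp [hK5] at hv₀
  obtain ⟨M, hM⟩ := hHc.isBounded.exists_norm_le
  have hM0 : 0 ≤ M := (norm_nonneg _).trans (hM _ hHne.some_mem)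
  set c : ℝ := (M + 1) / ‖ι v₀‖ with hc
  have hcpos : 0 < c := by positivity
  set Y : (Fin 5 → ℝ) → E := fun v => c • ι v with hY
  have hYc : Continuous Y := hιc.const_smul c
  have hYodd : ∀ v, Y (-v) = - Y v := by
    intro v; simp only [hY, map_neg, smul_neg]
  have hYn : ∀ v ∈ K5, M + 1 ≤ ‖Y v‖ := by
    intro v hv
    have h6 : ‖ι v₀‖ ≤ ‖ι v‖ := hv₀min hv
    simp only [hY, norm_smul, Real.norm_of_nonneg hcpos.le]
    calc M + 1 = c * ‖ι v₀‖ := by rw [hc]; field_simp
      _ ≤ c * ‖ι v‖ := mul_le_mul_of_nonneg_left h6 hcpos.le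
  have hLc : Continuous (fun v => Y v - P (Y v)) := hYc.sub (hPc.comp hYc)
  obtain ⟨v₁, hv₁, hv₁max⟩ := hK5c.exists_isMaxOn hK5ne hLc.norm.continuousOn
  set B : ℝ := ‖Y v₁ - P (Y v₁)‖ with hB
  have hLn : ∀ v ∈ K5, 1 ≤ ‖Y v - P (Y v)‖ := by
    intro v hv
    have h6 := hYn v hv
    have h7 := hM _ (hPH (Y v))
    have h8 := norm_sub_norm_le (Y v) (P (Y v))
    linarith
  -- the compact set of faces
  set R : Set E := {l | 1 ≤ ‖l‖ ∧ ‖l‖ ≤ B ∧ Θ l = 0} with hR
  have hRc : IsCompact R := by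
    refine isCompact_of_isClosed_isBounded ?_ ?_
    · exact (isClosed_le continuous_const continuous_norm).inter
        ((isClosed_le continuous_norm continuous_const).inter (isClosed_eq hΘc continuous_const))
    · refine (isBounded_closedBall (x := (0 : E)) (r := B)).subset ?_
      intro l hl
      rw [mem_closedBall_zero_iff]; exact hl.2.1
  have hRne : ∀ l ∈ R, l ≠ 0 := by
    rintro l hl rfl
    have := hl.1
    rw [norm_zero] at this
    linarith
  set H0 : Set E := {x | ∃ l ∈ R, x ∈ Fc H l} with hH0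
  have hH0c : IsCompact H0 := by
    have h6 : IsCompact ((R ×ˢ H) ∩ {p : E × E | ∀ y ∈ H, inner ℝ p.1 y ≤ inner ℝ p.1 p.2}) := by
      refine (hRc.prod hHc).inter_right ?_
      have : {p : E × E | ∀ y ∈ H, inner ℝ p.1 y ≤ inner ℝ p.1 p.2} =
          ⋂ y ∈ H, {p : E × E | inner ℝ p.1 y ≤ inner ℝ p.1 p.2} := by
        ext p; simp
      rw [this]
      refine isClosed_biInter fun y _ => isClosed_le ?_ ?_
      · exact continuous_fst.inner continuous_const
      · exact continuous_fst.inner continuous_snd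
    have h7 : H0 = Prod.snd ''
        ((R ×ˢ H) ∩ {p : E × E | ∀ y ∈ H, inner ℝ p.1 y ≤ inner ℝ p.1 p.2}) := by
      ext x
      constructor
      · rintro ⟨l, hl, hx⟩
        exact ⟨(l, x), ⟨⟨hl, hx.1⟩, hx.2⟩, rfl⟩
      · rintro ⟨⟨l, x'⟩, ⟨⟨hl, hx⟩, hx'⟩, rfl⟩
        exact ⟨l, hl, hx, hx'⟩
    rw [h7]
    exact h6.image continuous_snd
  have hcov : ∀ x ∈ H0, ∃ p, f p = x := by
    rintro x ⟨l, hl, hx⟩
    exact hface l (hRne l hl) hl.2.2 hx
  have hinj0 : ∀ p q, f p ∈ H0 → f p = f q → p = q := by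
    rintro p q ⟨l, hl, hx⟩ hpq
    exact hinj l (hRne l hl) hl.2.2 p q hx hpq
  have hneg0 : ∀ x ∈ H0, -x ∈ H0 := by
    rintro x ⟨l, hl, hx⟩
    refine ⟨-l, ⟨?_, ?_, ?_⟩, mem_Fc_neg hHsym hx⟩
    · rw [norm_neg]; exact hl.1
    · rw [norm_neg]; exact hl.2.1
    · rw [hΘodd, hl.2.2, neg_zero]
  have hnz : ∀ x ∈ H0, x ≠ 0 := by
    rintro x ⟨l, hl, hx⟩ rfl
    obtain ⟨p, hp⟩ := hpos l (hRne l hl)
    have := hx.2 _ (hfH p)
    rw [inner_zero_right] at this
    linarith
  -- the inverse over `H0`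
  choose! j hj using hcov
  have hjc : ContinuousOn j H0 := by
    intro x hx W hW
    rw [Filter.mem_map, mem_nhdsWithin_iff_exists_mem_nhds_inter]
    obtain ⟨W', hW'W, hW'o, hjW'⟩ := _root_.mem_nhds_iff.1 hW
    have hcl : IsClosed (f '' W'ᶜ) := (hW'o.isClosed_compl.isCompact.image hf).isClosed
    refine ⟨(f '' W'ᶜ)ᶜ, hcl.isOpen_compl.mem_nhds ?_, ?_⟩
    · rintro ⟨p, hp, hpx⟩
      have h8 : j x = p := hinj0 _ _ (by rw [hj x hx]; exact hx) (by rw [hj x hx, hpx])
      exact hp (h8 ▸ hjW')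
    · rintro y ⟨hy, hy0⟩
      apply hW'W
      by_contra hcon
      exact hy ⟨j y, hcon, hj y hy0⟩
  -- the free involution
  set K0 : Set T := f ⁻¹' H0 with hK0
  have hK0c : IsClosed K0 := hH0c.isClosed.preimage hf
  set σ : T → T := fun p => j (-f p) with hσ
  have hfσ : ∀ p ∈ K0, f (σ p) = - f p := fun p hp => hj _ (hneg0 _ hp)
  have hσm : MapsTo σ K0 K0 := by
    intro p hp
    show f (σ p) ∈ H0
    rw [hfσ p hp]
    exact hneg0 _ hp
  have hσc : ContinuousOn σ K0 := by
    refine hjc.comp (f := fun p => -f p) hf.neg.continuousOn ?_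
    intro p hp
    exact hneg0 _ hp
  have hσσ : ∀ p ∈ K0, σ (σ p) = p := by
    intro p hp
    refine hinj0 _ _ ?_ ?_
    · exact hσm (hσm hp)
    · rw [hfσ _ (hσm hp), hfσ p hp, neg_neg]
  have hσfree : ∀ p ∈ K0, σ p ≠ p := by
    intro p hp h8
    have h9 := hfσ p hp
    rw [h8] at h9
    have h10 : (2 : ℝ) • f p = 0 := by
      rw [two_smul]
      nth_rewrite 2 [h9]
      exact add_neg_cancel _
    exact hnz _ hp ((smul_eq_zero.1 h10).resolve_left two_ne_zero)
  obtain ⟨g, hgc, hg⟩ := odd_all K0 hK0c σ hσc hσm hσσ hσfree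
  -- the odd function of the second kind
  obtain ⟨G, hGc, hG⟩ := OddA.oddA_tietze (X := E) hH0c.isClosed (f := fun x => g (j x)) (by
    refine hgc.comp hjc ?_
    intro x hx
    show f (j x) ∈ H0
    rw [hj x hx]; exact hx)
  set G1 : E → ℂ := fun x => (G x - G (-x)) / 2 with hG1
  have hG1c : Continuous G1 := by
    have := hGc.comp continuous_neg
    exact (hGc.sub this).div_const 2
  have hG1odd : ∀ x, G1 (-x) = - G1 x := by
    intro x; simp only [hG1, neg_neg]; ring
  have hG1nz : ∀ x ∈ H0, G1 x ≠ 0 := by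
    intro x hx
    have hjx : j x ∈ K0 := by
      show f (j x) ∈ H0
      rw [hj x hx]; exact hx
    have h8 : j (-x) = σ (j x) := by
      simp only [hσ]; rw [hj x hx]
    have h9 : G1 x = g (j x) := by
      simp only [hG1]
      rw [hG x hx, hG (-x) (hneg0 x hx), h8, (hg _ hjx).2]
      ring
    rw [h9]
    exact (hg _ hjx).1
  -- Borsuk-Ulam
  obtain ⟨v, hv, hv0⟩ := bu 4 (fun v => ![(Θ (Y v - P (Y v))).re, (Θ (Y v - P (Y v))).im,
      (G1 (P (Y v))).re, (G1 (P (Y v))).im]) (by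
    have c1 : Continuous (fun v => Θ (Y v - P (Y v))) := hΘc.comp hLc
    have c2 : Continuous (fun v => G1 (P (Y v))) := hG1c.comp (hPc.comp hYc)
    have c3 := Complex.continuous_re.comp c1
    have c4 := Complex.continuous_im.comp c1
    have c5 := Complex.continuous_re.comp c2
    have c6 := Complex.continuous_im.comp c2
    refine continuous_pi fun i => ?_
    fin_cases i
    · exact c3
    · exact c4
    · exact c5
    · exact c6) (by
    intro v
    have e1 : Y (-v) - P (Y (-v)) = -(Y v - P (Y v)) := by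
      rw [hYodd, hPodd]; abel
    have e2 : P (Y (-v)) = - P (Y v) := by rw [hYodd, hPodd]
    funext i
    rw [e1, e2, hΘodd, hG1odd]
    fin_cases i <;> simp)
  have e0 : Θ (Y v - P (Y v)) = 0 := by
    apply Complex.ext
    · have := congrFun hv0 0; simpa using this
    · have := congrFun hv0 1; simpa using this
  have e1 : G1 (P (Y v)) = 0 := by
    apply Complex.ext
    · have := congrFun hv0 2; simpa using this
    · have := congrFun hv0 3; simpa using this
  refine hG1nz _ ?_ e1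
  exact ⟨Y v - P (Y v), ⟨hLn v hv, hv₁max hv, e0⟩, hPH _, fun w hw => hPm _ w hw⟩

end Pool.Agent.Helper874.TT
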