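import Pool.Agent.Helper874.TT.Defs

namespace Pool.Agent.Helper874.TT.Cross

open Set Topology Metric






/-- integer valued continuous functions are constant -/
theorem int_const {X : Type*} [TopologicalSpace X] [PreconnectedSpace X] (f : X → ℝ)
    (hf : Continuous f) (h : ∀ x, ∃ k : ℤ, f x = k) (x y : X) : f x = f y := by
  choose n hn using h
  have hc : Continuous n := by
    rw [Int.isClosedEmbedding_coe_real.isInducing.continuous_iff]
    exact hf.congr hn
  have := PreconnectedSpace.constant ‹_› hc (x := x) (y := y)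
  rw [hn, hn, this]

theorem exp_const {X : Type*} [TopologicalSpace X] [PreconnectedSpace X] (k : X → ℂ)
    (hk : Continuous k) (h : ∀ x, Complex.exp (k x) = 1) (x y : X) : k x = k y := by
  have h1 : ∀ x, ∃ n : ℤ, k x = n * (2 * Real.pi * Complex.I) := fun x =>
    Complex.exp_eq_one_iff.1 (h x)
  have hpi : (2 * Real.pi : ℝ) ≠ 0 := by positivity
  have h2 := int_const (fun x => (k x).im / (2 * Real.pi)) (by fun_prop) (by
    intro x
    obtain ⟨n, hn⟩ := h1 x
    refine ⟨n, ?_⟩
    rw [hn]
    simp) x y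
  obtain ⟨n, hn⟩ := h1 x
  obtain ⟨m, hm⟩ := h1 y
  simp only [hn, hm] at h2
  have h3 : (n : ℝ) = m := by
    have e1 : ((n : ℂ) * (2 * Real.pi * Complex.I)).im = n * (2 * Real.pi) := by simp
    have e2 : ((m : ℂ) * (2 * Real.pi * Complex.I)).im = m * (2 * Real.pi) := by simp
    rw [e1, e2] at h2
    field_simp at h2
    exact h2
  have h4 : n = m := by exact_mod_cast h3
  rw [hn, hm, h4]

theorem exists_log (u : ℂ → ℂ) (hu : Continuous u) (h0 : ∀ z, u z ≠ 0) :
    ∃ g : ℂ → ℂ, Continuous g ∧ ∀ z, Complex.exp (g z) = u z := by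
  have hsc : IsSimplyConnected (univ : Set ℂ) := by
    have : ContractibleSpace (univ : Set ℂ) := convex_univ.contractibleSpace ⟨0, trivial⟩
    show SimplyConnectedSpace (univ : Set ℂ)
    infer_instance
  obtain ⟨g, hg1, hg2⟩ := Complex.exists_continuousOn_eqOn_exp_comp hsc isOpen_univ
    (g := u) hu.continuousOn (by
      rintro ⟨z, _, hz⟩
      exact h0 z hz)
  exact ⟨g, continuousOn_univ.1 hg1, fun z => hg2 (mem_univ z)⟩

/-- Brouwer-type lemma: a bounded continuous self-map of the plane has a fixed point. -/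
theorem bounded_fixed (p : ℂ → ℂ) (hp : Continuous p) (M : ℝ) (hM : ∀ z, ‖p z‖ ≤ M) :
    ∃ z, p z = z := by
  by_contra hcon
  push Not at hcon
  have hM0 : 0 ≤ M := (norm_nonneg _).trans (hM 0)
  obtain ⟨g, hg, hge⟩ := exists_log (fun z => z - p z) (by fun_prop)
    (fun z h => hcon z (sub_eq_zero.1 h).symm)
  have hR : 0 < M + 1 := by linarith
  have hR' : ((M + 1 : ℝ) : ℂ) ≠ 0 := by exact_mod_cast hR.ne'
  let c : ℝ → ℂ := fun t => ((M + 1 : ℝ) : ℂ) * Complex.exp (t * Complex.I)
  have hcc : Continuous c := by fun_prop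
  have hcn : ∀ t, ‖c t‖ = M + 1 := by
    intro t
    simp only [c, norm_mul, Complex.norm_exp_ofReal_mul_I, mul_one]
    rw [Complex.norm_real, Real.norm_eq_abs, abs_of_pos hR]
  have hc0 : ∀ t, c t ≠ 0 := fun t h => by
    have := hcn t
    rw [h, norm_zero] at this
    linarith
  have hsl : ∀ t, 1 - p (c t) / c t ∈ Complex.slitPlane := by
    intro t
    left
    have h1 : ‖p (c t) / c t‖ < 1 := by
      rw [norm_div, hcn, div_lt_one hR]
      have := hM (c t)
      linarith
    have h2 : (p (c t) / c t).re ≤ ‖p (c t) / c t‖ := Complex.re_le_norm _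
    simp only [Complex.sub_re, Complex.one_re]
    linarith
  let h : ℝ → ℂ := fun t => g (c t) - Complex.log (1 - p (c t) / c t)
  have hh : Continuous h := by
    refine (hg.comp hcc).sub ?_
    refine Continuous.clog ?_ hsl
    exact continuous_const.sub ((hp.comp hcc).div hcc hc0)
  have hexp : ∀ t, Complex.exp (h t) = c t := by
    intro t
    have h1 : 1 - p (c t) / c t ≠ 0 := Complex.slitPlane_ne_zero (hsl t)
    simp only [h, Complex.exp_sub, hge, Complex.exp_log h1]
    rw [div_eq_iff h1, mul_sub, mul_one, mul_div_cancel₀ _ (hc0 t)]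
  obtain ⟨k, hk1, hk2⟩ : ∃ k : ℝ → ℂ, Continuous k ∧
      k = fun t => h t - t * Complex.I - Complex.log ((M + 1 : ℝ) : ℂ) :=
    ⟨_, by fun_prop, rfl⟩
  have hk3 := exp_const k hk1 (by
    intro t
    rw [hk2]
    simp only [Complex.exp_sub, hexp, Complex.exp_log hR']
    simp only [c]
    have := Complex.exp_ne_zero (t * Complex.I)
    field_simp) 0 (2 * Real.pi)
  have hper : h 0 = h (2 * Real.pi) := by
    have : c 0 = c (2 * Real.pi) := by
      simp only [c]
      rw [show ((2 * Real.pi : ℝ) : ℂ) * Complex.I = 2 * Real.pi * Complex.I by push_cast; ring,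
        Complex.exp_two_pi_mul_I]
      simp
    simp only [h, this]
  rw [hk2] at hk3
  simp only [hper] at hk3
  have h5 : ((2 * Real.pi : ℝ) : ℂ) * Complex.I = 0 := by
    have : ((0 : ℝ) : ℂ) * Complex.I = ((2 * Real.pi : ℝ) : ℂ) * Complex.I := by
      linear_combination -hk3
    rw [← this]
    simp
  rcases mul_eq_zero.1 h5 with h6 | h6
  · have : (2 * Real.pi : ℝ) = 0 := by exact_mod_cast h6
    have := Real.pi_pos
    linarith
  · exact Complex.I_ne_zero h6

theorem pr_add_lat (z : ℂ) (a b : ℤ) : pr (z + lat a b) = pr z := by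
  unfold pr lat
  have h : ∀ (x : ℝ) (m : ℤ), ((x + (m : ℝ) : ℝ) : UnitAddCircle) = x := by
    intro x m
    rw [AddCircle.coe_add]
    have : (((m : ℝ)) : UnitAddCircle) = 0 := by
      rw [AddCircle.coe_eq_zero_iff]
      exact ⟨m, by simp⟩
    rw [this, add_zero]
  ext
  · simp [h]
  · simp [h]

theorem unroll {W : Set T} {a b : ℤ} (h : Lam W a b) : ∃ P : ℝ → ℂ, Continuous P ∧
    (∃ C, ∀ t, ‖P t‖ ≤ C) ∧ ∀ t : ℝ, pr ((t : ℂ) * lat a b + P t) ∈ W := by
  obtain ⟨z, hz⟩ := h
  let γ := hz.somePath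
  have hγ : ∀ t, γ t ∈ pr ⁻¹' W := hz.somePath_mem
  let q : ℝ → ℂ := fun s => γ.extend s - (s : ℂ) * lat a b
  have hq : Continuous q := by
    have := γ.continuous_extend
    fun_prop
  have hq01 : q 0 = q 1 := by
    simp [q]
  refine ⟨q ∘ Int.fract, ContinuousOn.comp_fract'' hq.continuousOn hq01, ?_, ?_⟩
  · obtain ⟨C, hC⟩ := (isCompact_Icc (a := (0 : ℝ)) (b := 1)).exists_bound_of_continuousOn
      hq.continuousOn
    exact ⟨C, fun t => hC _ ⟨Int.fract_nonneg t, (Int.fract_lt_one t).le⟩⟩
  · intro t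
    have h1 : (t : ℂ) * lat a b + (q ∘ Int.fract) t = γ.extend (Int.fract t) +
        lat (⌊t⌋ * a) (⌊t⌋ * b) := by
      simp only [Function.comp_apply, q]
      have h2 : (t : ℂ) = ((⌊t⌋ : ℤ) : ℂ) + ((Int.fract t : ℝ) : ℂ) := by
        have := Int.floor_add_fract t
        exact_mod_cast this.symm
      have h3 : lat (⌊t⌋ * a) (⌊t⌋ * b) = ((⌊t⌋ : ℤ) : ℂ) * lat a b := by
        unfold lat
        apply Complex.ext <;> simp
      rw [h3]
      linear_combination (lat a b) * h2
    rw [h1, pr_add_lat]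
    rw [γ.extend_apply (⟨Int.fract_nonneg t, (Int.fract_lt_one t).le⟩ : Int.fract t ∈ Icc (0:ℝ) 1)]
    exact hγ _

/-- two disjoint sets contain loops only in parallel classes -/
theorem crossing {W₁ W₂ : Set T} (hd : Disjoint W₁ W₂) {a b c d : ℤ} (h₁ : Lam W₁ a b)
    (h₂ : Lam W₂ c d) : a * d - b * c = 0 := by
  by_contra hne
  obtain ⟨P1, hP1, ⟨C1, hC1⟩, hW1⟩ := unroll h₁
  obtain ⟨P2, hP2, ⟨C2, hC2⟩, hW2⟩ := unroll h₂
  obtain ⟨D, hD⟩ : ∃ D : ℝ, D = (a : ℝ) * d - b * c := ⟨_, rfl⟩
  have hD0 : D ≠ 0 := by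
    rw [hD]
    exact_mod_cast hne
  let Δ : ℂ → ℂ := fun v => P2 v.im - P1 v.re
  have hΔ : Continuous Δ := by fun_prop
  let p : ℂ → ℂ := fun v => ((d * (Δ v).re - c * (Δ v).im) / D : ℝ) +
    ((b * (Δ v).re - a * (Δ v).im) / D : ℝ) * Complex.I
  have hp : Continuous p := by fun_prop
  have hΔb : ∀ v, ‖Δ v‖ ≤ C2 + C1 := fun v =>
    (norm_sub_le _ _).trans (add_le_add (hC2 _) (hC1 _))
  have hbd : ∀ v, ‖p v‖ ≤ (|(d : ℝ)| * (C2 + C1) + |(c : ℝ)| * (C2 + C1)) / |D| +
      (|(b : ℝ)| * (C2 + C1) + |(a : ℝ)| * (C2 + C1)) / |D| := by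
    intro v
    have hre : |(Δ v).re| ≤ C2 + C1 := (Complex.abs_re_le_norm _).trans (hΔb v)
    have him : |(Δ v).im| ≤ C2 + C1 := (Complex.abs_im_le_norm _).trans (hΔb v)
    have hgen : ∀ x y : ℝ, |(x * (Δ v).re - y * (Δ v).im) / D| ≤
        (|x| * (C2 + C1) + |y| * (C2 + C1)) / |D| := by
      intro x y
      rw [abs_div]
      apply div_le_div_of_nonneg_right _ (abs_nonneg D)
      refine (abs_sub _ _).trans ?_
      rw [abs_mul, abs_mul]
      exact add_le_add (mul_le_mul_of_nonneg_left hre (abs_nonneg _))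
        (mul_le_mul_of_nonneg_left him (abs_nonneg _))
    refine (norm_add_le _ _).trans (add_le_add ?_ ?_)
    · rw [Complex.norm_real, Real.norm_eq_abs]
      exact hgen _ _
    · rw [norm_mul, Complex.norm_I, mul_one, Complex.norm_real, Real.norm_eq_abs]
      exact hgen _ _
  obtain ⟨v, hv⟩ := bounded_fixed p hp _ hbd
  have hre : (d * (Δ v).re - c * (Δ v).im) / D = v.re := by
    have := congrArg Complex.re hv
    simpa [p] using this
  have him : (b * (Δ v).re - a * (Δ v).im) / D = v.im := by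
    have := congrArg Complex.im hv
    simpa [p] using this
  have hre' : d * (Δ v).re - c * (Δ v).im = v.re * D := by
    rw [← hre]; field_simp
  have him' : b * (Δ v).re - a * (Δ v).im = v.im * D := by
    rw [← him]; field_simp
  have hx : (a : ℝ) * v.re - c * v.im = (Δ v).re := by
    apply mul_right_cancel₀ hD0
    rw [hD] at *
    linear_combination (-(a : ℝ)) * hre' + (c : ℝ) * him'
  have hy : (b : ℝ) * v.re - d * v.im = (Δ v).im := by
    apply mul_right_cancel₀ hD0
    rw [hD] at *
    linear_combination (-(b : ℝ)) * hre' + (d : ℝ) * him'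
  have heq : (v.re : ℂ) * lat a b + P1 v.re = (v.im : ℂ) * lat c d + P2 v.im := by
    have hΔv : Δ v = P2 v.im - P1 v.re := rfl
    apply Complex.ext
    · have e1 : (Δ v).re = (P2 v.im).re - (P1 v.re).re := by rw [hΔv, Complex.sub_re]
      simp [lat]
      linarith
    · have e1 : (Δ v).im = (P2 v.im).im - (P1 v.re).im := by rw [hΔv, Complex.sub_im]
      simp [lat]
      linarith
  have hw1 := hW1 v.re
  have hw2 := hW2 v.im
  rw [heq] at hw1
  exact Set.disjoint_left.1 hd hw1 hw2

theorem continuous_pr : Continuous pr := by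
  unfold pr
  exact ((AddCircle.continuous_mk' 1).comp Complex.continuous_re).prodMk
    ((AddCircle.continuous_mk' 1).comp Complex.continuous_im)

/-- the torus is not the union of two closed sets killing the two coordinate classes -/
theorem no_cover {A B : Set T} (hAB : A ∪ B = univ) {l₁ l₂ : C(T, ℝ)} (h₁ : Lift 1 0 A l₁)
    (h₂ : Lift 0 1 B l₂) : False := by
  have hpr := continuous_pr
  obtain ⟨C1, hC1⟩ := isCompact_univ.exists_bound_of_continuousOn (l₁.continuous.continuousOn)
  obtain ⟨C2, hC2⟩ := isCompact_univ.exists_bound_of_continuousOn (l₂.continuous.continuousOn)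
  obtain ⟨z, hz⟩ := bounded_fixed
    (fun z => ((l₁ (pr z) + 1 / 2 : ℝ) : ℂ) + ((l₂ (pr z) + 1 / 2 : ℝ) : ℂ) * Complex.I)
    (by
      have h1 : Continuous fun z => l₁ (pr z) := l₁.continuous.comp hpr
      have h2 : Continuous fun z => l₂ (pr z) := l₂.continuous.comp hpr
      fun_prop) ((C1 + 1) + (C2 + 1)) (by
      intro z
      refine (norm_add_le _ _).trans (add_le_add ?_ ?_)
      · rw [Complex.norm_real]
        refine (norm_add_le _ _).trans (add_le_add (hC1 _ (mem_univ _)) ?_)
        norm_num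
      · rw [norm_mul, Complex.norm_I, mul_one, Complex.norm_real]
        refine (norm_add_le _ _).trans (add_le_add (hC2 _ (mem_univ _)) ?_)
        norm_num)
  have hre : l₁ (pr z) + 1 / 2 = z.re := by
    have := congrArg Complex.re hz
    simpa using this
  have him : l₂ (pr z) + 1 / 2 = z.im := by
    have := congrArg Complex.im hz
    simpa using this
  have hz' : pr z ∈ A ∪ B := hAB ▸ mem_univ _
  rcases hz' with hA | hB
  · obtain ⟨k, hk⟩ := h₁ z hA
    have h3 : (2 * k + 1 : ℝ) = 0 := by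
      push_cast at hk
      linarith
    have h4 : (2 * k + 1 : ℤ) = 0 := by exact_mod_cast h3
    omega
  · obtain ⟨k, hk⟩ := h₂ z hB
    have h3 : (2 * k + 1 : ℝ) = 0 := by
      push_cast at hk
      linarith
    have h4 : (2 * k + 1 : ℤ) = 0 := by exact_mod_cast h3
    omega

/-- a lift kills the loops -/
theorem lift_loop {P : Set T} {m n a b : ℤ} {l : C(T, ℝ)} (hl : Lift m n P l) (h : Lam P a b) :
    m * a + n * b = 0 := by
  obtain ⟨z, hz⟩ := h
  have hpr := continuous_pr
  let γ := hz.somePath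
  have hγ : ∀ t, γ t ∈ pr ⁻¹' P := hz.somePath_mem
  have h1 := int_const (fun t : unitInterval => l (pr (γ t)) - m * (γ t).re - n * (γ t).im)
    (by
      have h1 : Continuous fun t => l (pr (γ t)) := l.continuous.comp (hpr.comp γ.continuous)
      have h2 : Continuous fun t => γ t := γ.continuous
      fun_prop)
    (by
      intro t
      obtain ⟨k, hk⟩ := hl _ (hγ t)
      refine ⟨k, ?_⟩
      rw [hk]; ring) 0 1
  have e0 : γ 0 = z := γ.source
  have e1 : γ 1 = z + lat a b := γ.target
  simp only [e0, e1, pr_add_lat] at h1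
  have h2 : ((m * a + n * b : ℤ) : ℝ) = 0 := by
    have e2 : (z + lat a b).re = z.re + a := by simp [lat]
    have e3 : (z + lat a b).im = z.im + b := by simp [lat]
    rw [e2, e3] at h1
    push_cast
    linarith
  exact_mod_cast h2

theorem isQuotientMap_pr : IsQuotientMap (ContinuousMap.mk pr continuous_pr) := by
  have ho : IsOpenMap pr := by
    have h1 : IsOpenMap (fun x : ℝ => (x : UnitAddCircle)) := QuotientAddGroup.isOpenMap_coe
    have h2 := h1.prodMap h1
    have h3 : IsOpenMap (fun z : ℂ => (z.re, z.im)) :=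
      Complex.equivRealProdCLM.toHomeomorph.isOpenMap
    exact h2.comp h3
  have hs : Function.Surjective pr := by
    rintro ⟨x, y⟩
    obtain ⟨x, rfl⟩ := QuotientAddGroup.mk_surjective x
    obtain ⟨y, rfl⟩ := QuotientAddGroup.mk_surjective y
    exact ⟨⟨x, y⟩, rfl⟩
  exact ho.isQuotientMap continuous_pr hs

/-- classification of the maps from the torus to the punctured plane -/
theorem class_map (u : T → ℂ) (hu : Continuous u) (h0 : ∀ x, u x ≠ 0) :
    ∃ (m n : ℤ) (β : C(T, ℂ)), ∀ z : ℂ, u (pr z) =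
      Complex.exp (2 * Real.pi * Complex.I * (m * z.re + n * z.im) + β (pr z)) := by
  obtain ⟨g, hg, hge⟩ := exists_log (fun z => u (pr z)) (hu.comp continuous_pr) (fun z => h0 _)
  have key : ∀ a b : ℤ, ∃ k : ℤ, ∀ z, g (z + lat a b) - g z = k * (2 * Real.pi * Complex.I) := by
    intro a b
    have h1 := exp_const (fun z => g (z + lat a b) - g z) (by fun_prop) (by
      intro z
      rw [Complex.exp_sub, hge, hge, pr_add_lat, div_self (h0 _)])
    obtain ⟨k, hk⟩ : ∃ k : ℤ, g (0 + lat a b) - g 0 = k * (2 * Real.pi * Complex.I) := by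
      apply Complex.exp_eq_one_iff.1
      rw [Complex.exp_sub, hge, hge, pr_add_lat, div_self (h0 _)]
    exact ⟨k, fun z => (h1 z 0).trans hk⟩
  obtain ⟨m, hm⟩ := key 1 0
  obtain ⟨n, hn⟩ := key 0 1
  let B : ℂ → ℂ := fun z => g z - 2 * Real.pi * Complex.I * (m * z.re + n * z.im)
  have hB : Continuous B := by fun_prop
  have hB1 : ∀ z, B (z + lat 1 0) = B z := by
    intro z
    have h1 := hm z
    simp only [B]
    have e2 : (z + lat 1 0).re = z.re + 1 := by simp [lat]
    have e3 : (z + lat 1 0).im = z.im := by simp [lat]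
    rw [e2, e3]
    push_cast
    linear_combination h1
  have hB2 : ∀ z, B (z + lat 0 1) = B z := by
    intro z
    have h1 := hn z
    simp only [B]
    have e2 : (z + lat 0 1).re = z.re := by simp [lat]
    have e3 : (z + lat 0 1).im = z.im + 1 := by simp [lat]
    rw [e2, e3]
    push_cast
    linear_combination h1
  have hB3 : ∀ (a : ℤ) (z : ℂ), B (z + lat a 0) = B z := by
    intro a
    induction a using Int.induction_on with
    | zero => intro z; congr 1; simp [lat, Complex.ext_iff]
    | succ k ih =>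
      intro z
      have e : z + lat (k + 1) 0 = (z + lat k 0) + lat 1 0 := by
        simp [lat, Complex.ext_iff]; ring
      rw [e, hB1, ih]
    | pred k ih =>
      intro z
      have e : (z + lat (-k - 1) 0) + lat 1 0 = z + lat (-k) 0 := by
        simp [lat, Complex.ext_iff]; ring
      rw [← hB1, e, ih]
  have hB4 : ∀ (b : ℤ) (z : ℂ), B (z + lat 0 b) = B z := by
    intro a
    induction a using Int.induction_on with
    | zero => intro z; congr 1; simp [lat, Complex.ext_iff]
    | succ k ih =>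
      intro z
      have e : z + lat 0 (k + 1) = (z + lat 0 k) + lat 0 1 := by
        simp [lat, Complex.ext_iff]; ring
      rw [e, hB2, ih]
    | pred k ih =>
      intro z
      have e : (z + lat 0 (-k - 1)) + lat 0 1 = z + lat 0 (-k) := by
        simp [lat, Complex.ext_iff]; ring
      rw [← hB2, e, ih]
  have hfac : Function.FactorsThrough (ContinuousMap.mk B hB) (ContinuousMap.mk pr continuous_pr) := by
    intro z z' hzz
    have h1 : pr z = pr z' := hzz
    unfold pr at h1
    rw [Prod.mk.injEq] at h1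
    obtain ⟨h1, h2⟩ := h1
    replace h1 := QuotientAddGroup.eq_iff_sub_mem.1 h1
    replace h2 := QuotientAddGroup.eq_iff_sub_mem.1 h2
    obtain ⟨a, ha⟩ := AddSubgroup.mem_zmultiples_iff.1 h1
    obtain ⟨b, hb⟩ := AddSubgroup.mem_zmultiples_iff.1 h2
    have e : z = (z' + lat a 0) + lat 0 b := by
      simp only [zsmul_eq_mul, mul_one] at ha hb
      apply Complex.ext
      · simp [lat]; linarith
      · simp [lat]; linarith
    show B z = B z'
    rw [e, hB4, hB3]
  refine ⟨m, n, isQuotientMap_pr.lift (ContinuousMap.mk B hB) hfac, fun z => ?_⟩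
  have h1 : (isQuotientMap_pr.lift (ContinuousMap.mk B hB) hfac) (pr z) = B z := by
    have := isQuotientMap_pr.lift_comp (ContinuousMap.mk B hB) hfac
    exact DFunLike.congr_fun this z
  rw [h1]
  simp only [B]
  rw [← hge z]
  congr 1
  ring

end Pool.Agent.Helper874.TT.Cross
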