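import Pool.Agent.Helper874.TT.Data

namespace Pool.Agent.Helper874.TT

open Set Topology Metric

theorem lift_diff_int {m n : ℤ} {P Q : Set T} {lP lQ : C(T, ℝ)} (hP : Lift m n P lP)
    (hQ : Lift m n Q lQ) {x : T} (hxP : x ∈ P) (hxQ : x ∈ Q) : ∃ k : ℤ, lP x - lQ x = k := by
  obtain ⟨z, rfl⟩ := pr_surjective x
  obtain ⟨i, hi⟩ := hP z hxP
  obtain ⟨j, hj⟩ := hQ z hxQ
  exact ⟨i - j, by rw [hi, hj]; push_cast; ring⟩

theorem diff_le_one {ρ : C(T, ℝ)} (h1 : IsPreconnected {x | 0 ≤ ρ x})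
    (h2 : IsPreconnected {x | ρ x ≤ 0}) {m n a b : ℤ} (hab : a ≠ 0 ∨ b ≠ 0) (hpos : Pos m n)
    (hmn : m * a + n * b = 0) (hL : Lam {x | 0 ≤ ρ x} a b) {lP lQ : C(T, ℝ)}
    (hP : Lift m n {x | 0 ≤ ρ x} lP) (hQ : Lift m n {x | ρ x ≤ 0} lQ) {x y : T}
    (hx : ρ x = 0) (hy : ρ y = 0) : lP y - lQ y ≤ lP x - lQ x + 1 := by
  by_contra hcon
  push Not at hcon
  obtain ⟨kx, hkx⟩ := lift_diff_int hP hQ (x := x) (show 0 ≤ ρ x from hx.ge)
    (show ρ x ≤ 0 from hx.le)
  obtain ⟨ky, hky⟩ := lift_diff_int hP hQ (x := y) (show 0 ≤ ρ y from hy.ge)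
    (show ρ y ≤ 0 from hy.le)
  have hkk : kx + 2 ≤ ky := by
    rw [hkx, hky] at hcon
    have : kx + 1 < ky := by exact_mod_cast hcon
    omega
  -- the threshold function
  set α : C(T, ℝ) := ⟨fun w => max 0 (min 1 (lP w - lQ w - ky + 1)), by fun_prop⟩ with hα
  have hα01 : ∀ w, ρ w = 0 → α w = 0 ∨ α w = 1 := by
    intro w hw
    obtain ⟨kw, hkw⟩ := lift_diff_int hP hQ (x := w) (show 0 ≤ ρ w from hw.ge)
      (show ρ w ≤ 0 from hw.le)
    rcases lt_or_ge kw ky with h | h
    · left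
      have : (kw : ℝ) + 1 ≤ ky := by exact_mod_cast h
      simp only [hα, ContinuousMap.coe_mk]
      rw [hkw]
      apply max_eq_left
      refine (min_le_right _ _).trans (by linarith)
    · right
      have : (ky : ℝ) ≤ kw := by exact_mod_cast h
      simp only [hα, ContinuousMap.coe_mk]
      rw [hkw, min_eq_left (by linarith)]
      norm_num
  have hαy : α y = 1 := by
    simp only [hα, ContinuousMap.coe_mk]
    rw [hky]; simp
  have hαx : α x = 0 := by
    have : (kx : ℝ) + 2 ≤ ky := by exact_mod_cast hkk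
    simp only [hα, ContinuousMap.coe_mk]
    rw [hkx]
    apply max_eq_left
    refine (min_le_right _ _).trans (by linarith)
  set u : T → ℂ := fun w => if 0 ≤ ρ w then Complex.exp (2 * Real.pi * Complex.I * (α w : ℝ))
    else 1 with hu
  have huc : Continuous u := by
    refine Continuous.if_le ?_ continuous_const continuous_const ρ.continuous ?_
    · have := α.continuous
      fun_prop
    · intro w hw
      rcases hα01 w hw.symm with h | h
      · rw [h]; simp
      · rw [h]
        simp only [Complex.ofReal_one, mul_one]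
        exact Complex.exp_two_pi_mul_I
  have hu0 : ∀ w, u w ≠ 0 := by
    intro w
    simp only [hu]
    split_ifs
    · exact Complex.exp_ne_zero _
    · exact one_ne_zero
  obtain ⟨m', n', β, hβ⟩ := class_map u huc hu0
  set bb : C(T, ℝ) := ⟨fun w => (β w).im / (2 * Real.pi), by
    have := β.continuous; fun_prop⟩ with hbb
  have hpi : (0 : ℝ) < 2 * Real.pi := Real.two_pi_pos
  have hP' : Lift m' n' {x | 0 ≤ ρ x} (α - bb) := by
    intro z hz
    have h3 := hβ z
    simp only [hu] at h3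
    rw [if_pos (show 0 ≤ ρ (pr z) from hz), Complex.exp_eq_exp_iff_exists_int] at h3
    obtain ⟨j, hj⟩ := h3
    refine ⟨j, ?_⟩
    have h4 := congrArg Complex.im hj
    simp at h4
    simp only [ContinuousMap.sub_apply, hbb, ContinuousMap.coe_mk]
    field_simp
    linarith
  have hQ' : Lift m' n' {x | ρ x ≤ 0} (-bb) := by
    intro z hz
    have h3 := hβ z
    have hu1 : u (pr z) = 1 := by
      simp only [hu]
      split_ifs with h
      · have hw : ρ (pr z) = 0 := le_antisymm hz h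
        rcases hα01 _ hw with h | h
        · rw [h]; simp
        · rw [h]
          simp only [Complex.ofReal_one, mul_one]
          exact Complex.exp_two_pi_mul_I
      · rfl
    rw [hu1, ← Complex.exp_zero, Complex.exp_eq_exp_iff_exists_int] at h3
    obtain ⟨j, hj⟩ := h3
    refine ⟨j, ?_⟩
    have h4 := congrArg Complex.im hj
    simp at h4
    simp only [ContinuousMap.neg_apply, hbb, ContinuousMap.coe_mk]
    field_simp
    linarith
  have hkill := lift_loop hP' hL
  obtain ⟨τ, hτ1, hτ2⟩ := pos_multiple hab hpos hmn hkill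
  have hcP : ∀ w w', 0 ≤ ρ w → 0 ≤ ρ w' → (α - bb) w - τ * lP w = (α - bb) w' - τ * lP w' := by
    intro w w' hw hw'
    refine int_const (g := fun w => (α - bb) w - τ * lP w) h1 ?_ ?_ (show 0 ≤ ρ w from hw)
      (show 0 ≤ ρ w' from hw')
    · have e1 := (α - bb).continuous
      have e2 := lP.continuous
      exact (e1.sub (continuous_const.mul e2)).continuousOn
    · intro v hv
      obtain ⟨z, rfl⟩ := pr_surjective v
      obtain ⟨i, hi⟩ := hP' z hv
      obtain ⟨j, hj⟩ := hP z hv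
      refine ⟨i - τ * j, ?_⟩
      simp only [hi, hj, hτ1, hτ2]
      push_cast; ring
  have hcQ : ∀ w w', ρ w ≤ 0 → ρ w' ≤ 0 → (-bb) w - τ * lQ w = (-bb) w' - τ * lQ w' := by
    intro w w' hw hw'
    refine int_const (g := fun w => (-bb) w - τ * lQ w) h2 ?_ ?_ (show ρ w ≤ 0 from hw)
      (show ρ w' ≤ 0 from hw')
    · have e1 := (-bb).continuous
      have e2 := lQ.continuous
      exact (e1.sub (continuous_const.mul e2)).continuousOn
    · intro v hv
      obtain ⟨z, rfl⟩ := pr_surjective v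
      obtain ⟨i, hi⟩ := hQ' z hv
      obtain ⟨j, hj⟩ := hQ z hv
      refine ⟨i - τ * j, ?_⟩
      simp only [hi, hj, hτ1, hτ2]
      push_cast; ring
  have e1 := hcP x y hx.ge hy.ge
  have e2 := hcQ x y hx.le hy.le
  simp only [ContinuousMap.sub_apply, ContinuousMap.neg_apply, hαx, hαy] at e1 e2
  have e3 : (τ : ℝ) * (ky - kx) = 1 := by
    rw [← hkx, ← hky]; linarith
  have e4 : τ * (ky - kx) = 1 := by exact_mod_cast e3
  have e5 : (ky - kx) ∣ 1 := ⟨τ, by linarith⟩
  have e6 := Int.le_of_dvd one_pos e5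
  omega

/-- existence of data on a neighbourhood -/
theorem exists_dat {ρ : C(T, ℝ)} (h1 : ∀ c : ℝ, IsPreconnected {x | c ≤ ρ x})
    (h2 : ∀ c : ℝ, IsPreconnected {x | ρ x ≤ c}) (hP : Ess {x | 0 < ρ x})
    (hQ : Ess {x | ρ x < 0}) : ∃ (m n : ℤ) (lP lQ : C(T, ℝ)) (k : ℤ) (ε : ℝ), 0 < ε ∧ Pos m n ∧
      Lift m n {x | -ε ≤ ρ x} lP ∧ Lift m n {x | ρ x ≤ ε} lQ ∧
      ∀ x, |ρ x| ≤ ε → (lP x - lQ x = k ∨ lP x - lQ x = k + 1) := by
  obtain ⟨a, b, hab, hLP⟩ := hP
  obtain ⟨c, d, hcd, hLQ⟩ := hQ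
  obtain ⟨ε₁, hε₁, hL1⟩ := lam_shrink hLP
  have hLQ' : Lam {x | 0 < (-ρ) x} c d := by
    refine hLQ.mono fun x hx => ?_
    have : ρ x < 0 := hx
    show 0 < (-ρ) x
    rw [ContinuousMap.neg_apply]; linarith
  obtain ⟨ε₂, hε₂, hL2'⟩ := lam_shrink hLQ'
  have hL2 : Lam {x | ρ x ≤ -ε₂} c d := by
    refine hL2'.mono fun x hx => ?_
    have : ε₂ ≤ (-ρ) x := hx
    rw [ContinuousMap.neg_apply] at this
    show ρ x ≤ -ε₂
    linarith
  have hdet : a * d - b * c = 0 := by
    refine crossing ?_ hLP hLQ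
    rw [Set.disjoint_left]
    intro x hx hx'
    exact absurd (show 0 < ρ x from hx) (not_lt.2 (le_of_lt hx'))
  obtain ⟨m, n, hpos, hmn⟩ := pos_exists hcd
  have hmn' : m * a + n * b = 0 := par_kill hcd hdet hmn
  -- lift on the positive side
  obtain ⟨lP, hlP⟩ : ∃ l : C(T, ℝ), Lift m n {x | -(ε₂ / 2) ≤ ρ x} l := by
    refine exists_lift (W := {x | -ε₂ < ρ x}) (isOpen_lt continuous_const ρ.continuous)
      (precon_strict h1 _) ?_ (isClosed_le continuous_const ρ.continuous) ?_
    · intro a' b' h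
      refine par_kill hcd (crossing ?_ h hL2) hmn
      rw [Set.disjoint_left]
      intro x hx hx'
      exact absurd (show -ε₂ < ρ x from hx) (not_lt.2 hx')
    · intro x hx
      have : -(ε₂ / 2) ≤ ρ x := hx
      show -ε₂ < ρ x
      linarith
  obtain ⟨lQ, hlQ⟩ : ∃ l : C(T, ℝ), Lift m n {x | ρ x ≤ ε₁ / 2} l := by
    refine exists_lift (W := {x | ρ x < ε₁}) (isOpen_lt ρ.continuous continuous_const)
      ?_ ?_ (isClosed_le ρ.continuous continuous_const) ?_
    · have h3 : ∀ c : ℝ, IsPreconnected {x | c ≤ (-ρ) x} := by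
        intro c
        have : {x | c ≤ (-ρ) x} = {x | ρ x ≤ -c} := by
          ext x; simp only [mem_ofPred_eq, ContinuousMap.neg_apply]
          constructor <;> intro h <;> linarith
        rw [this]; exact h2 _
      have h4 := precon_strict h3 (-ε₁)
      have : {x | -ε₁ < (-ρ) x} = {x | ρ x < ε₁} := by
        ext x; simp only [mem_ofPred_eq, ContinuousMap.neg_apply]
        constructor <;> intro h <;> linarith
      rw [← this]; exact h4
    · intro a' b' h
      refine par_kill hab (crossing ?_ h hL1) hmn'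
      rw [Set.disjoint_left]
      intro x hx hx'
      exact absurd (show ρ x < ε₁ from hx) (not_lt.2 hx')
    · intro x hx
      have : ρ x ≤ ε₁ / 2 := hx
      show ρ x < ε₁
      linarith
  set ε₀ : ℝ := min (ε₁ / 2) (ε₂ / 2) with hε₀
  have hε₀pos : 0 < ε₀ := lt_min (by linarith) (by linarith)
  have hint : ∀ x, |ρ x| ≤ ε₀ → ∃ k : ℤ, lP x - lQ x = k := by
    intro x hx
    rw [abs_le] at hx
    refine lift_diff_int hlP hlQ (show -(ε₂ / 2) ≤ ρ x from ?_) (show ρ x ≤ ε₁ / 2 from ?_)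
    · have := min_le_right (ε₁ / 2) (ε₂ / 2); linarith
    · have := min_le_left (ε₁ / 2) (ε₂ / 2); linarith
  have hle : ∀ x y, ρ x = 0 → ρ y = 0 → lP y - lQ y ≤ lP x - lQ x + 1 := by
    intro x y hx hy
    refine diff_le_one (h1 0) (h2 0) hab hpos hmn' (hLP.mono fun x hx => le_of_lt (show 0 < ρ x from hx)) ?_ ?_ hx hy
    · intro z hz
      exact hlP z (le_trans (by linarith) (show 0 ≤ ρ (pr z) from hz))
    · intro z hz
      exact hlQ z (le_trans (show ρ (pr z) ≤ 0 from hz) (by linarith))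
  -- the integer `k`
  obtain ⟨k, hk⟩ : ∃ k : ℤ, ∀ x, ρ x = 0 → (lP x - lQ x = k ∨ lP x - lQ x = k + 1) := by
    rcases {x | ρ x = 0}.eq_empty_or_nonempty with he | hne
    · refine ⟨0, fun x hx => ?_⟩
      have : x ∈ ({x | ρ x = 0} : Set T) := hx
      rw [he] at this
      exact absurd this (notMem_empty _)
    · have hcomp : IsCompact {x | ρ x = 0} :=
        (isClosed_eq ρ.continuous continuous_const).isCompact
      obtain ⟨x₀, hx₀, hmin⟩ := hcomp.exists_isMinOn hne
        ((lP.continuous.sub lQ.continuous).continuousOn)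
      obtain ⟨k, hk⟩ := hint x₀ (by rw [show ρ x₀ = 0 from hx₀]; simp [hε₀pos.le])
      refine ⟨k, fun x hx => ?_⟩
      obtain ⟨j, hj⟩ := hint x (by rw [hx]; simp [hε₀pos.le])
      have e1 : lP x₀ - lQ x₀ ≤ lP x - lQ x := hmin hx
      have e2 := hle x₀ x hx₀ hx
      rw [hk, hj] at e1 e2
      have e1' : k ≤ j := by exact_mod_cast e1
      have e2' : j ≤ k + 1 := by exact_mod_cast e2
      rw [hj]
      rcases (by omega : j = k ∨ j = k + 1) with rfl | rfl
      · left; rfl
      · right; push_cast; ring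
  -- shrink the neighbourhood
  obtain ⟨ε, hε, hεle, hεk⟩ : ∃ ε > 0, ε ≤ ε₀ ∧
      ∀ x, |ρ x| ≤ ε → (lP x - lQ x = k ∨ lP x - lQ x = k + 1) := by
    set B : Set T := {x | |ρ x| ≤ ε₀} ∩ {x | 1 ≤ |lP x - lQ x - k - 1 / 2|} with hB
    have hBc : IsCompact B := by
      apply IsClosed.isCompact
      apply IsClosed.inter
      · exact isClosed_le ρ.continuous.abs continuous_const
      · refine isClosed_le continuous_const ?_
        have e1 := lP.continuous
        have e2 := lQ.continuous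
        fun_prop
    have hBk : ∀ x, |ρ x| ≤ ε₀ → x ∉ B → (lP x - lQ x = k ∨ lP x - lQ x = k + 1) := by
      intro x hx hxB
      obtain ⟨j, hj⟩ := hint x hx
      have h5 : ¬ (1 ≤ |lP x - lQ x - k - 1 / 2|) := fun h => hxB ⟨hx, h⟩
      rw [hj] at h5 ⊢
      rw [not_le, abs_lt] at h5
      have e1 : (k : ℝ) - 1 < j := by linarith [h5.1]
      have e2 : (j : ℝ) < k + 2 := by linarith [h5.2]
      have e1' : k - 1 < j := by exact_mod_cast e1
      have e2' : j < k + 2 := by exact_mod_cast e2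
      rcases (by omega : j = k ∨ j = k + 1) with rfl | rfl
      · left; rfl
      · right; push_cast; ring
    rcases B.eq_empty_or_nonempty with he | hne
    · refine ⟨ε₀, hε₀pos, le_rfl, fun x hx => hBk x hx (by rw [he]; exact notMem_empty _)⟩
    · obtain ⟨x₀, hx₀, hmin⟩ := hBc.exists_isMinOn hne (ρ.continuous.abs.continuousOn)
      have hρ0 : ρ x₀ ≠ 0 := by
        intro h0
        have h6 : 1 ≤ |lP x₀ - lQ x₀ - k - 1 / 2| := hx₀.2
        rcases hk x₀ h0 with h | h
        · rw [h, sub_self, zero_sub, abs_neg, abs_of_pos (by norm_num)] at h6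
          norm_num at h6
        · rw [h] at h6
          rw [show (k : ℝ) + 1 - k - 1 / 2 = 1 / 2 by ring] at h6
          rw [abs_of_pos (by norm_num)] at h6
          norm_num at h6
      have hpos0 : 0 < |ρ x₀| := abs_pos.2 hρ0
      refine ⟨min (|ρ x₀| / 2) ε₀, lt_min (by linarith) hε₀pos, min_le_right _ _, fun x hx => ?_⟩
      refine hBk x (hx.trans (min_le_right _ _)) fun hxB => ?_
      have e1 : |ρ x₀| ≤ |ρ x| := hmin hxB
      have e2 := hx.trans (min_le_left _ _)
      linarith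
  refine ⟨m, n, lP, lQ, k, ε, hε, hpos, ?_, ?_, hεk⟩
  · intro z hz
    refine hlP z (le_trans ?_ (show -ε ≤ ρ (pr z) from hz))
    have := min_le_right (ε₁ / 2) (ε₂ / 2); linarith
  · intro z hz
    refine hlQ z (le_trans (show ρ (pr z) ≤ ε from hz) ?_)
    have := min_le_left (ε₁ / 2) (ε₂ / 2); linarith

end Pool.Agent.Helper874.TT
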