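import Mathlib

/-!
Basic definitions for the torus `T = ℝ/ℤ × ℝ/ℤ` and its universal cover `ℂ → T`.
-/

namespace Pool.Agent.Helper874.TT

open Set Topology Metric

/-- the torus -/
abbrev T : Type := UnitAddCircle × UnitAddCircle

/-- the universal covering map -/
noncomputable def pr (z : ℂ) : T := ((z.re : UnitAddCircle), (z.im : UnitAddCircle))

/-- the lattice vector of `(a, b)` -/
def lat (a b : ℤ) : ℂ := ⟨(a : ℝ), (b : ℝ)⟩

/-- the integral class `(m, n)` has the real-valued lift `lam` on `P` -/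
def Lift (m n : ℤ) (P : Set T) (lam : C(T, ℝ)) : Prop :=
  ∀ z : ℂ, pr z ∈ P → ∃ k : ℤ, lam (pr z) = m * z.re + n * z.im + k

/-- `W` contains a loop in the class `(a, b)` -/
def Lam (W : Set T) (a b : ℤ) : Prop := ∃ z : ℂ, JoinedIn (pr ⁻¹' W) z (z + lat a b)

/-- `W` contains an essential loop -/
def Ess (W : Set T) : Prop := ∃ a b : ℤ, (a ≠ 0 ∨ b ≠ 0) ∧ Lam W a b

/-- `u` has a continuous logarithm on `K` -/
def LogOn {X : Type*} [TopologicalSpace X] (u : X → ℂ) (K : Set X) : Prop :=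
  ∃ g : X → ℂ, ContinuousOn g K ∧ ∀ x ∈ K, Complex.exp (g x) = u x

/-- every point off `K` can be connected to points far away -/
def NS (K : Set ℂ) : Prop :=
  ∀ p ∉ K, ∀ R : ℝ, ∃ D : Set ℂ, IsPreconnected D ∧ D ⊆ Kᶜ ∧ p ∈ D ∧ ∃ q ∈ D, R < ‖q‖

section Good

variable {X E : Type*} [TopologicalSpace X] [NormedAddCommGroup E] [InnerProductSpace ℝ E]

/-- good convex sets with respect to `f` -/
structure Good (f : X → E) (F : Set E) : Prop where
  conv : Convex ℝ F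
  comp : IsCompact F
  pre : ∀ (m : E) (c : ℝ), IsPreconnected (f ⁻¹' (F ∩ {x | c ≤ inner ℝ m x}))
  cpre : ∀ (m : E) (c : ℝ), IsPreconnected (f ⁻¹' (F ∩ {x | c ≤ inner ℝ m x}))ᶜ
  ne : ∀ (m : E) (c : ℝ), (F ∩ {x | c ≤ inner ℝ m x}).Nonempty →
    (f ⁻¹' (F ∩ {x | c ≤ inner ℝ m x})).Nonempty

end Good

end Pool.Agent.Helper874.TT
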