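import Pool.Agent.Helper874.TT.Tor

/-! Lifts of classes and sections over open preconnected sets. -/

namespace Pool.Agent.Helper874.TT

open Set Topology Metric

/-- path component upstairs -/
def comp (W : Set T) (z₀ : ℂ) : Set ℂ := {z | JoinedIn (pr ⁻¹' W) z₀ z}

theorem comp_sub {W : Set T} {z₀ : ℂ} : comp W z₀ ⊆ pr ⁻¹' W := fun _ h => h.target_mem

theorem isOpen_comp {W : Set T} (hW : IsOpen W) (z₀ : ℂ) : IsOpen (comp W z₀) := by
  rw [Metric.isOpen_iff]
  intro z hz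
  have hz' : z ∈ pr ⁻¹' W := comp_sub hz
  obtain ⟨r, hr, hb⟩ := Metric.isOpen_iff.1 (hW.preimage continuous_pr) z hz'
  refine ⟨r, hr, fun w hw => ?_⟩
  have h1 : JoinedIn (ball z r) z w :=
    ((convex_ball z r).isPathConnected ⟨z, mem_ball_self hr⟩).joinedIn z (mem_ball_self hr) w hw
  exact JoinedIn.trans hz (h1.mono hb)

theorem comp_trans {W : Set T} {z₀ z w : ℂ} (hz : z ∈ comp W z₀) (hw : w ∈ comp W z₀) :
    JoinedIn (pr ⁻¹' W) z w := (JoinedIn.symm hz).trans hw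

theorem comp_surj {W : Set T} (hW : IsOpen W) (hpre : IsPreconnected W) {z₀ : ℂ}
    (h0 : pr z₀ ∈ W) : ∀ x ∈ W, ∃ z ∈ comp W z₀, pr z = x := by
  have hz0 : z₀ ∈ comp W z₀ := JoinedIn.refl h0
  set A : Set T := pr '' comp W z₀ with hA
  have hAo : IsOpen A := isOpenMap_pr _ (isOpen_comp hW z₀)
  set B : Set T := ⋃ z ∈ {z : ℂ | pr z ∈ W ∧ pr z ∉ A}, pr '' comp W z with hB
  have hBo : IsOpen B := isOpen_biUnion fun z _ => isOpenMap_pr _ (isOpen_comp hW z)
  have hdis : Disjoint A B := by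
    rw [Set.disjoint_left]
    rintro x ⟨w, hw, rfl⟩ hxB
    rw [hB, mem_iUnion₂] at hxB
    obtain ⟨z, ⟨hzW, hzA⟩, z', hz', heq⟩ := hxB
    obtain ⟨a, b, hab⟩ := pr_eq_iff.1 heq
    apply hzA
    refine ⟨z + lat a b, ?_, pr_add_lat z a b⟩
    have h1 := joinedIn_add hz' a b
    rw [← hab] at h1
    exact JoinedIn.trans hw h1.symm
  have hsub : W ⊆ A ∪ B := by
    intro x hx
    by_cases hxA : x ∈ A
    · exact Or.inl hxA
    · right
      obtain ⟨z, rfl⟩ := pr_surjective x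
      rw [hB, mem_iUnion₂]
      exact ⟨z, ⟨hx, hxA⟩, z, JoinedIn.refl hx, rfl⟩
  have := hpre.subset_left_of_subset_union hAo hBo hdis hsub ⟨pr z₀, h0, z₀, hz0, rfl⟩
  intro x hx
  obtain ⟨z, hz, rfl⟩ := this hx
  exact ⟨z, hz, rfl⟩

/-- a function upstairs which is compatible descends -/
theorem descend {Y : Type*} [TopologicalSpace Y] [Inhabited Y] {W : Set T} (hW : IsOpen W)
    (hpre : IsPreconnected W) {z₀ : ℂ} (h0 : pr z₀ ∈ W) (h : ℂ → Y) (hc : Continuous h)
    (hcomp : ∀ z ∈ comp W z₀, ∀ w ∈ comp W z₀, pr z = pr w → h z = h w) :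
    ∃ s : T → Y, ContinuousOn s W ∧ ∀ z ∈ comp W z₀, s (pr z) = h z := by
  classical
  refine ⟨fun x => if hx : ∃ z ∈ comp W z₀, pr z = x then h hx.choose else default, ?_, ?_⟩
  swap
  · intro z hz
    have hx : ∃ w ∈ comp W z₀, pr w = pr z := ⟨z, hz, rfl⟩
    simp only [dif_pos hx]
    exact hcomp _ hx.choose_spec.1 _ hz hx.choose_spec.2
  · have key : ∀ z ∈ comp W z₀, (fun x => if hx : ∃ z ∈ comp W z₀, pr z = x then h hx.choose
        else default) (pr z) = h z := by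
      intro z hz
      have hx : ∃ w ∈ comp W z₀, pr w = pr z := ⟨z, hz, rfl⟩
      simp only [dif_pos hx]
      exact hcomp _ hx.choose_spec.1 _ hz hx.choose_spec.2
    set s : T → Y := fun x => if hx : ∃ z ∈ comp W z₀, pr z = x then h hx.choose
        else default with hs
    intro x hx
    obtain ⟨z, hz, rfl⟩ := comp_surj hW hpre h0 x hx
    apply ContinuousAt.continuousWithinAt
    have h1 : Filter.Tendsto (fun w => s (pr w)) (𝓝 z) (𝓝 (s (pr z))) := by
      rw [key z hz]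
      refine (hc.tendsto z).congr' ?_
      filter_upwards [(isOpen_comp hW z₀).mem_nhds hz] with w hw
      exact (key w hw).symm
    intro V hV
    have h2 : pr '' ((fun w => s (pr w)) ⁻¹' V) ∈ 𝓝 (pr z) :=
      isOpenMap_pr.image_mem_nhds (h1 hV)
    rw [Filter.mem_map]
    refine Filter.mem_of_superset h2 ?_
    rintro _ ⟨w, hw, rfl⟩
    exact hw

/-- extension of functions given on closed sets -/
theorem tietze_real {s : T → ℝ} {P : Set T} (hP : IsClosed P) (hs : ContinuousOn s P) :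
    ∃ g : C(T, ℝ), ∀ x ∈ P, g x = s x := by
  obtain ⟨g, hg⟩ := ContinuousMap.exists_restrict_eq hP (⟨_, hs.domRestrict⟩ : C(P, ℝ))
  refine ⟨g, fun x hx => ?_⟩
  have := congrArg (fun h : C(P, ℝ) => h ⟨x, hx⟩) hg
  simpa using this

/-- the class `(m,n)` lifts to closed subsets of an open preconnected set all of whose loops it
kills -/
theorem exists_lift {W : Set T} (hW : IsOpen W) (hpre : IsPreconnected W) {m n : ℤ}
    (hkill : ∀ a b : ℤ, Lam W a b → m * a + n * b = 0) {P : Set T} (hP : IsClosed P)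
    (hPW : P ⊆ W) : ∃ l : C(T, ℝ), Lift m n P l := by
  rcases P.eq_empty_or_nonempty with rfl | ⟨x₀, hx₀⟩
  · exact ⟨0, fun z hz => absurd hz (notMem_empty _)⟩
  obtain ⟨z₀, rfl⟩ := pr_surjective x₀
  have h0 : pr z₀ ∈ W := hPW hx₀
  obtain ⟨s, hsc, hs⟩ := descend hW hpre h0 (fun z : ℂ => (m : ℝ) * z.re + n * z.im)
    (by fun_prop) (by
      intro z hz w hw hzw
      obtain ⟨a, b, rfl⟩ := pr_eq_iff.1 hzw
      have h1 : Lam W a b := ⟨z, comp_trans hz hw⟩
      have h2 : (m : ℝ) * a + n * b = 0 := by exact_mod_cast hkill a b h1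
      simp only [Complex.add_re, Complex.add_im, lat_re, lat_im]
      linarith)
  obtain ⟨g, hg⟩ := tietze_real hP (hsc.mono hPW)
  refine ⟨g, fun z hz => ?_⟩
  obtain ⟨w, hw, hwz⟩ := comp_surj hW hpre h0 (pr z) (hPW hz)
  obtain ⟨a, b, hab⟩ := pr_eq_iff.1 hwz
  refine ⟨-(m * a + n * b), ?_⟩
  rw [hg _ hz, ← hwz, hs w hw, hab]
  simp only [Complex.add_re, Complex.add_im, lat_re, lat_im]
  push_cast
  ring

/-- an open preconnected set without essential loops has a section -/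
theorem exists_section {W : Set T} (hW : IsOpen W) (hpre : IsPreconnected W)
    (hin : ¬ Ess W) {z₀ : ℂ} (h0 : pr z₀ ∈ W) :
    ∃ s : T → ℂ, ContinuousOn s W ∧ (∀ x ∈ W, s x ∈ comp W z₀ ∧ pr (s x) = x) ∧
      ∀ z ∈ comp W z₀, s (pr z) = z := by
  obtain ⟨s, hsc, hs⟩ := descend hW hpre h0 (fun z : ℂ => z) continuous_id (by
      intro z hz w hw hzw
      obtain ⟨a, b, rfl⟩ := pr_eq_iff.1 hzw
      have h1 : Lam W a b := ⟨z, comp_trans hz hw⟩
      by_contra hne
      apply hin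
      refine ⟨a, b, ?_, h1⟩
      by_contra hcon
      push Not at hcon
      apply hne
      rw [hcon.1, hcon.2, lat_zero, add_zero])
  refine ⟨s, hsc, fun x hx => ?_, hs⟩
  obtain ⟨z, hz, rfl⟩ := comp_surj hW hpre h0 x hx
  rw [hs z hz]
  exact ⟨hz, rfl⟩

end Pool.Agent.Helper874.TT
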