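import Pool.Agent.Helper874.TT.Lifts
import Pool.Agent.Helper874.TT.Cross

namespace Pool.Agent.Helper874.TT

open Set Topology Metric

theorem bounded_fixed (p : ℂ → ℂ) (hp : Continuous p) (M : ℝ) (hM : ∀ z, ‖p z‖ ≤ M) :
    ∃ z, p z = z := Cross.bounded_fixed p hp M hM

theorem crossing {W₁ W₂ : Set T} (hd : Disjoint W₁ W₂) {a b c d : ℤ} (h₁ : Lam W₁ a b)
    (h₂ : Lam W₂ c d) : a * d - b * c = 0 := Cross.crossing hd h₁ h₂

theorem no_cover {A B : Set T} (hAB : A ∪ B = univ) {l₁ l₂ : C(T, ℝ)} (h₁ : Lift 1 0 A l₁)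
    (h₂ : Lift 0 1 B l₂) : False := Cross.no_cover hAB h₁ h₂

theorem lift_loop {P : Set T} {m n a b : ℤ} {l : C(T, ℝ)} (hl : Lift m n P l) (h : Lam P a b) :
    m * a + n * b = 0 := Cross.lift_loop hl h

theorem class_map (u : T → ℂ) (hu : Continuous u) (h0 : ∀ x, u x ≠ 0) :
    ∃ (m n : ℤ) (β : C(T, ℂ)), ∀ z : ℂ, u (pr z) =
      Complex.exp (2 * Real.pi * Complex.I * (m * z.re + n * z.im) + β (pr z)) :=
  Cross.class_map u hu h0

end Pool.Agent.Helper874.TT
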