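import Pool.Agent.Helper874.TT.Defs

/-! Basic facts about the covering `pr : ℂ → T`. -/

namespace Pool.Agent.Helper874.TT

open Set Topology Metric

@[simp] theorem lat_re (a b : ℤ) : (lat a b).re = a := rfl
@[simp] theorem lat_im (a b : ℤ) : (lat a b).im = b := rfl

theorem coe_eq_coe {x y : ℝ} : (x : UnitAddCircle) = y ↔ ∃ n : ℤ, y = x + n := by
  rw [QuotientAddGroup.eq, AddSubgroup.mem_zmultiples_iff]
  constructor
  · rintro ⟨k, hk⟩
    refine ⟨k, ?_⟩
    simp only [zsmul_eq_mul, mul_one] at hk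
    linarith
  · rintro ⟨k, hk⟩
    refine ⟨k, ?_⟩
    simp only [zsmul_eq_mul, mul_one]
    linarith

theorem pr_eq_iff {z w : ℂ} : pr z = pr w ↔ ∃ a b : ℤ, w = z + lat a b := by
  unfold pr
  rw [Prod.mk.injEq, coe_eq_coe, coe_eq_coe]
  constructor
  · rintro ⟨⟨a, ha⟩, ⟨b, hb⟩⟩
    exact ⟨a, b, Complex.ext (by simp [ha]) (by simp [hb])⟩
  · rintro ⟨a, b, h⟩
    exact ⟨⟨a, by rw [h]; simp⟩, ⟨b, by rw [h]; simp⟩⟩

theorem pr_add_lat (z : ℂ) (a b : ℤ) : pr (z + lat a b) = pr z :=
  (pr_eq_iff.2 ⟨a, b, rfl⟩).symm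

theorem continuous_coe : Continuous ((↑) : ℝ → UnitAddCircle) := continuous_quotient_mk'

theorem continuous_pr : Continuous pr :=
  (continuous_coe.comp Complex.continuous_re).prodMk (continuous_coe.comp Complex.continuous_im)

theorem isOpenMap_coe : IsOpenMap ((↑) : ℝ → UnitAddCircle) := QuotientAddGroup.isOpenMap_coe

theorem isOpenMap_pr : IsOpenMap pr := by
  have h1 : IsOpenMap (Prod.map ((↑) : ℝ → UnitAddCircle) ((↑) : ℝ → UnitAddCircle)) :=
    isOpenMap_coe.prodMap isOpenMap_coe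
  have h2 : IsOpenMap (fun z : ℂ => (z.re, z.im)) :=
    Complex.equivRealProdCLM.toHomeomorph.isOpenMap
  exact h1.comp h2

theorem pr_surjective : Function.Surjective pr := by
  rintro ⟨x, y⟩
  obtain ⟨a, rfl⟩ := QuotientAddGroup.mk_surjective x
  obtain ⟨b, rfl⟩ := QuotientAddGroup.mk_surjective y
  exact ⟨⟨a, b⟩, rfl⟩

theorem isQuotientMap_pr : IsQuotientMap pr :=
  isOpenMap_pr.isQuotientMap continuous_pr pr_surjective

instance : PreconnectedSpace T := inferInstance
instance : CompactSpace T := inferInstance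
instance : T2Space T := inferInstance

theorem lat_add (a b c d : ℤ) : lat a b + lat c d = lat (a + c) (b + d) := by
  apply Complex.ext <;> simp

theorem lat_neg (a b : ℤ) : -lat a b = lat (-a) (-b) := by
  apply Complex.ext <;> simp

theorem lat_zero : lat 0 0 = 0 := by
  apply Complex.ext <;> simp

theorem lat_nsmul (n : ℕ) (a b : ℤ) : (n : ℂ) * lat a b = lat (n * a) (n * b) := by
  apply Complex.ext <;> simp

/-- translates of joined pairs -/
theorem joinedIn_add {W : Set T} {z w : ℂ} (h : JoinedIn (pr ⁻¹' W) z w) (a b : ℤ) :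
    JoinedIn (pr ⁻¹' W) (z + lat a b) (w + lat a b) := by
  have := h.map_continuousOn (f := fun z => z + lat a b) (by fun_prop)
  refine this.mono ?_
  rintro _ ⟨x, hx, rfl⟩
  show pr _ ∈ W
  rw [pr_add_lat]; exact hx

end Pool.Agent.Helper874.TT
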